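import Pool.Agent.Work.MP_cbf770_co.Uncross

/-!
Random sampling: the crossing inequality for systems of monotone arcs of multiplicity at most two.
-/

set_option autoImplicit false

namespace Pool.Agent.Work.MP_cbf770_co

open Finset

variable {ι κ : Type*}

/-- Bernoulli weight of the subset `S` of `V`. -/
noncomputable def bw [DecidableEq κ] (p : ℝ) (V S : Finset κ) : ℝ := p ^ S.card * (1 - p) ^ (V \ S).card

theorem bw_nonneg [DecidableEq κ] {p : ℝ} (h0 : 0 ≤ p) (h1 : p ≤ 1) (V S : Finset κ) :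
    0 ≤ bw p V S := mul_nonneg (pow_nonneg h0 _) (pow_nonneg (by linarith) _)

open Classical in
theorem bern [DecidableEq κ] (p : ℝ) (V A : Finset κ) (hA : A ⊆ V) (c : κ → Prop) :
    ∑ S ∈ V.powerset, bw p V S * (if ∀ k ∈ A, (k ∈ S ↔ c k) then 1 else 0) =
      ∏ k ∈ A, (if c k then p else 1 - p) := by
  have h := Finset.prod_add (fun i => if i ∈ A ∧ ¬ c i then (0 : ℝ) else p)
    (fun i => if i ∈ A ∧ c i then (0 : ℝ) else 1 - p) V
  have l : ∏ i ∈ V, ((if i ∈ A ∧ ¬ c i then (0 : ℝ) else p) +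
      (if i ∈ A ∧ c i then (0 : ℝ) else 1 - p)) = ∏ k ∈ A, (if c k then p else 1 - p) := by
    rw [← prod_subset hA]
    · refine prod_congr rfl fun k hk => ?_
      by_cases a : c k <;> simp [a, hk]
    · intro k _ hk
      simp [hk]
  rw [← l, h]
  refine sum_congr rfl fun S hS => ?_
  split_ifs with a
  · rw [bw, mul_one, ← prod_const, ← prod_const]
    congr 1
    · refine prod_congr rfl fun k hk => ?_
      rw [if_neg]
      rintro ⟨x, z⟩
      exact z ((a k x).mp hk)
    · refine prod_congr rfl fun k hk => ?_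
      rw [if_neg]
      rintro ⟨x, z⟩
      exact (mem_sdiff.mp hk).2 ((a k x).mpr z)
  · push Not at a
    obtain ⟨k, hk, a⟩ := a
    rw [mul_zero]
    symm
    rcases a with ⟨a, b⟩ | ⟨a, b⟩
    · rw [prod_eq_zero a (by simp [hk, b]), zero_mul]
    · rw [prod_eq_zero (mem_sdiff.mpr ⟨hA hk, a⟩) (by simp [hk, b]), mul_zero]

open Classical in
theorem bern_card [DecidableEq κ] {τ : Type*} (p q : ℝ) (V : Finset κ) (I : Finset τ)
    (ev : Finset κ → τ → Prop)
    (h : ∀ t ∈ I, ∃ A ⊆ V, ∃ c : κ → Prop, (∀ S, ev S t ↔ ∀ k ∈ A, (k ∈ S ↔ c k)) ∧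
      ∏ k ∈ A, (if c k then p else 1 - p) = q) :
    ∑ S ∈ V.powerset, bw p V S * ((I.filter (ev S)).card : ℝ) = q * I.card := by
  simp_rw [card_filter]
  push_cast
  simp_rw [mul_sum]
  rw [sum_comm, mul_comm q, ← nsmul_eq_mul, ← sum_const]
  refine sum_congr rfl fun t ht => ?_
  obtain ⟨A, hA, c, h1, h2⟩ := h t ht
  rw [← h2, ← bern p V A hA c]
  refine sum_congr rfl fun S _ => ?_
  congr 1
  exact if_congr (h1 S) rfl rfl

section
variable {E : Finset ι} {n : ℕ} {l r : ι → ℕ} {y : ℕ → ℝ} {h : ι → ℕ → ℝ}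

theorem cross_simple (hv : Valid E l r y h) (hn : ∀ e ∈ E, r e < n)
    (hsimp : ∀ e ∈ E, ∀ f ∈ E, l e = l f → r e = r f → e = f)
    (hadj : ∀ e ∈ E, ∀ f ∈ E, ∀ i, Cr l r h e f i → l e ≠ l f ∧ r e ≠ r f)
    {p : ℝ} (h0 : 0 ≤ p) (h1 : p ≤ 1) :
    2 * p ^ 2 * E.card ≤ 6 * p * n + p ^ 4 * (crP E l r h).card := by
  classical
  have e1 := bern_card p (p ^ 2) (range n) E (fun S e => l e ∈ S ∧ r e ∈ S) (by
    intro e he
    have a := hv.lt e he
    have b := hn e he
    refine ⟨{l e, r e}, ?_, fun _ => True, by simp, ?_⟩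
    · intro k hk
      simp only [mem_insert, mem_singleton, mem_range] at hk ⊢
      omega
    · simp [card_pair a.ne])
  have e2 := bern_card p p (range n) (range n) (fun S k => k ∈ S) (by
    intro k hk
    exact ⟨{k}, by simpa using hk, fun _ => True, by simp, by simp⟩)
  have e3 := bern_card p (p ^ 4) (range n) (crP E l r h)
    (fun S t => (l t.1 ∈ S ∧ r t.1 ∈ S) ∧ (l t.2 ∈ S ∧ r t.2 ∈ S)) (by
    intro t ht
    simp only [crP, mem_filter, mem_product] at ht
    obtain ⟨⟨he, hf⟩, i, hc⟩ := ht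
    have a := hv.lt _ he
    have b := hn _ he
    have a' := hv.lt _ hf
    have b' := hn _ hf
    have d := hadj _ he _ hf i hc
    obtain ⟨c1, c2, c3, c4, -⟩ := hc
    refine ⟨{l t.1, r t.1, l t.2, r t.2}, ?_, fun _ => True, by simp [and_assoc], ?_⟩
    · intro k hk
      simp only [mem_insert, mem_singleton, mem_range] at hk ⊢
      omega
    · have : ({l t.1, r t.1, l t.2, r t.2} : Finset ℕ).card = 4 := by
        rw [card_insert_of_notMem (by simp; omega), card_insert_of_notMem (by simp; omega),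
          card_pair a'.ne]
      simp [this])
  have key : ∀ S ∈ (range n).powerset,
      bw p (range n) S * (2 * ((E.filter fun e => l e ∈ S ∧ r e ∈ S).card : ℝ)) ≤
      bw p (range n) S * (6 * (((range n).filter fun k => k ∈ S).card : ℝ) +
        (((crP E l r h).filter fun t =>
          (l t.1 ∈ S ∧ r t.1 ∈ S) ∧ (l t.2 ∈ S ∧ r t.2 ∈ S)).card : ℝ)) := by
    intro S hS
    refine mul_le_mul_of_nonneg_left ?_ (bw_nonneg h0 h1 _ _)
    have hs : (range n).filter (fun k => k ∈ S) = S := by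
      ext k
      simp only [mem_filter, and_iff_right_iff_imp]
      exact fun hk => mem_powerset.mp hS hk
    have hsub := filter_subset (fun e => l e ∈ S ∧ r e ∈ S) E
    have t := planar_cr (S := S) (hv.mono hsub) (fun e he => (mem_filter.mp he).2)
      (fun e he f hf => hsimp e (hsub he) f (hsub hf))
    have t2 : (crP (E.filter fun e => l e ∈ S ∧ r e ∈ S) l r h).card ≤
        ((crP E l r h).filter fun t =>
          (l t.1 ∈ S ∧ r t.1 ∈ S) ∧ (l t.2 ∈ S ∧ r t.2 ∈ S)).card := by
      refine card_le_card fun t ht => ?_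
      simp only [crP, mem_filter, mem_product] at ht ⊢
      exact ⟨⟨⟨ht.1.1.1, ht.1.2.1⟩, ht.2⟩, ht.1.1.2, ht.1.2.2⟩
    rw [hs]
    exact_mod_cast t.trans (by omega)
  have := sum_le_sum key
  simp only [mul_add, sum_add_distrib, mul_left_comm (bw p (range n) _), ← mul_sum] at this
  rw [card_range] at e2
  have e1' : ∑ S ∈ (range n).powerset, bw p (range n) S *
      ((E.filter fun e => l e ∈ S ∧ r e ∈ S).card : ℝ) = p ^ 2 * E.card := by
    rw [← e1]; congr!
  have e2' : ∑ S ∈ (range n).powerset, bw p (range n) S *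
      (((range n).filter fun k => k ∈ S).card : ℝ) = p * n := by
    rw [← e2]; congr!
  have e3' : ∑ S ∈ (range n).powerset, bw p (range n) S * (((crP E l r h).filter fun t =>
          (l t.1 ∈ S ∧ r t.1 ∈ S) ∧ (l t.2 ∈ S ∧ r t.2 ∈ S)).card : ℝ) =
      p ^ 4 * (crP E l r h).card := by
    rw [← e3]; congr!
  rw [e1', e2', e3'] at this
  linarith

theorem cross_double (hv : Valid E l r y h) (hn : ∀ e ∈ E, r e < n)
    (hmul : ∀ e ∈ E, ∀ f ∈ E, ∀ g ∈ E, l e = l f → r e = r f → l e = l g → r e = r g →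
      e = f ∨ e = g ∨ f = g)
    {p : ℝ} (h0 : 0 ≤ p) (h1 : p ≤ 1) :
    p ^ 2 * E.card ≤ 6 * p * n + p ^ 4 * (crN E n l r h) / 4 := by
  classical
  obtain ⟨h', hv', hle, hadj⟩ := uncross hv (fun e he => (hn e he).le)
  have hle2 := (crP_le_crN (h := h') (l := l) (fun e he => (hn e he).le)).trans hle
  let _ : LinearOrder ι := linearOrderOfSTO WellOrderingRel
  let col : ι → Prop := fun e => ∃ f ∈ E, l f = l e ∧ r f = r e ∧ f < e
  let V := range n ×ˢ range n
  have hV : ∀ e ∈ E, (l e, r e) ∈ V := by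
    intro e he
    have a := hv.lt e he
    have b := hn e he
    simp only [V, mem_product, mem_range]
    omega
  have half : ∀ (A : Finset (ℕ × ℕ)) (c : ℕ × ℕ → Prop),
      ∏ k ∈ A, (if c k then (1 / 2 : ℝ) else 1 - 1 / 2) = (1 / 2) ^ A.card := by
    intro A c
    rw [← prod_const]
    refine prod_congr rfl fun k _ => ?_
    split_ifs <;> norm_num
  have e0 := bern_card (1 / 2) 1 V ({()} : Finset Unit) (fun _ _ => True) (by
    intro _ _
    exact ⟨∅, by simp, fun _ => True, by simp, by simp⟩)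
  have e1 := bern_card (1 / 2) (1 / 2) V E (fun S e => ((l e, r e) ∈ S ↔ col e)) (by
    intro e he
    refine ⟨{(l e, r e)}, by simpa using hV e he, fun _ => col e, by simp, ?_⟩
    rw [half]; simp)
  have e3 := bern_card (1 / 2) (1 / 4) V (crP E l r h')
    (fun S t => ((l t.1, r t.1) ∈ S ↔ col t.1) ∧ ((l t.2, r t.2) ∈ S ↔ col t.2)) (by
    intro t ht
    simp only [crP, mem_filter, mem_product] at ht
    obtain ⟨⟨he, hf⟩, i, hc⟩ := ht
    have d := hadj _ he _ hf i hc
    have d2 : (l t.1, r t.1) ≠ (l t.2, r t.2) := by simp [d.1]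
    refine ⟨{(l t.1, r t.1), (l t.2, r t.2)}, ?_,
      fun k => if k = (l t.1, r t.1) then col t.1 else col t.2, ?_, ?_⟩
    · intro k hk
      simp only [mem_insert, mem_singleton] at hk
      rcases hk with rfl | rfl
      · exact hV _ he
      · exact hV _ hf
    · intro S
      simp only [mem_insert, mem_singleton, forall_eq_or_imp, forall_eq, if_true, if_neg d2.symm]
    · rw [half, card_pair d2]; norm_num)
  have key : ∀ S ∈ V.powerset,
      bw (1 / 2) V S * (2 * p ^ 2 * ((E.filter fun e => ((l e, r e) ∈ S ↔ col e)).card : ℝ)) ≤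
      bw (1 / 2) V S * (6 * p * n + p ^ 4 *
        (((crP E l r h').filter fun t =>
          ((l t.1, r t.1) ∈ S ↔ col t.1) ∧ ((l t.2, r t.2) ∈ S ↔ col t.2)).card : ℝ)) := by
    intro S _
    refine mul_le_mul_of_nonneg_left ?_ (bw_nonneg (by norm_num) (by norm_num) _ _)
    have hsub := filter_subset (fun e => ((l e, r e) ∈ S ↔ col e)) E
    have aux : ∀ e ∈ E, ∀ f ∈ E, l e = l f → r e = r f → (col e ↔ col f) → ¬ e < f := by
      intro e he f hf a b c d
      obtain ⟨g, hg, g1, g2, g3⟩ := c.mpr ⟨e, he, a, b, d⟩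
      rcases hmul e he f hf g hg a b g1.symm g2.symm with x | x | x
      · exact d.ne x
      · exact g3.ne' x
      · exact (g3.trans d).ne' x
    have t := cross_simple (hv'.mono hsub) (fun e he => hn e (hsub he))
      (fun e he f hf a b => by
        have x := (mem_filter.mp he).2
        have z := (mem_filter.mp hf).2
        rw [a, b] at x
        have c : col e ↔ col f := x.symm.trans z
        exact le_antisymm (not_lt.mp (aux f (hsub hf) e (hsub he) a.symm b.symm c.symm))
          (not_lt.mp (aux e (hsub he) f (hsub hf) a b c)))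
      (fun e he f hf => hadj e (hsub he) f (hsub hf)) h0 h1
    have t2 : (crP (E.filter fun e => ((l e, r e) ∈ S ↔ col e)) l r h').card ≤
        ((crP E l r h').filter fun t =>
          ((l t.1, r t.1) ∈ S ↔ col t.1) ∧ ((l t.2, r t.2) ∈ S ↔ col t.2)).card := by
      refine card_le_card fun t ht => ?_
      simp only [crP, mem_filter, mem_product] at ht ⊢
      exact ⟨⟨⟨ht.1.1.1, ht.1.2.1⟩, ht.2⟩, ht.1.1.2, ht.1.2.2⟩
    have t3 : (0 : ℝ) ≤ p ^ 4 := by positivity
    have t4 := mul_le_mul_of_nonneg_left (Nat.cast_le (α := ℝ).mpr t2) t3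
    linarith
  have := sum_le_sum key
  simp only [mul_add, sum_add_distrib, mul_left_comm (bw (1 / 2) V _), ← mul_sum,
    ← sum_mul] at this
  have e0' : ∑ S ∈ V.powerset, bw (1 / 2) V S = 1 := by simpa using e0
  have e1' : ∑ S ∈ V.powerset, bw (1 / 2) V S *
      ((E.filter fun e => ((l e, r e) ∈ S ↔ col e)).card : ℝ) = 1 / 2 * E.card := by
    rw [← e1]; congr!
  have e3' : ∑ S ∈ V.powerset, bw (1 / 2) V S * (((crP E l r h').filter fun t =>
          ((l t.1, r t.1) ∈ S ↔ col t.1) ∧ ((l t.2, r t.2) ∈ S ↔ col t.2)).card : ℝ) =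
      1 / 4 * (crP E l r h').card := by
    rw [← e3]; congr!
  rw [e0', e1', e3'] at this
  have t3 : (0 : ℝ) ≤ p ^ 4 := by positivity
  have t4 := mul_le_mul_of_nonneg_left (Nat.cast_le (α := ℝ).mpr hle2) t3
  linarith

end

end Pool.Agent.Work.MP_cbf770_co
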