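import Mathlib

/-!
A combinatorial model of drawings by x-monotone arcs.  Vertices are natural numbers (their rank in
the x-order) with heights `y k`; an edge `e` runs from `l e` to `r e` and has height `h e k` above
the abscissa of vertex `k`.  We prove the planar bound `|E| ≤ 3 |S|` for crossing-free simple systems.
-/

set_option autoImplicit false

namespace Pool.Agent.Work.MP_cbf770_co

open Finset

variable {ι : Type*}

/-- Validity of a system of monotone arcs. -/
structure Valid (E : Finset ι) (l r : ι → ℕ) (y : ℕ → ℝ) (h : ι → ℕ → ℝ) : Prop where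
  lt : ∀ e ∈ E, l e < r e
  hl : ∀ e ∈ E, h e (l e) = y (l e)
  hr : ∀ e ∈ E, h e (r e) = y (r e)
  av : ∀ e ∈ E, ∀ k, l e < k → k < r e → h e k ≠ y k
  ne : ∀ e ∈ E, ∀ f ∈ E, e ≠ f → ∀ k, l e < k → k < r e → l f < k → k < r f → h e k ≠ h f k

/-- The edges `e` and `f` cross in the strip between `i` and `i+1`. -/
def Cr (l r : ι → ℕ) (h : ι → ℕ → ℝ) (e f : ι) (i : ℕ) : Prop :=
  l e ≤ i ∧ i < r e ∧ l f ≤ i ∧ i < r f ∧ (h e i - h f i) * (h e (i + 1) - h f (i + 1)) < 0

theorem Cr.symm {l r : ι → ℕ} {h : ι → ℕ → ℝ} {e f : ι} {i : ℕ} (H : Cr l r h e f i) :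
    Cr l r h f e i := by
  obtain ⟨a, b, c, d, m⟩ := H
  exact ⟨c, d, a, b, by nlinarith⟩

theorem not_Cr_self {l r : ι → ℕ} {h : ι → ℕ → ℝ} (e : ι) (i : ℕ) : ¬ Cr l r h e e i := by
  rintro ⟨-, -, -, -, m⟩
  simp at m

theorem Valid.mono {E E' : Finset ι} {l r : ι → ℕ} {y : ℕ → ℝ} {h : ι → ℕ → ℝ}
    (hv : Valid E l r y h) (hs : E' ⊆ E) : Valid E' l r y h :=
  ⟨fun e he => hv.lt e (hs he), fun e he => hv.hl e (hs he), fun e he => hv.hr e (hs he),
    fun e he => hv.av e (hs he), fun e he f hf => hv.ne e (hs he) f (hs hf)⟩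

theorem persist {E : Finset ι} {l r : ι → ℕ} {y : ℕ → ℝ} {h : ι → ℕ → ℝ}
    (hv : Valid E l r y h) (hnc : ∀ e ∈ E, ∀ f ∈ E, ∀ i, ¬ Cr l r h e f i)
    {e f : ι} (he : e ∈ E) (hf : f ∈ E) {i j : ℕ} (h1 : l e ≤ i) (h2 : l f ≤ i) (hij : i ≤ j)
    (h3 : j ≤ r e) (h4 : j ≤ r f) (hlt : h e i < h f i) : h e j ≤ h f j := by
  have hef : e ≠ f := by
    rintro rfl
    exact lt_irrefl _ hlt
  have key : ∀ j, i ≤ j → j ≤ r e → j ≤ r f →
      h e j ≤ h f j ∧ (j < r e → j < r f → h e j < h f j) := by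
    intro j hj
    induction j, hj using Nat.le_induction with
    | base => intro _ _; exact ⟨hlt.le, fun _ _ => hlt⟩
    | succ j hj ih =>
      intro a b
      have ih' := (ih (by omega) (by omega)).2 (by omega) (by omega)
      have hle : h e (j + 1) ≤ h f (j + 1) := by
        by_contra hc
        push Not at hc
        exact hnc e he f hf j ⟨by omega, by omega, by omega, by omega, by nlinarith⟩
      exact ⟨hle, fun c d => lt_of_le_of_ne hle (hv.ne e he f hf hef _ (by omega) c (by omega) d)⟩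
  exact (key j hij h3 h4).1

/-- `(e, g)` is a pair of consecutive right-going edges at a vertex and `k` is the first vertex of
`S` in the closed wedge between them. -/
structure Wedge (E : Finset ι) (S : Finset ℕ) (l r : ι → ℕ) (y : ℕ → ℝ) (h : ι → ℕ → ℝ)
    (e g : ι) (k : ℕ) : Prop where
  gE : g ∈ E
  ll : l g = l e
  lt : h e (l e + 1) < h g (l e + 1)
  mn : ∀ f ∈ E, l f = l e → h e (l e + 1) < h f (l e + 1) → h g (l e + 1) ≤ h f (l e + 1)
  lk : l e < k
  kre : k ≤ r e
  krg : k ≤ r g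
  le1 : h e k ≤ y k
  le2 : y k ≤ h g k
  first : ∀ j ∈ S, l e < j → j < k → ¬ (h e j ≤ y j ∧ y j ≤ h g j)

section
variable {E : Finset ι} {S : Finset ℕ} {l r : ι → ℕ} {y : ℕ → ℝ} {h : ι → ℕ → ℝ}

theorem ne_next (hv : Valid E l r y h)
    (hsimp : ∀ e ∈ E, ∀ f ∈ E, l e = l f → r e = r f → e = f)
    {e f : ι} (he : e ∈ E) (hf : f ∈ E) (hef : e ≠ f) (hl : l f = l e) :
    h e (l e + 1) ≠ h f (l e + 1) := by
  have a := hv.lt e he
  have b := hv.lt f hf
  by_cases c : r e = l e + 1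
  · by_cases d : r f = l e + 1
    · exact absurd (hsimp e he f hf hl.symm (by omega)) hef
    · have := hv.av f hf (l e + 1) (by omega) (by omega)
      have t := hv.hr e he
      rw [c] at t
      rw [t]; exact this.symm
  · by_cases d : r f = l e + 1
    · have := hv.av e he (l e + 1) (by omega) (by omega)
      have t := hv.hr f hf
      rw [d] at t
      rw [t]; exact this
    · exact hv.ne e he f hf hef _ (by omega) (by omega) (by omega) (by omega)

theorem wedge_lt (hv : Valid E l r y h) (hS : ∀ e ∈ E, l e ∈ S)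
    (hnc : ∀ e ∈ E, ∀ f ∈ E, ∀ i, ¬ Cr l r h e f i)
    {e g e' g' : ι} {k : ℕ} (he : e ∈ E) (he' : e' ∈ E)
    (W : Wedge E S l r y h e g k) (W' : Wedge E S l r y h e' g' k) (hl : l e < l e') :
    h g k ≤ h e' k ∨ h g' k ≤ h e k := by
  have hf := W.first (l e') (hS e' he') hl W'.lk
  by_cases c : h e (l e') ≤ y (l e')
  · left
    have c2 : h g (l e') < y (l e') := by
      by_contra hc
      push Not at hc
      exact hf ⟨c, hc⟩
    refine persist hv hnc W.gE he' (i := l e') (by rw [W.ll]; omega) le_rfl W'.lk.le W.krg W'.kre ?_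
    rw [hv.hl e' he']; exact c2
  · right
    push Not at c
    refine persist hv hnc W'.gE he (i := l e') (by rw [W'.ll]) (by omega) W'.lk.le W'.krg W.kre ?_
    have := hv.hl g' W'.gE
    rw [W'.ll] at this
    rw [this]; exact c

theorem wedge_eq (hv : Valid E l r y h)
    (hsimp : ∀ e ∈ E, ∀ f ∈ E, l e = l f → r e = r f → e = f)
    (hnc : ∀ e ∈ E, ∀ f ∈ E, ∀ i, ¬ Cr l r h e f i)
    {e g e' g' : ι} {k : ℕ} (he' : e' ∈ E)
    (W : Wedge E S l r y h e g k) (W' : Wedge E S l r y h e' g' k) (hl : l e' = l e)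
    (hlt : h e (l e + 1) < h e' (l e + 1)) : h g k ≤ h e' k := by
  have a := W.mn e' he' hl hlt
  by_cases c : g = e'
  · rw [c]
  · have b := ne_next hv hsimp W.gE he' c (by rw [W.ll, hl])
    rw [W.ll] at b
    have lk := W.lk
    exact persist hv hnc W.gE he' (i := l e + 1) (by rw [W.ll]; omega) (by omega) (by omega)
      W.krg W'.kre (lt_of_le_of_ne a b)

theorem wedge_cmp (hv : Valid E l r y h) (hS : ∀ e ∈ E, l e ∈ S)
    (hsimp : ∀ e ∈ E, ∀ f ∈ E, l e = l f → r e = r f → e = f)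
    (hnc : ∀ e ∈ E, ∀ f ∈ E, ∀ i, ¬ Cr l r h e f i)
    {e g e' g' : ι} {k : ℕ} (he : e ∈ E) (he' : e' ∈ E) (hne : e ≠ e')
    (W : Wedge E S l r y h e g k) (W' : Wedge E S l r y h e' g' k) :
    h g k ≤ h e' k ∨ h g' k ≤ h e k := by
  rcases lt_trichotomy (l e) (l e') with c | c | c
  · exact wedge_lt hv hS hnc he he' W W' c
  · have d := ne_next hv hsimp he he' hne c.symm
    rcases lt_or_gt_of_ne d with d | d
    · exact Or.inl (wedge_eq hv hsimp hnc he' W W' c.symm d)
    · right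
      rw [c] at d
      exact wedge_eq hv hsimp hnc he W' W c d
  · exact (wedge_lt hv hS hnc he' he W' W c).symm

theorem wedge_exists (hv : Valid E l r y h) (hS : ∀ e ∈ E, r e ∈ S)
    (hnc : ∀ e ∈ E, ∀ f ∈ E, ∀ i, ¬ Cr l r h e f i)
    {e f : ι} (he : e ∈ E) (hf : f ∈ E) (hl : l f = l e) (hlt : h e (l e + 1) < h f (l e + 1)) :
    ∃ g, ∃ k ∈ S, Wedge E S l r y h e g k := by
  classical
  obtain ⟨g, hg, hmin⟩ := Finset.exists_min_image
    (E.filter fun f => l f = l e ∧ h e (l e + 1) < h f (l e + 1)) (fun f => h f (l e + 1))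
    ⟨f, by simp [hf, hl, hlt]⟩
  simp only [mem_filter] at hg hmin
  obtain ⟨gE, gl, glt⟩ := hg
  have a := hv.lt e he
  have b := hv.lt g gE
  have hex : ∃ k, k ∈ S ∧ l e < k ∧ k ≤ r e ∧ k ≤ r g ∧ h e k ≤ y k ∧ y k ≤ h g k := by
    rcases le_total (r e) (r g) with c | c
    · refine ⟨r e, hS e he, a, le_rfl, c, (hv.hr e he).le, ?_⟩
      rw [← hv.hr e he]
      exact persist hv hnc he gE (i := l e + 1) (by omega) (by omega) (by omega) le_rfl c glt
    · refine ⟨r g, hS g gE, by omega, c, le_rfl, ?_, (hv.hr g gE).ge⟩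
      rw [← hv.hr g gE]
      exact persist hv hnc he gE (i := l e + 1) (by omega) (by omega) (by omega) c le_rfl glt
  have hk := Nat.find_spec hex
  refine ⟨g, Nat.find hex, hk.1, gE, gl, glt, fun f hf h1 h2 => hmin f ⟨hf, h1, h2⟩, hk.2.1,
    hk.2.2.1, hk.2.2.2.1, hk.2.2.2.2.1, hk.2.2.2.2.2, ?_⟩
  intro j hj h1 h2 h3
  have := Nat.find_min hex h2
  exact this ⟨hj, h1, by omega, by omega, h3.1, h3.2⟩

theorem planar (hv : Valid E l r y h) (hS : ∀ e ∈ E, l e ∈ S ∧ r e ∈ S)
    (hsimp : ∀ e ∈ E, ∀ f ∈ E, l e = l f → r e = r f → e = f)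
    (hnc : ∀ e ∈ E, ∀ f ∈ E, ∀ i, ¬ Cr l r h e f i) : E.card ≤ 3 * S.card := by
  classical
  let Φ : ι → ℕ × ℕ → Prop := fun e c =>
    (c.2 = 0 ∧ c.1 = l e ∧ ∀ f ∈ E, l f = l e → h f (l e + 1) ≤ h e (l e + 1)) ∨
    (c.2 = 1 ∧ ∃ g, Wedge E S l r y h e g c.1 ∧ h e c.1 < y c.1) ∨
    (c.2 = 2 ∧ ∃ g, Wedge E S l r y h e g c.1 ∧ y c.1 < h g c.1)
  have hex : ∀ e ∈ E, ∃ c ∈ S ×ˢ range 3, Φ e c := by
    intro e he
    by_cases c : ∀ f ∈ E, l f = l e → h f (l e + 1) ≤ h e (l e + 1)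
    · exact ⟨(l e, 0), by simp [(hS e he).1], Or.inl ⟨rfl, rfl, c⟩⟩
    · push Not at c
      obtain ⟨f, hf, hl, hlt⟩ := c
      obtain ⟨g, k, hk, W⟩ := wedge_exists hv (fun e he => (hS e he).2) hnc he hf hl hlt
      by_cases d : h e k < y k
      · exact ⟨(k, 1), by simp [hk], Or.inr (Or.inl ⟨rfl, g, W, d⟩)⟩
      · by_cases d2 : y k < h g k
        · exact ⟨(k, 2), by simp [hk], Or.inr (Or.inr ⟨rfl, g, W, d2⟩)⟩
        · exfalso
          have e1 : h e k = y k := le_antisymm W.le1 (not_lt.mp d)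
          have e2 : h g k = y k := le_antisymm (not_lt.mp d2) W.le2
          have r1 : k = r e := by
            by_contra hc
            exact hv.av e he k W.lk (lt_of_le_of_ne W.kre hc) e1
          have r2 : k = r g := by
            by_contra hc
            exact hv.av g W.gE k (by rw [W.ll]; exact W.lk) (lt_of_le_of_ne W.krg hc) e2
          have := hsimp e he g W.gE W.ll.symm (by omega)
          have t := W.lt
          rw [← this] at t
          exact lt_irrefl _ t
  have huniq : ∀ e ∈ E, ∀ e' ∈ E, ∀ c, Φ e c → Φ e' c → e = e' := by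
    intro e he e' he' c h1 h2
    by_contra hne
    have hS1 : ∀ e ∈ E, l e ∈ S := fun e he => (hS e he).1
    rcases h1 with ⟨a1, a2, a3⟩ | ⟨a1, g, W, a3⟩ | ⟨a1, g, W, a3⟩ <;>
      rcases h2 with ⟨b1, b2, b3⟩ | ⟨b1, g', W', b3⟩ | ⟨b1, g', W', b3⟩ <;>
      try omega
    · have hl : l e' = l e := by omega
      have t1 := a3 e' he' hl
      have t2 := b3 e he hl.symm
      rw [hl] at t2
      exact ne_next hv hsimp he he' hne hl (le_antisymm t2 t1)
    · rcases wedge_cmp hv hS1 hsimp hnc he he' hne W W' with t | t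
      · linarith [W.le2]
      · linarith [W'.le2]
    · rcases wedge_cmp hv hS1 hsimp hnc he he' hne W W' with t | t
      · linarith [W'.le1]
      · linarith [W.le1]
  choose! c hc using hex
  have := Finset.card_le_card_of_injOn (s := E) (t := S ×ˢ range 3) c
    (fun e he => (hc e he).1)
    (fun e he e' he' hee => huniq e he e' he' (c e) (hc e he).2 (hee ▸ (hc e' he').2))
  simpa [mul_comm] using this

open Classical in
/-- Ordered pairs of crossing edges. -/
noncomputable def crP (E : Finset ι) (l r : ι → ℕ) (h : ι → ℕ → ℝ) : Finset (ι × ι) :=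
  (E ×ˢ E).filter fun t => ∃ i, Cr l r h t.1 t.2 i

theorem planar_cr (hv : Valid E l r y h) (hS : ∀ e ∈ E, l e ∈ S ∧ r e ∈ S)
    (hsimp : ∀ e ∈ E, ∀ f ∈ E, l e = l f → r e = r f → e = f) :
    2 * E.card ≤ 6 * S.card + (crP E l r h).card := by
  classical
  let _ : LinearOrder ι := linearOrderOfSTO WellOrderingRel
  set X := crP E l r h with hX
  set X1 := X.filter fun t => t.1 < t.2 with hX1
  set X2 := X.filter fun t => t.2 < t.1 with hX2
  have hsym : ∀ t ∈ X, t.swap ∈ X := by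
    intro t ht
    simp only [hX, crP, mem_filter, mem_product, Prod.fst_swap, Prod.snd_swap] at ht ⊢
    obtain ⟨⟨a, b⟩, i, c⟩ := ht
    exact ⟨⟨b, a⟩, i, c.symm⟩
  have h12 : X1.card ≤ X2.card := by
    refine Finset.card_le_card_of_injOn Prod.swap ?_ (Prod.swap_injective.injOn)
    intro t ht
    simp only [hX1, hX2, coe_filter, Set.mem_ofPred_eq, Prod.fst_swap, Prod.snd_swap] at ht ⊢
    exact ⟨hsym t ht.1, ht.2⟩
  have hdis : X1.card + X2.card ≤ X.card := by
    rw [← Finset.card_union_of_disjoint]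
    · exact card_le_card (union_subset (filter_subset _ _) (filter_subset _ _))
    · rw [disjoint_filter]
      intro t _ a b
      exact lt_asymm a b
  set E' := E \ X1.image Prod.fst with hE'
  have hsub : E' ⊆ E := sdiff_subset
  have hp := planar (S := S) (hv.mono hsub) (fun e he => hS e (hsub he))
    (fun e he f hf => hsimp e (hsub he) f (hsub hf)) (by
      intro e he f hf i hc
      have hne : e ≠ f := by
        rintro rfl
        exact not_Cr_self _ _ hc
      have m : (e, f) ∈ X := by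
        simp only [hX, crP, mem_filter, mem_product]
        exact ⟨⟨hsub he, hsub hf⟩, i, hc⟩
      rcases lt_or_gt_of_ne hne with c | c
      · exact (mem_sdiff.mp he).2 (mem_image.mpr ⟨(e, f), mem_filter.mpr ⟨m, c⟩, rfl⟩)
      · exact (mem_sdiff.mp hf).2 (mem_image.mpr ⟨(f, e), mem_filter.mpr ⟨hsym _ m, c⟩, rfl⟩))
  have h3 : E.card ≤ E'.card + (X1.image Prod.fst).card := by
    rw [hE']; exact card_le_card_sdiff_add_card
  have h4 := card_image_le (s := X1) (f := Prod.fst)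
  omega

end

end Pool.Agent.Work.MP_cbf770_co
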