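import Pool.Agent.Work.MP_cbf770_co.Sample
import Mathlib

-- merged part: Pool.Agent.Work.MP_cbf770_co.Circles
section
/-!
The crossing inequality for circles, in generic position.
-/

set_option autoImplicit false

namespace Pool.Agent.Work.MP_cbf770_co

open Finset

theorem three_pts {a b ρ a' b' ρ' p1 p2 q1 q2 r1 r2 : ℝ} (hne : ¬ (a = a' ∧ b = b' ∧ ρ = ρ'))
    (hp : (p1 - a) ^ 2 + (p2 - b) ^ 2 = ρ) (hp' : (p1 - a') ^ 2 + (p2 - b') ^ 2 = ρ')
    (hq : (q1 - a) ^ 2 + (q2 - b) ^ 2 = ρ) (hq' : (q1 - a') ^ 2 + (q2 - b') ^ 2 = ρ')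
    (hr : (r1 - a) ^ 2 + (r2 - b) ^ 2 = ρ) (hr' : (r1 - a') ^ 2 + (r2 - b') ^ 2 = ρ')
    (hpq : (q1, q2) ≠ (p1, p2)) : (r1, r2) = (p1, p2) ∨ (r1, r2) = (q1, q2) := by
  have e1 : (a' - a) * (q1 - p1) + (b' - b) * (q2 - p2) = 0 := by linarith only [hp, hp', hq, hq']
  have e2 : (a' - a) * (r1 - p1) + (b' - b) * (r2 - p2) = 0 := by linarith only [hp, hp', hr, hr']
  have hc : (q1 - p1) * (r2 - p2) - (q2 - p2) * (r1 - p1) = 0 := by
    by_cases c1 : a' - a = 0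
    · by_cases c2 : b' - b = 0
      · exfalso
        have x1 : a = a' := by linarith only [c1]
        have x2 : b = b' := by linarith
        exact hne ⟨x1, x2, by rw [← hp, ← hp', x1, x2]⟩
      · apply mul_left_cancel₀ c2
        linear_combination (q1 - p1) * e2 - (r1 - p1) * e1
    · apply mul_left_cancel₀ c1
      linear_combination (r2 - p2) * e1 - (q2 - p2) * e2
  have hd : (q1 - p1) ^ 2 + (q2 - p2) ^ 2 ≠ 0 := by
    intro h
    apply hpq
    have x1 : q1 - p1 = 0 := by nlinarith only [h, sq_nonneg (q1 - p1), sq_nonneg (q2 - p2)]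
    have x2 : q2 - p2 = 0 := by nlinarith only [h, sq_nonneg (q1 - p1), sq_nonneg (q2 - p2)]
    ext
    · simp only; linarith only [x1]
    · simp only; linarith only [x2]
  obtain ⟨t, t1, t2⟩ : ∃ t : ℝ, r1 = p1 + t * (q1 - p1) ∧ r2 = p2 + t * (q2 - p2) := by
    refine ⟨((r1 - p1) * (q1 - p1) + (r2 - p2) * (q2 - p2)) / ((q1 - p1) ^ 2 + (q2 - p2) ^ 2),
      ?_, ?_⟩
    · field_simp
      linear_combination (-(q2 - p2)) * hc
    · field_simp
      linear_combination (q1 - p1) * hc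
  subst t1 t2
  have : t * (t - 1) * ((q1 - p1) ^ 2 + (q2 - p2) ^ 2) = 0 := by
    linear_combination hr - t * hq + (t - 1) * hp
  rcases mul_eq_zero.mp this with x | x
  · rcases mul_eq_zero.mp x with x | x
    · left; simp [x]
    · right
      have : t = 1 := by linarith only [x]
      simp [this]
  · exact absurd x hd

theorem two_circles {a b ρ a' b' ρ' : ℝ} (hne : ¬ (a = a' ∧ b = b' ∧ ρ = ρ')) :
    ∃ Z : Finset (ℝ × ℝ), Z.card ≤ 2 ∧ ∀ u v, (u - a) ^ 2 + (v - b) ^ 2 = ρ →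
      (u - a') ^ 2 + (v - b') ^ 2 = ρ' → (u, v) ∈ Z := by
  classical
  by_cases c : ∃ u v, (u - a) ^ 2 + (v - b) ^ 2 = ρ ∧ (u - a') ^ 2 + (v - b') ^ 2 = ρ'
  · obtain ⟨p1, p2, hp, hp'⟩ := c
    by_cases d : ∃ u v, (u - a) ^ 2 + (v - b) ^ 2 = ρ ∧ (u - a') ^ 2 + (v - b') ^ 2 = ρ' ∧
        (u, v) ≠ (p1, p2)
    · obtain ⟨q1, q2, hq, hq', hpq⟩ := d
      refine ⟨{(p1, p2), (q1, q2)}, card_le_two, fun u v hr hr' => ?_⟩
      simpa using three_pts hne hp hp' hq hq' hr hr' hpq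
    · push Not at d
      exact ⟨{(p1, p2)}, by simp, fun u v hr hr' => by simpa using d u v hr hr'⟩
  · push Not at c
    exact ⟨∅, by simp, fun u v hr hr' => absurd hr' (c u v hr)⟩

open Classical in
/-- Pairs of consecutive elements of a finite set of natural numbers. -/
noncomputable def consec (A : Finset ℕ) : Finset (ℕ × ℕ) :=
  (A ×ˢ A).filter fun t => t.1 < t.2 ∧ ∀ k ∈ A, ¬ (t.1 < k ∧ k < t.2)

theorem card_consec (A : Finset ℕ) : A.card ≤ (consec A).card + 1 := by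
  classical
  rcases A.eq_empty_or_nonempty with rfl | hA
  · simp
  have hex : ∀ i ∈ A.erase (A.max' hA), ∃ j, (i, j) ∈ consec A := by
    intro i hi
    obtain ⟨h1, h2⟩ := mem_erase.mp hi
    have h3 : i < A.max' hA := lt_of_le_of_ne (A.le_max' i h2) h1
    have hx : ∃ j, j ∈ A ∧ i < j := ⟨_, A.max'_mem hA, h3⟩
    refine ⟨Nat.find hx, ?_⟩
    simp only [consec, mem_filter, mem_product]
    refine ⟨⟨h2, (Nat.find_spec hx).1⟩, (Nat.find_spec hx).2, fun k hk hc => ?_⟩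
    exact Nat.find_min hx hc.2 ⟨hk, hc.1⟩
  choose! f hf using hex
  have := card_le_card_of_injOn (s := A.erase (A.max' hA)) (t := consec A) (fun i => (i, f i))
    hf (fun i _ j _ h => congrArg Prod.fst h)
  rw [card_erase_of_mem (A.max'_mem hA)] at this
  omega

/-- Height of the upper (`s = true`) or lower half of a circle above the abscissa `u`. -/
noncomputable def Ht (a b ρ : ℝ) (s : Bool) (u : ℝ) : ℝ :=
  b + (if s then 1 else -1) * √(ρ - (u - a) ^ 2)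

theorem Ht_on {a b ρ u : ℝ} (s : Bool) (h : (u - a) ^ 2 ≤ ρ) :
    (u - a) ^ 2 + (Ht a b ρ s u - b) ^ 2 = ρ := by
  have := Real.sq_sqrt (show 0 ≤ ρ - (u - a) ^ 2 by linarith)
  cases s <;> simp [Ht, this]

theorem Ht_side {a b ρ u : ℝ} (s : Bool) (h : (u - a) ^ 2 < ρ) :
    (s = true ↔ b ≤ Ht a b ρ s u) := by
  have := Real.sqrt_pos.mpr (show 0 < ρ - (u - a) ^ 2 by linarith)
  cases s
  · simpa [Ht] using this
  · simp [Ht]

theorem Ht_eq {a b ρ u v : ℝ} (s : Bool) (h : (u - a) ^ 2 + (v - b) ^ 2 = ρ)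
    (hs : s = true ↔ b ≤ v) : Ht a b ρ s u = v := by
  have e : ρ - (u - a) ^ 2 = (v - b) ^ 2 := by linarith
  rw [Ht, e, Real.sqrt_sq_eq_abs]
  cases s
  · have : v < b := by simpa using hs
    rw [abs_of_neg (by linarith)]; simp
  · have : b ≤ v := by simpa using hs
    rw [abs_of_nonneg (by linarith)]; simp

theorem Ht_cont (a b ρ : ℝ) (s : Bool) : Continuous (Ht a b ρ s) := by
  unfold Ht; fun_prop

theorem betw_lt {a ρ p q u : ℝ} (hp : (p - a) ^ 2 ≤ ρ) (hq : (q - a) ^ 2 ≤ ρ) (h1 : p < u)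
    (h2 : u < q) : (u - a) ^ 2 < ρ := by
  rcases le_total a u with c | c <;> nlinarith only [hq, h2, c, hp, h1]

theorem ivt_cross {f : ℝ → ℝ} (hf : Continuous f) {p q : ℝ} (hpq : p < q) (h : f p * f q < 0) :
    ∃ u, p < u ∧ u < q ∧ f u = 0 := by
  rcases mul_neg_iff.mp h with ⟨a, b⟩ | ⟨a, b⟩
  · obtain ⟨u, hu, e⟩ := intermediate_value_Ioo' hpq.le hf.continuousOn ⟨b, a⟩
    exact ⟨u, hu.1, hu.2, e⟩
  · obtain ⟨u, hu, e⟩ := intermediate_value_Ioo hpq.le hf.continuousOn ⟨a, b⟩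
    exact ⟨u, hu.1, hu.2, e⟩

section
variable {κ : Type*} (n : ℕ) (x y : ℕ → ℝ) (a b ρ : κ → ℝ)

open Classical in
/-- Indices of the points on one half of a circle. -/
noncomputable def halfPts (γ : κ) (s : Bool) : Finset ℕ :=
  (range n).filter fun k => (x k - a γ) ^ 2 + (y k - b γ) ^ 2 = ρ γ ∧ (s = true ↔ b γ ≤ y k)

open Classical in
/-- The arcs between consecutive points on half circles. -/
noncomputable def arcs (C : Finset κ) : Finset ((_ : κ × Bool) × (ℕ × ℕ)) :=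
  (C ×ˢ univ).sigma fun t => consec (halfPts n x y a b ρ t.1 t.2)

variable {n x y a b ρ}

theorem mem_arcs {C : Finset κ} {e : (_ : κ × Bool) × (ℕ × ℕ)} :
    e ∈ arcs n x y a b ρ C ↔ e.1.1 ∈ C ∧ e.2.1 ∈ halfPts n x y a b ρ e.1.1 e.1.2 ∧
      e.2.2 ∈ halfPts n x y a b ρ e.1.1 e.1.2 ∧ e.2.1 < e.2.2 ∧
      ∀ k ∈ halfPts n x y a b ρ e.1.1 e.1.2, ¬ (e.2.1 < k ∧ k < e.2.2) := by
  simp [arcs, consec, and_assoc]

theorem mem_halfPts {γ : κ} {s : Bool} {k : ℕ} : k ∈ halfPts n x y a b ρ γ s ↔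
    k < n ∧ (x k - a γ) ^ 2 + (y k - b γ) ^ 2 = ρ γ ∧ (s = true ↔ b γ ≤ y k) := by
  simp [halfPts]

theorem arcs_unique {C : Finset κ} {e f : (_ : κ × Bool) × (ℕ × ℕ)}
    (he : e ∈ arcs n x y a b ρ C) (hf : f ∈ arcs n x y a b ρ C) (h1 : e.1 = f.1) {t : ℕ}
    (a1 : e.2.1 ≤ t) (a2 : t < e.2.2) (b1 : f.2.1 ≤ t) (b2 : t < f.2.2) : e = f := by
  obtain ⟨g, i, j⟩ := e
  obtain ⟨g', i', j'⟩ := f
  simp only at h1 a1 a2 b1 b2
  subst h1
  obtain ⟨-, e1, e2, -, e3⟩ := mem_arcs.mp he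
  obtain ⟨-, f1, f2, -, f3⟩ := mem_arcs.mp hf
  simp only at e1 e2 e3 f1 f2 f3
  have := e3 _ f1
  have := e3 _ f2
  have := f3 _ e1
  have := f3 _ e2
  have : i = i' := by omega
  have : j = j' := by omega
  subst_vars
  rfl

theorem arc_inside {C : Finset κ} {e : (_ : κ × Bool) × (ℕ × ℕ)}
    (he : e ∈ arcs n x y a b ρ C) {u : ℝ} (h1 : x e.2.1 < u) (h2 : u < x e.2.2) :
    (u - a e.1.1) ^ 2 < ρ e.1.1 := by
  obtain ⟨-, e1, e2, -, -⟩ := mem_arcs.mp he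
  have a1 := (mem_halfPts.mp e1).2.1
  have a2 := (mem_halfPts.mp e2).2.1
  exact betw_lt (by nlinarith only [a1, sq_nonneg (y e.2.1 - b e.1.1)])
    (by nlinarith only [a2, sq_nonneg (y e.2.2 - b e.1.1)]) h1 h2

open Classical in
theorem card_arcs (C : Finset κ) :
    ∑ γ ∈ C, ((range n).filter fun k => (x k - a γ) ^ 2 + (y k - b γ) ^ 2 = ρ γ).card ≤
      (arcs n x y a b ρ C).card + 2 * C.card := by
  rw [arcs, card_sigma, sum_product, mul_comm, ← smul_eq_mul, ← sum_const, ← sum_add_distrib]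
  refine sum_le_sum fun γ _ => ?_
  have h1 := card_consec (halfPts n x y a b ρ γ true)
  have h2 := card_consec (halfPts n x y a b ρ γ false)
  have h3 : ((range n).filter fun k => (x k - a γ) ^ 2 + (y k - b γ) ^ 2 = ρ γ).card ≤
      (halfPts n x y a b ρ γ true).card + (halfPts n x y a b ρ γ false).card := by
    refine le_trans (card_le_card ?_) (card_union_le _ _)
    intro k hk
    simp only [mem_filter, mem_range, mem_union, mem_halfPts] at hk ⊢
    by_cases c : b γ ≤ y k <;> simp [hk, c]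
  simp only [Fintype.univ_bool, mem_singleton, Bool.true_eq_false, not_false_eq_true, sum_insert,
    sum_singleton]
  omega

theorem arcs_valid {C : Finset κ} (hx : ∀ i j, i < j → j < n → x i < x j)
    (hgen : ∀ γ ∈ C, ∀ γ' ∈ C, γ ≠ γ' → ∀ k < n, ∀ v, (x k - a γ) ^ 2 + (v - b γ) ^ 2 = ρ γ →
      (x k - a γ') ^ 2 + (v - b γ') ^ 2 = ρ γ' → v = y k) :
    Valid (arcs n x y a b ρ C) (fun e => e.2.1) (fun e => e.2.2) y
      (fun e k => Ht (a e.1.1) (b e.1.1) (ρ e.1.1) e.1.2 (x k)) := by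
  have ins : ∀ e ∈ arcs n x y a b ρ C, ∀ k, e.2.1 < k → k < e.2.2 →
      k < n ∧ (x k - a e.1.1) ^ 2 < ρ e.1.1 := by
    intro e he k k1 k2
    have := (mem_halfPts.mp (mem_arcs.mp he).2.2.1).1
    exact ⟨by omega, arc_inside he (hx _ _ k1 (by omega)) (hx _ _ k2 this)⟩
  have av : ∀ e ∈ arcs n x y a b ρ C, ∀ k, e.2.1 < k → k < e.2.2 →
      Ht (a e.1.1) (b e.1.1) (ρ e.1.1) e.1.2 (x k) ≠ y k := by
    intro e he k k1 k2 hc
    obtain ⟨i1, i2⟩ := ins e he k k1 k2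
    refine (mem_arcs.mp he).2.2.2.2 k (mem_halfPts.mpr ⟨i1, ?_, ?_⟩) ⟨k1, k2⟩
    · rw [← hc]; exact Ht_on _ i2.le
    · rw [← hc]; exact Ht_side _ i2
  refine ⟨fun e he => (mem_arcs.mp he).2.2.2.1, fun e he => ?_, fun e he => ?_, av, ?_⟩
  · have := mem_halfPts.mp (mem_arcs.mp he).2.1
    exact Ht_eq _ this.2.1 this.2.2
  · have := mem_halfPts.mp (mem_arcs.mp he).2.2.1
    exact Ht_eq _ this.2.1 this.2.2
  · intro e he f hf hne k k1 k2 k3 k4 hc
    obtain ⟨i1, i2⟩ := ins e he k k1 k2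
    obtain ⟨-, j2⟩ := ins f hf k k3 k4
    by_cases c : e.1.1 = f.1.1
    · have s1 := Ht_side (b := b e.1.1) e.1.2 i2
      have s2 := Ht_side (b := b f.1.1) f.1.2 j2
      rw [hc, c, ← s2] at s1
      exact hne (arcs_unique he hf (Prod.ext c (Bool.eq_iff_iff.mpr s1)) k1.le k2 k3.le k4)
    · refine av e he k k1 k2 (hgen _ (mem_arcs.mp he).1 _ (mem_arcs.mp hf).1 c k i1 _
        (Ht_on _ i2.le) ?_)
      rw [hc]; exact Ht_on _ j2.le

theorem arcs_crN {C : Finset κ} (hx : ∀ i j, i < j → j < n → x i < x j)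
    (hC : ∀ γ ∈ C, ∀ γ' ∈ C, a γ = a γ' → b γ = b γ' → ρ γ = ρ γ' → γ = γ') :
    crN (arcs n x y a b ρ C) n (fun e => e.2.1) (fun e => e.2.2)
      (fun e k => Ht (a e.1.1) (b e.1.1) (ρ e.1.1) e.1.2 (x k)) ≤ 2 * C.card ^ 2 := by
  classical
  set E := arcs n x y a b ρ C with hE
  set Tr := (range n ×ˢ E ×ˢ E).filter fun t => Cr (fun e => e.2.1) (fun e => e.2.2)
      (fun e k => Ht (a e.1.1) (b e.1.1) (ρ e.1.1) e.1.2 (x k)) t.2.1 t.2.2 t.1 with hTr
  have h1 : crN E n (fun e => e.2.1) (fun e => e.2.2)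
      (fun e k => Ht (a e.1.1) (b e.1.1) (ρ e.1.1) e.1.2 (x k)) = Tr.card := by
    rw [hTr, card_filter, sum_product, crN]
    refine sum_congr rfl fun i _ => ?_
    rw [sum_product]
  have hm : ∀ t ∈ Tr, t.2.1 ∈ E ∧ t.2.2 ∈ E ∧ t.2.1.2.1 ≤ t.1 ∧ t.1 < t.2.1.2.2 ∧
      t.2.2.2.1 ≤ t.1 ∧ t.1 < t.2.2.2.2 ∧ t.1 + 1 < n ∧ t.2.1.1.1 ≠ t.2.2.1.1 ∧
      ∃ u, x t.1 < u ∧ u < x (t.1 + 1) ∧ (u - a t.2.1.1.1) ^ 2 < ρ t.2.1.1.1 ∧
        (u - a t.2.2.1.1) ^ 2 < ρ t.2.2.1.1 ∧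
        Ht (a t.2.1.1.1) (b t.2.1.1.1) (ρ t.2.1.1.1) t.2.1.1.2 u =
        Ht (a t.2.2.1.1) (b t.2.2.1.1) (ρ t.2.2.1.1) t.2.2.1.2 u := by
    rintro ⟨i, e, f⟩ ht
    simp only [hTr, mem_filter, mem_product, Cr] at ht
    obtain ⟨⟨-, he, hf⟩, c1, c2, c3, c4, c5⟩ := ht
    have n1 := (mem_halfPts.mp (mem_arcs.mp he).2.2.1).1
    have n2 := (mem_halfPts.mp (mem_arcs.mp hf).2.2.1).1
    have hle : ∀ i j, i ≤ j → j < n → x i ≤ x j := by
      intro i j h1 h2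
      rcases h1.eq_or_lt with rfl | h1
      · exact le_rfl
      · exact (hx _ _ h1 h2).le
    obtain ⟨u, u1, u2, u3⟩ := ivt_cross
      ((Ht_cont (a e.1.1) (b e.1.1) (ρ e.1.1) e.1.2).sub
        (Ht_cont (a f.1.1) (b f.1.1) (ρ f.1.1) f.1.2)) (hx i (i + 1) (by omega) (by omega)) c5
    refine ⟨he, hf, c1, c2, c3, c4, by omega, ?_, u, u1, u2,
      arc_inside he ((hle _ _ c1 (by omega)).trans_lt u1) (u2.trans_le (hle _ _ c2 n1)),
      arc_inside hf ((hle _ _ c3 (by omega)).trans_lt u1) (u2.trans_le (hle _ _ c4 n2)),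
      sub_eq_zero.mp u3⟩
    intro c
    simp only at c
    rw [c] at c5
    simp only [Ht] at c5
    have p1 := Real.sqrt_nonneg (ρ f.1.1 - (x i - a f.1.1) ^ 2)
    have p2 := Real.sqrt_nonneg (ρ f.1.1 - (x (i + 1) - a f.1.1) ^ 2)
    have p3 := mul_nonneg p1 p2
    cases h1 : e.1.2 <;> cases h2 : f.1.2 <;> simp only [h1, h2] at c5 <;> norm_num at c5 <;>
      nlinarith only [p3, c5]
  rw [h1, sq, ← card_product]
  refine card_le_mul_card_image_of_maps_to (f := fun t => (t.2.1.1.1, t.2.2.1.1)) ?_ 2 ?_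
  · intro t ht
    obtain ⟨m1, m2, -⟩ := hm t ht
    exact mem_product.mpr ⟨(mem_arcs.mp m1).1, (mem_arcs.mp m2).1⟩
  · rintro ⟨γ, γ'⟩ hγ
    obtain ⟨g1, g2⟩ := mem_product.mp hγ
    by_cases c : γ = γ'
    · rw [card_eq_zero.mpr]
      · omega
      · rw [filter_eq_empty_iff]
        intro t ht hc
        simp only [Prod.mk.injEq] at hc
        exact (hm t ht).2.2.2.2.2.2.2.1 (by rw [hc.1, hc.2, c])
    · obtain ⟨Z, hZ, hZ2⟩ := two_circles (a := a γ) (b := b γ) (ρ := ρ γ) (a' := a γ')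
        (b' := b γ') (ρ' := ρ γ') (fun h => c (hC _ g1 _ g2 h.1 h.2.1 h.2.2))
      refine le_trans ?_ hZ
      have hm2 := fun t ht => (hm t ht).2.2.2.2.2.2.2.2
      choose! u hu using hm2
      refine card_le_card_of_injOn (fun t => (u t, Ht (a γ) (b γ) (ρ γ) t.2.1.1.2 (u t))) ?_ ?_
      · intro t ht
        simp only [coe_filter, Set.mem_ofPred_eq, Prod.mk.injEq] at ht
        obtain ⟨ht, e1, e2⟩ := ht
        obtain ⟨-, -, u3, u4, u5⟩ := hu t ht
        rw [e1] at u3 u5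
        rw [e2] at u4 u5
        refine hZ2 _ _ (Ht_on _ u3.le) ?_
        rw [u5]; exact Ht_on _ u4.le
      · intro t ht t' ht' hc
        simp only [coe_filter, Set.mem_ofPred_eq, Prod.mk.injEq] at ht ht' hc
        obtain ⟨ht, e1, e2⟩ := ht
        obtain ⟨ht', e1', e2'⟩ := ht'
        obtain ⟨u1, u2, u3, u4, u5⟩ := hu t ht
        obtain ⟨v1, v2, v3, v4, v5⟩ := hu t' ht'
        obtain ⟨m1, m2, m3, m4, m5, m6, m7, -⟩ := hm t ht
        obtain ⟨n1, n2, n3, n4, n5, n6, n7, -⟩ := hm t' ht'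
        rw [e1] at u3 u5
        rw [e2] at u4 u5
        rw [e1'] at v3 v5
        rw [e2'] at v4 v5
        obtain ⟨c1, c2⟩ := hc
        have hi : t.1 = t'.1 := by
          by_contra hne
          rcases lt_or_gt_of_ne hne with d | d
          · have : x (t.1 + 1) ≤ x t'.1 := by
              rcases (Nat.succ_le_of_lt d).eq_or_lt with d2 | d2
              · exact (congrArg x d2).le
              · exact (hx _ _ d2 (by omega)).le
            linarith only [u2, v1, c1, this]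
          · have : x (t'.1 + 1) ≤ x t.1 := by
              rcases (Nat.succ_le_of_lt d).eq_or_lt with d2 | d2
              · exact (congrArg x d2).le
              · exact (hx _ _ d2 (by omega)).le
            linarith only [u1, v2, c1, this]
        have s1 := Ht_side (b := b γ) t.2.1.1.2 u3
        have s2 := Ht_side (b := b γ) t'.2.1.1.2 v3
        have s3 := Ht_side (b := b γ') t.2.2.1.2 u4
        have s4 := Ht_side (b := b γ') t'.2.2.1.2 v4
        rw [c2, ← s2] at s1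
        rw [← u5, c2, v5, ← s4] at s3
        have f1 := arcs_unique m1 n1 (Prod.ext (e1.trans e1'.symm) (Bool.eq_iff_iff.mpr s1))
          m3 m4 (hi ▸ n3) (hi ▸ n4)
        have f2 := arcs_unique m2 n2 (Prod.ext (e2.trans e2'.symm) (Bool.eq_iff_iff.mpr s3))
          m5 m6 (hi ▸ n5) (hi ▸ n6)
        exact Prod.ext hi (Prod.ext f1 f2)

open Classical in
theorem circ_generic {C : Finset κ} (hx : ∀ i j, i < j → j < n → x i < x j)
    (hC : ∀ γ ∈ C, ∀ γ' ∈ C, a γ = a γ' → b γ = b γ' → ρ γ = ρ γ' → γ = γ')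
    (hgen : ∀ γ ∈ C, ∀ γ' ∈ C, γ ≠ γ' → ∀ k < n, ∀ v, (x k - a γ) ^ 2 + (v - b γ) ^ 2 = ρ γ →
      (x k - a γ') ^ 2 + (v - b γ') ^ 2 = ρ γ' → v = y k)
    (hM : ∀ i j, i < j → j < n → ∀ γ₁ ∈ C, ∀ γ₂ ∈ C, ∀ γ₃ ∈ C,
      (∀ γ ∈ ({γ₁, γ₂, γ₃} : Set κ), (x i - a γ) ^ 2 + (y i - b γ) ^ 2 = ρ γ ∧
        (x j - a γ) ^ 2 + (y j - b γ) ^ 2 = ρ γ) → γ₁ = γ₂ ∨ γ₁ = γ₃ ∨ γ₂ = γ₃)
    {p : ℝ} (h0 : 0 ≤ p) (h1 : p ≤ 1) :
    p ^ 2 * ∑ γ ∈ C, ((((range n).filter
        fun k => (x k - a γ) ^ 2 + (y k - b γ) ^ 2 = ρ γ).card : ℝ) - 2) ≤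
      6 * p * n + p ^ 4 * C.card ^ 2 / 2 := by
  have t := cross_double (n := n) (arcs_valid hx hgen)
    (fun e he => (mem_halfPts.mp (mem_arcs.mp he).2.2.1).1) (by
      intro e he f hf g hg a1 a2 a3 a4
      obtain ⟨e0, e1, e2, e3, -⟩ := mem_arcs.mp he
      obtain ⟨f0, f1, f2, -⟩ := mem_arcs.mp hf
      obtain ⟨g0, g1, g2, -⟩ := mem_arcs.mp hg
      rw [mem_halfPts] at e1 e2 f1 f2 g1 g2
      have aux : ∀ e ∈ arcs n x y a b ρ C, ∀ f ∈ arcs n x y a b ρ C, e.2.1 = f.2.1 →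
          e.2.2 = f.2.2 → e.1.1 = f.1.1 → e = f := by
        intro e he f hf b1 b2 b3
        obtain ⟨-, e1, -, e3, -⟩ := mem_arcs.mp he
        obtain ⟨-, f1, -⟩ := mem_arcs.mp hf
        have s1 := (mem_halfPts.mp e1).2.2
        have s2 := (mem_halfPts.mp f1).2.2
        rw [b1, b3, ← s2] at s1
        exact arcs_unique he hf (Prod.ext b3 (Bool.eq_iff_iff.mpr s1)) le_rfl e3 b1.ge (b2 ▸ e3)
      have := hM _ _ e3 e2.1 _ e0 _ f0 _ g0 (by
        intro γ hγ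
        rcases hγ with rfl | rfl | rfl
        · exact ⟨e1.2.1, e2.2.1⟩
        · rw [a1, a2]; exact ⟨f1.2.1, f2.2.1⟩
        · rw [a3, a4]; exact ⟨g1.2.1, g2.2.1⟩)
      rcases this with c | c | c
      · exact Or.inl (aux e he f hf a1 a2 c)
      · exact Or.inr (Or.inl (aux e he g hg a3 a4 c))
      · exact Or.inr (Or.inr (aux f hf g hg (a1.symm.trans a3) (a2.symm.trans a4) c))) h0 h1
  have t1 : (_ : ℝ) ≤ _ := Nat.cast_le.mpr (arcs_crN (y := y) hx hC)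
  have t2 : (_ : ℝ) ≤ _ := Nat.cast_le.mpr (card_arcs (n := n) (x := x) (y := y) (a := a) (b := b)
    (ρ := ρ) C)
  push_cast at t1 t2
  rw [sum_sub_distrib, sum_const, nsmul_eq_mul]
  have p2 : 0 ≤ p ^ 2 := by positivity
  have p4 : 0 ≤ p ^ 4 := by positivity
  nlinarith only [t, t1, p4, t2, p2, mul_le_mul_of_nonneg_left t1 p4, mul_le_mul_of_nonneg_left t2 p2]

end

end Pool.Agent.Work.MP_cbf770_co
end

-- merged part: Pool.Agent.Work.MP_cbf770_co.Generic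
section
/-!
The crossing inequality for circles in arbitrary position, and the resulting bound on rich circles.
-/

set_option autoImplicit false

namespace Pool.Agent.Work.MP_cbf770_co

open Finset

theorem exists_slope (Z : Finset (ℝ × ℝ)) :
    ∃ t : ℝ, ∀ z ∈ Z, ∀ z' ∈ Z, z.1 - t * z.2 = z'.1 - t * z'.2 → z = z' := by
  classical
  obtain ⟨t, ht⟩ := Infinite.exists_notMem_finset
    ((Z ×ˢ Z).image fun w => (w.1.1 - w.2.1) / (w.1.2 - w.2.2))
  refine ⟨t, fun z hz z' hz' h => ?_⟩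
  by_cases c : z.2 = z'.2
  · refine Prod.ext ?_ c
    rw [c] at h; linarith
  · exfalso
    refine ht (mem_image.mpr ⟨(z, z'), mem_product.mpr ⟨hz, hz'⟩, ?_⟩)
    have : z.2 - z'.2 ≠ 0 := sub_ne_zero.mpr c
    simp only
    field_simp
    linarith

theorem exists_enum {α : Type*} (T : Finset α) (hT : T.Nonempty) (f : α → ℝ)
    (hf : ∀ p ∈ T, ∀ q ∈ T, f p = f q → p = q) :
    ∃ pt : ℕ → α, (∀ k < T.card, pt k ∈ T) ∧ (∀ i j, i < j → j < T.card → f (pt i) < f (pt j)) ∧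
      ∀ p ∈ T, ∃ k < T.card, pt k = p := by
  classical
  have hc : (T.image f).card = T.card := card_image_of_injOn hf
  have hex : ∀ k, ∃ p ∈ T, ∀ h : k < T.card, f p = (T.image f).orderEmbOfFin hc ⟨k, h⟩ := by
    intro k
    by_cases h : k < T.card
    · obtain ⟨p, hp, e⟩ := mem_image.mp ((T.image f).orderEmbOfFin_mem hc ⟨k, h⟩)
      exact ⟨p, hp, fun _ => e⟩
    · obtain ⟨p, hp⟩ := hT
      exact ⟨p, hp, fun h' => absurd h' h⟩
  choose pt h1 h2 using hex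
  refine ⟨pt, fun k _ => h1 k, fun i j a b => ?_, fun p hp => ?_⟩
  · rw [h2 i (by omega), h2 j b]
    exact ((T.image f).orderEmbOfFin hc).strictMono (by simpa using a)
  · have : f p ∈ Set.range ((T.image f).orderEmbOfFin hc) := by
      rw [range_orderEmbOfFin]
      exact mem_coe.mpr (mem_image_of_mem f hp)
    obtain ⟨k, hk⟩ := this
    exact ⟨k, k.2, hf _ (h1 k) _ hp ((h2 k k.2).trans hk)⟩

section
variable {α κ : Type*} {T : Finset α} {X Y : α → ℝ} {C : Finset κ} {a b ρ : κ → ℝ}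

open Classical in
theorem circ_ineq (hinj : ∀ p ∈ T, ∀ q ∈ T, X p = X q → Y p = Y q → p = q)
    (hC : ∀ γ ∈ C, ∀ γ' ∈ C, a γ = a γ' → b γ = b γ' → ρ γ = ρ γ' → γ = γ')
    (hM : ∀ p ∈ T, ∀ q ∈ T, p ≠ q → ∀ γ₁ ∈ C, ∀ γ₂ ∈ C, ∀ γ₃ ∈ C,
      (∀ γ ∈ ({γ₁, γ₂, γ₃} : Set κ), (X p - a γ) ^ 2 + (Y p - b γ) ^ 2 = ρ γ ∧
        (X q - a γ) ^ 2 + (Y q - b γ) ^ 2 = ρ γ) → γ₁ = γ₂ ∨ γ₁ = γ₃ ∨ γ₂ = γ₃)
    {p : ℝ} (h0 : 0 ≤ p) (h1 : p ≤ 1) :
    p ^ 2 * ∑ γ ∈ C, (((T.filter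
        fun q => (X q - a γ) ^ 2 + (Y q - b γ) ^ 2 = ρ γ).card : ℝ) - 2) ≤
      6 * p * T.card + p ^ 4 * C.card ^ 2 / 2 := by
  rcases T.eq_empty_or_nonempty with rfl | hT
  · simp only [filter_empty, card_empty, Nat.cast_zero, zero_sub, sum_neg_distrib, sum_const,
      nsmul_eq_mul, mul_zero, zero_add]
    have : 0 ≤ p ^ 2 * (C.card * 2) := by positivity
    have : 0 ≤ p ^ 4 * C.card ^ 2 / 2 := by positivity
    linarith
  have hZ : ∀ w : κ × κ, ∃ Z : Finset (ℝ × ℝ), w.1 ∈ C → w.2 ∈ C → w.1 ≠ w.2 → ∀ u v,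
      (u - a w.1) ^ 2 + (v - b w.1) ^ 2 = ρ w.1 → (u - a w.2) ^ 2 + (v - b w.2) ^ 2 = ρ w.2 →
      (u, v) ∈ Z := by
    intro w
    by_cases c : w.1 ∈ C ∧ w.2 ∈ C ∧ w.1 ≠ w.2
    · obtain ⟨Z, -, hZ⟩ := two_circles (a := a w.1) (b := b w.1) (ρ := ρ w.1) (a' := a w.2)
        (b' := b w.2) (ρ' := ρ w.2) (fun h => c.2.2 (hC _ c.1 _ c.2.1 h.1 h.2.1 h.2.2))
      exact ⟨Z, fun _ _ _ => hZ⟩
    · exact ⟨∅, fun x y z => absurd ⟨x, y, z⟩ c⟩
  choose Z hZ using hZ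
  obtain ⟨t, ht⟩ := exists_slope (T.image (fun q => (X q, Y q)) ∪ (C ×ˢ C).biUnion Z)
  have mT : ∀ q ∈ T, (X q, Y q) ∈ T.image (fun q => (X q, Y q)) ∪ (C ×ˢ C).biUnion Z :=
    fun q hq => mem_union_left _ (mem_image_of_mem (fun q => (X q, Y q)) hq)
  obtain ⟨pt, p1, p2, p3⟩ := exists_enum T hT (fun q => X q - t * Y q) (by
    intro p hp q hq h
    have := ht _ (mT p hp) _ (mT q hq) h
    simp only [Prod.mk.injEq] at this
    exact hinj p hp q hq this.1 this.2)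
  have ht2 : (1 + t ^ 2) ≠ 0 := by positivity
  have on : ∀ γ u v, (u - t * v - (a γ - t * b γ)) ^ 2 + (t * u + v - (t * a γ + b γ)) ^ 2 =
      (1 + t ^ 2) * ρ γ ↔ (u - a γ) ^ 2 + (v - b γ) ^ 2 = ρ γ := by
    intro γ u v
    have : (u - t * v - (a γ - t * b γ)) ^ 2 + (t * u + v - (t * a γ + b γ)) ^ 2 =
        (1 + t ^ 2) * ((u - a γ) ^ 2 + (v - b γ) ^ 2) := by ring
    rw [this]
    exact mul_right_inj' ht2
  have key := circ_generic (n := T.card) (x := fun k => X (pt k) - t * Y (pt k))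
    (y := fun k => t * X (pt k) + Y (pt k)) (a := fun γ => a γ - t * b γ)
    (b := fun γ => t * a γ + b γ) (ρ := fun γ => (1 + t ^ 2) * ρ γ) (C := C) p2
    (by
      intro γ hγ γ' hγ' e1 e2 e3
      refine hC γ hγ γ' hγ' ?_ ?_ (mul_left_cancel₀ ht2 e3)
      · apply mul_left_cancel₀ ht2
        linear_combination e1 + t * e2
      · apply mul_left_cancel₀ ht2
        linear_combination e2 - t * e1)
    (by
      intro γ hγ γ' hγ' hne k hk v e1 e2
      obtain ⟨u0, v0, a1, a2⟩ : ∃ u0 v0 : ℝ, X (pt k) - t * Y (pt k) = u0 - t * v0 ∧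
          v = t * u0 + v0 := by
        refine ⟨(X (pt k) - t * Y (pt k) + t * v) / (1 + t ^ 2),
          (v - t * (X (pt k) - t * Y (pt k))) / (1 + t ^ 2), ?_, ?_⟩
        · field_simp; ring
        · field_simp; ring
      rw [a1, a2, on] at e1 e2
      have m := hZ (γ, γ') hγ hγ' hne u0 v0 e1 e2
      have := ht _ (mT _ (p1 k hk)) (u0, v0)
        (mem_union_right _ (mem_biUnion.mpr ⟨(γ, γ'), mem_product.mpr ⟨hγ, hγ'⟩, m⟩)) a1
      simp only [Prod.mk.injEq] at this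
      rw [a2, this.1, this.2])
    (by
      intro i j hij hj γ₁ g1 γ₂ g2 γ₃ g3 h
      refine hM _ (p1 i (by omega)) _ (p1 j hj) ?_ γ₁ g1 γ₂ g2 γ₃ g3 ?_
      · intro c
        have := p2 i j hij hj
        rw [c] at this
        exact lt_irrefl _ this
      · intro γ hγ
        have := h γ hγ
        rw [on, on] at this
        exact this) h0 h1
  refine le_trans (mul_le_mul_of_nonneg_left (sum_le_sum fun γ _ => ?_) (by positivity)) key
  refine sub_le_sub_right (Nat.cast_le.mpr ?_) _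
  refine card_le_card_of_surjOn pt ?_
  intro q hq
  simp only [coe_filter, Set.mem_ofPred_eq] at hq
  obtain ⟨k, hk, rfl⟩ := p3 q hq.1
  refine ⟨k, ?_, rfl⟩
  simp only [coe_filter, mem_range, Set.mem_ofPred_eq]
  exact ⟨hk, (on γ _ _).mpr hq.2⟩

open Classical in
theorem circ_rich (hinj : ∀ p ∈ T, ∀ q ∈ T, X p = X q → Y p = Y q → p = q)
    (hC : ∀ γ ∈ C, ∀ γ' ∈ C, a γ = a γ' → b γ = b γ' → ρ γ = ρ γ' → γ = γ')
    (hM : ∀ p ∈ T, ∀ q ∈ T, p ≠ q → ∀ γ₁ ∈ C, ∀ γ₂ ∈ C, ∀ γ₃ ∈ C,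
      (∀ γ ∈ ({γ₁, γ₂, γ₃} : Set κ), (X p - a γ) ^ 2 + (Y p - b γ) ^ 2 = ρ γ ∧
        (X q - a γ) ^ 2 + (Y q - b γ) ^ 2 = ρ γ) → γ₁ = γ₂ ∨ γ₁ = γ₃ ∨ γ₂ = γ₃)
    {τ : ℝ} (hτ : 0 < τ) :
    ∑ γ ∈ C, max (((T.filter
        fun q => (X q - a γ) ^ 2 + (Y q - b γ) ^ 2 = ρ γ).card : ℝ) - 2 - τ) 0 ≤
      18 * (T.card : ℝ) ^ 2 / τ ^ 2 + 6 * T.card := by
  set d : κ → ℝ := fun γ => ((T.filter
        fun q => (X q - a γ) ^ 2 + (Y q - b γ) ^ 2 = ρ γ).card : ℝ) with hd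
  set C' := C.filter fun γ => 0 < d γ - 2 - τ with hC'
  have hs : C' ⊆ C := filter_subset _ _
  have e1 : ∑ γ ∈ C, max (d γ - 2 - τ) 0 = ∑ γ ∈ C', (d γ - 2) - τ * C'.card := by
    rw [mul_comm, ← nsmul_eq_mul, ← sum_const, ← sum_sub_distrib, hC', sum_filter]
    refine sum_congr rfl fun γ _ => ?_
    split_ifs with c
    · exact max_eq_left c.le
    · exact max_eq_right (not_lt.mp c)
  have key := fun (p : ℝ) (h0 : 0 ≤ p) (h1 : p ≤ 1) => circ_ineq (C := C') hinj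
    (fun γ h γ' h' => hC γ (hs h) γ' (hs h'))
    (fun p hp q hq hne γ₁ g1 γ₂ g2 γ₃ g3 => hM p hp q hq hne γ₁ (hs g1) γ₂ (hs g2) γ₃ (hs g3))
    h0 h1
  change ∑ γ ∈ C, max (d γ - 2 - τ) 0 ≤ _
  rw [e1]
  change ∀ p : ℝ, 0 ≤ p → p ≤ 1 → p ^ 2 * ∑ γ ∈ C', (d γ - 2) ≤ _ at key
  set e := ∑ γ ∈ C', (d γ - 2)
  set m : ℝ := (C'.card : ℝ)
  set N : ℝ := (T.card : ℝ)
  have hm : 0 ≤ m := Nat.cast_nonneg _
  have hN : 0 ≤ N := Nat.cast_nonneg _
  have hq : 18 * N ^ 2 / τ ^ 2 = (6 * N / τ) ^ 2 / 2 := by field_simp; ring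
  rw [hq]
  set q := 6 * N / τ with hqd
  have hq0 : 0 ≤ q := by positivity
  have hq2 : 6 * N = q * τ := by rw [hqd]; field_simp
  by_cases c : m ≤ q
  · have := key 1 zero_le_one le_rfl
    nlinarith only [this, hτ, hm, c, hq0, mul_nonneg hτ.le hm]
  · push Not at c
    rcases hq0.eq_or_lt with c0 | c0
    · have N0 : T = ∅ := by
        have : N = 0 := by rw [← c0] at hq2; linarith only [hN, hq2]
        simpa [N] using this
      have : e ≤ 0 := by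
        refine sum_nonpos fun γ _ => ?_
        simp [hd, N0]
      nlinarith only [hN, this, hτ, hm, mul_nonneg hτ.le hm]
    · have mp : 0 < m := c0.trans c
      have qm : 0 < q / m := div_pos c0 mp
      have := key (q / m) qm.le ((div_le_one mp).mpr c.le)
      have h2 : (q / m) ^ 2 * e ≤ (q / m) ^ 2 * (τ * m + q ^ 2 / 2) := by
        refine this.trans (le_of_eq ?_)
        rw [mul_assoc 6, mul_comm (q / m) N, ← mul_assoc, hq2]
        field_simp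
      have h3 := le_of_mul_le_mul_left h2 (pow_pos qm 2)
      linarith only [hN, h3]

end

end Pool.Agent.Work.MP_cbf770_co
end

-- merged part: Pool.Agent.Work.MP_cbf770_co.Layer
section
/-!
Circles centred at points of the set: removal of rich centres and the layered estimate.
-/

set_option autoImplicit false

namespace Pool.Agent.Work.MP_cbf770_co

open Finset

section
variable {α : Type*} (X Y : α → ℝ)

/-- Squared distance in coordinates. -/
def D2 (a b : α) : ℝ := (X b - X a) ^ 2 + (Y b - Y a) ^ 2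

/-- No three points of `T` are equidistant from two given distinct points of `T`. -/
def NC (T : Finset α) : Prop :=
  ∀ b ∈ T, ∀ c ∈ T, b ≠ c → ∀ a₁ ∈ T, ∀ a₂ ∈ T, ∀ a₃ ∈ T, D2 X Y a₁ b = D2 X Y a₁ c →
    D2 X Y a₂ b = D2 X Y a₂ c → D2 X Y a₃ b = D2 X Y a₃ c → a₁ = a₂ ∨ a₁ = a₃ ∨ a₂ = a₃

open Classical in
/-- Number of points of `T` on the circle with centre `γ.1` and squared radius `γ.2`. -/
noncomputable def deg (T : Finset α) (γ : α × ℝ) : ℕ := (T.filter fun q => D2 X Y γ.1 q = γ.2).card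

variable {X Y}

theorem NC.mono {T T' : Finset α} (h : NC X Y T) (hs : T' ⊆ T) : NC X Y T' :=
  fun b hb c hc hne a₁ h1 a₂ h2 a₃ h3 => h b (hs hb) c (hs hc) hne a₁ (hs h1) a₂ (hs h2) a₃ (hs h3)

theorem centred_rich {T : Finset α} (hinj : ∀ p ∈ T, ∀ q ∈ T, X p = X q → Y p = Y q → p = q)
    (hnc : NC X Y T) {C : Finset (α × ℝ)} (hC : ∀ γ ∈ C, γ.1 ∈ T) {τ : ℝ} (hτ : 0 < τ) :
    ∑ γ ∈ C, max ((deg X Y T γ : ℝ) - 2 - τ) 0 ≤ 18 * (T.card : ℝ) ^ 2 / τ ^ 2 + 6 * T.card := by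
  have := circ_rich (T := T) (X := X) (Y := Y) (C := C) (a := fun γ => X γ.1) (b := fun γ => Y γ.1)
    (ρ := fun γ => γ.2) hinj
    (fun γ h γ' h' e1 e2 e3 => Prod.ext (hinj _ (hC _ h) _ (hC _ h') e1 e2) e3)
    (by
      intro p hp q hq hne γ₁ g1 γ₂ g2 γ₃ g3 h
      have a1 := h γ₁ (by simp)
      have a2 := h γ₂ (by simp)
      have a3 := h γ₃ (by simp)
      have aux : ∀ γ γ' : α × ℝ, (X p - X γ.1) ^ 2 + (Y p - Y γ.1) ^ 2 = γ.2 →
          (X p - X γ'.1) ^ 2 + (Y p - Y γ'.1) ^ 2 = γ'.2 → γ.1 = γ'.1 → γ = γ' := by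
        intro γ γ' e1 e2 e3
        exact Prod.ext e3 (by rw [← e1, ← e2, e3])
      rcases hnc p hp q hq hne _ (hC _ g1) _ (hC _ g2) _ (hC _ g3) (a1.1.trans a1.2.symm)
        (a2.1.trans a2.2.symm) (a3.1.trans a3.2.symm) with c | c | c
      · exact Or.inl (aux _ _ a1.1 a2.1 c)
      · exact Or.inr (Or.inl (aux _ _ a1.1 a3.1 c))
      · exact Or.inr (Or.inr (aux _ _ a2.1 a3.1 c))) hτ
  convert this using 6
  simp only [deg, D2]

theorem remove_rich [DecidableEq α] {P : Finset α}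
    (hinj : ∀ p ∈ P, ∀ q ∈ P, X p = X q → Y p = Y q → p = q)
    (hnc : NC X Y P) (hn : 10 ^ 12 ≤ P.card) :
    ∃ Q ⊆ P, (P \ Q).card ≤ 3000000 ∧ ∀ γ : α × ℝ, γ.1 ∈ Q → 100000 * deg X Y Q γ ≤ P.card := by
  classical
  set C := ((P ×ˢ P).image fun t => (t.1, D2 X Y t.1 t.2)).filter
    fun γ => P.card < 100000 * deg X Y P γ with hC
  have hC1 : ∀ γ ∈ C, γ.1 ∈ P := by
    intro γ hγ
    obtain ⟨t, ht, rfl⟩ := mem_image.mp (mem_filter.mp hγ).1
    exact (mem_product.mp ht).1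
  have hn' : (10 : ℝ) ^ 12 ≤ P.card := by exact_mod_cast hn
  have hpos : (0 : ℝ) < P.card := by linarith [show (0 : ℝ) < 10 ^ 12 by norm_num]
  have key := centred_rich hinj hnc hC1 (τ := P.card / 200000) (by linarith)
  have e1 : 18 * (P.card : ℝ) ^ 2 / (P.card / 200000) ^ 2 = 720000000000 := by
    field_simp; norm_num
  have e2 : C.card • ((P.card : ℝ) / 400000) ≤
      ∑ γ ∈ C, max ((deg X Y P γ : ℝ) - 2 - P.card / 200000) 0 := by
    refine card_nsmul_le_sum _ _ _ fun γ hγ => le_max_of_le_left ?_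
    have : (P.card : ℝ) < 100000 * deg X Y P γ := by exact_mod_cast (mem_filter.mp hγ).2
    linarith only [hn', this]
  rw [nsmul_eq_mul] at e2
  have e3 : (C.card : ℝ) ≤ 3000000 := by
    by_contra hc
    push Not at hc
    nlinarith only [hn', hc, key, e1, e2]
  refine ⟨P \ C.image Prod.fst, sdiff_subset, ?_, ?_⟩
  · have : (P \ (P \ C.image Prod.fst)) ⊆ C.image Prod.fst := by
      intro x hx
      simp only [mem_sdiff, not_and, not_not] at hx
      exact hx.2 hx.1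
    have e4 : C.card ≤ 3000000 := by exact_mod_cast e3
    exact (card_le_card this).trans (card_image_le.trans e4)
  · intro γ hγ
    obtain ⟨g1, g2⟩ := mem_sdiff.mp hγ
    have h1 : deg X Y (P \ C.image Prod.fst) γ ≤ deg X Y P γ :=
      card_le_card (filter_subset_filter _ sdiff_subset)
    by_contra hc
    have h2 : 0 < deg X Y P γ := by omega
    obtain ⟨q, hq⟩ := card_pos.mp h2
    obtain ⟨q1, q2⟩ := mem_filter.mp hq
    refine g2 (mem_image.mpr ⟨γ, mem_filter.mpr ⟨mem_image.mpr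
      ⟨(γ.1, q), mem_product.mpr ⟨g1, q1⟩, Prod.ext rfl q2⟩, by omega⟩, rfl⟩)

theorem sum_lin (c β : ℝ) (o : ℕ) :
    ∑ t ∈ range o, (c - 2 * β * t) = o * c - β * (o * (o - 1)) := by
  induction o with
  | zero => simp
  | succ o ih => rw [sum_range_succ, ih]; push_cast; ring

theorem sum_inv_sq {A β : ℝ} (hA : 0 < A) (hβ : 0 < β) (D : ℕ) :
    ∑ t ∈ range D, 1 / (A + β + 2 * β * t) ^ 2 ≤ 1 / (2 * β * A) - 1 / (2 * β * (A + 2 * β * D)) := by
  induction D with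
  | zero => simp
  | succ D ih =>
    rw [sum_range_succ]
    push_cast
    have hs : 0 < A + 2 * β * D := by positivity
    set s := A + 2 * β * D with hsd
    have e1 : A + β + 2 * β * D = s + β := by rw [hsd]; ring
    have e2 : A + 2 * β * (D + 1) = s + 2 * β := by rw [hsd]; ring
    rw [e1, e2]
    have e3 : 1 / (2 * β * s) - 1 / (2 * β * (s + 2 * β)) = 1 / (s * (s + 2 * β)) := by
      field_simp; ring
    have e4 : 1 / (s + β) ^ 2 ≤ 1 / (s * (s + 2 * β)) :=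
      one_div_le_one_div_of_le (by positivity) (by nlinarith only [hβ])
    linarith only [ih, e3, e4]

theorem layer_point {A β : ℝ} {o i d D : ℕ} (h1 : o + i ≤ d) (h2 : o ≤ D) :
    (o : ℝ) * i ≤ (1 + A + β) * o + (β - 1) * (o * (o - 1)) +
      ∑ t ∈ range D, max ((d : ℝ) - 2 - (A + β + 2 * β * t)) 0 := by
  have h3 : ∑ t ∈ range o, max ((d : ℝ) - 2 - (A + β + 2 * β * t)) 0 ≤
      ∑ t ∈ range D, max ((d : ℝ) - 2 - (A + β + 2 * β * t)) 0 :=
    sum_le_sum_of_subset_of_nonneg (range_subset_range.mpr h2) fun _ _ _ => le_max_right _ _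
  have h4 : ∑ t ∈ range o, (((o : ℝ) + i - 2 - A - β) - 2 * β * t) ≤
      ∑ t ∈ range o, max ((d : ℝ) - 2 - (A + β + 2 * β * t)) 0 := by
    refine sum_le_sum fun t _ => le_max_of_le_left ?_
    have : (o : ℝ) + i ≤ d := by exact_mod_cast h1
    linarith only [this]
  rw [sum_lin] at h4
  nlinarith only [h3, h4]

theorem layer_sum {T : Finset α} (hinj : ∀ p ∈ T, ∀ q ∈ T, X p = X q → Y p = Y q → p = q)
    (hnc : NC X Y T) {C : Finset (α × ℝ)} (hC : ∀ γ ∈ C, γ.1 ∈ T) {D : ℕ}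
    (hD : ∀ γ ∈ C, deg X Y T γ ≤ D) (o i : α × ℝ → ℕ) (hoi : ∀ γ ∈ C, o γ + i γ ≤ deg X Y T γ)
    {A β : ℝ} (hA : 0 < A) (hβ : 0 < β) :
    ∑ γ ∈ C, (o γ : ℝ) * i γ ≤ (1 + A + β) * ∑ γ ∈ C, (o γ : ℝ) +
      (β - 1) * ∑ γ ∈ C, (o γ : ℝ) * (o γ - 1) + 9 * (T.card : ℝ) ^ 2 / (β * A) +
      6 * D * T.card := by
  have h1 := sum_le_sum fun γ (hγ : γ ∈ C) => layer_point (A := A) (β := β) (hoi γ hγ)
    (show o γ ≤ D by have := hoi γ hγ; have := hD γ hγ; omega)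
  rw [sum_add_distrib, sum_add_distrib, ← mul_sum, ← mul_sum, sum_comm] at h1
  have h2 := sum_le_sum fun t (_ : t ∈ range D) =>
    centred_rich hinj hnc hC (τ := A + β + 2 * β * t) (by positivity)
  rw [sum_add_distrib, sum_const, card_range, nsmul_eq_mul] at h2
  have h3 : ∑ t ∈ range D, 18 * (T.card : ℝ) ^ 2 / (A + β + 2 * β * t) ^ 2 ≤
      9 * (T.card : ℝ) ^ 2 / (β * A) := by
    have e : ∑ t ∈ range D, 18 * (T.card : ℝ) ^ 2 / (A + β + 2 * β * t) ^ 2 =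
        18 * (T.card : ℝ) ^ 2 * ∑ t ∈ range D, 1 / (A + β + 2 * β * t) ^ 2 := by
      rw [mul_sum]
      exact sum_congr rfl fun t _ => by rw [mul_one_div]
    have s := sum_inv_sq hA hβ D
    have s2 : 0 ≤ 1 / (2 * β * (A + 2 * β * D)) := by positivity
    have e2 : 9 * (T.card : ℝ) ^ 2 / (β * A) = 18 * (T.card : ℝ) ^ 2 * (1 / (2 * β * A)) := by
      field_simp; ring
    rw [e, e2]
    exact mul_le_mul_of_nonneg_left (by linarith only [s, s2]) (by positivity)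
  linarith only [h1, h2, h3]

end

end Pool.Agent.Work.MP_cbf770_co
end

-- merged part: Pool.Agent.Work.MP_cbf770_co.Ultra
section
/-!
A heavy ball of a finite ultrametric space and a balanced union of its sub-balls.
-/

set_option autoImplicit false

namespace Pool.Agent.Work.MP_cbf770_co

open Finset

theorem heavy_ball {α Γ : Type*} [LinearOrder Γ] [DecidableEq α] (T : Finset α) (w : α → α → Γ)
    (hsym : ∀ a ∈ T, ∀ b ∈ T, w a b = w b a)
    (hult : ∀ a ∈ T, ∀ b ∈ T, ∀ c ∈ T, w a c ≤ max (w a b) (w b c))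
    (hdiag : ∀ a ∈ T, ∀ b ∈ T, ∀ c ∈ T, b ≠ c → w a a < w b c) (hN : 2 ≤ T.card) :
    ∃ B Y : Finset α, ∃ z : α, Y ⊆ B ∧ B ⊆ T ∧ 99 * T.card ≤ 100 * B.card ∧
      B.card ≤ 2 * Y.card ∧ 100 * Y.card ≤ 99 * T.card ∧
      ∀ a ∈ T, ∀ b ∈ T, b ∉ Y → ∀ c ∈ Y, w b c < w a c → a ∉ B ∧ w b z < w a z := by
  classical
  have ult : ∀ a ∈ T, ∀ b ∈ T, ∀ c ∈ T, ∀ r, w a b < r → w b c < r → w a c < r :=
    fun a ha b hb c hc r h1 h2 => (hult a ha b hb c hc).trans_lt (max_lt h1 h2)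
  obtain ⟨B, hB, hBmin⟩ := exists_min_image (T.powerset.filter fun S =>
    (∀ a ∈ S, ∀ b ∈ S, ∀ x ∈ T, w a x ≤ w a b → x ∈ S) ∧ 99 * T.card ≤ 100 * S.card) card
    ⟨T, by
      simp only [mem_filter, mem_powerset]
      exact ⟨Subset.rfl, fun _ _ _ _ _ hx _ => hx, by omega⟩⟩
  simp only [mem_filter, mem_powerset] at hB hBmin
  obtain ⟨BT, hball, hBc⟩ := hB
  obtain ⟨b1, hb1, b2, hb2, hb12⟩ := one_lt_card.mp (show 1 < B.card by omega)
  obtain ⟨⟨a0, b0⟩, h0, hmax⟩ := exists_max_image (B ×ˢ B) (fun t => w t.1 t.2)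
    ⟨(b1, b2), mem_product.mpr ⟨hb1, hb2⟩⟩
  obtain ⟨ha0, hb0⟩ := mem_product.mp h0
  simp only at ha0 hb0 hmax
  set r := w a0 b0 with hr
  have hle : ∀ a ∈ B, ∀ b ∈ B, w a b ≤ r := fun a ha b hb => hmax (a, b) (mem_product.mpr ⟨ha, hb⟩)
  have hd : ∀ a ∈ T, w a a < r :=
    fun a ha => (hdiag a ha b1 (BT hb1) b2 (BT hb2) hb12).trans_le (hle _ hb1 _ hb2)
  have hout : ∀ a ∈ B, ∀ x ∈ T, x ∉ B → r < w a x := by
    intro a ha x hx hxB
    have t : ∀ b ∈ B, w a b < w a x := fun b hb => not_le.mp fun h => hxB (hball a ha b hb x hx h)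
    refine ult a0 (BT ha0) a (BT ha) b0 (BT hb0) _ ?_ (t b0 hb0)
    rw [hsym a0 (BT ha0) a (BT ha)]; exact t a0 ha0
  let ch : α → Finset α := fun y => B.filter fun x => w y x < r
  have chm : ∀ y x, x ∈ ch y ↔ x ∈ B ∧ w y x < r := fun y x => mem_filter
  have hch : ∀ y ∈ B, 100 * (ch y).card < 99 * T.card := by
    intro y hy
    by_contra hc
    have h1 := hBmin (ch y) ⟨(filter_subset _ _).trans BT, ?_, not_lt.mp hc⟩
    · have h2 : ch y = B := eq_of_subset_of_card_le (filter_subset _ _) h1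
      have x1 := ((chm y a0).mp (h2.symm ▸ ha0)).2
      have x2 := ((chm y b0).mp (h2.symm ▸ hb0)).2
      rw [hsym y (BT hy) a0 (BT ha0)] at x1
      exact lt_irrefl _ (ult a0 (BT ha0) y (BT hy) b0 (BT hb0) _ x1 x2)
    · intro a ha b hb x hx h
      obtain ⟨a1, a2⟩ := (chm y a).mp ha
      obtain ⟨c1, c2⟩ := (chm y b).mp hb
      refine (chm y x).mpr ⟨hball a a1 b c1 x hx h, ult y (BT hy) a (BT a1) x hx _ a2 ?_⟩
      refine h.trans_lt (ult a (BT a1) y (BT hy) b (BT c1) _ ?_ c2)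
      rw [hsym a (BT a1) y (BT hy)]; exact a2
  obtain ⟨Y, hY, hYmin⟩ := exists_min_image (B.powerset.filter fun S =>
    (∀ y ∈ S, ∀ x ∈ B, w y x < r → x ∈ S) ∧ B.card ≤ 2 * S.card) card
    ⟨B, by
      simp only [mem_filter, mem_powerset]
      exact ⟨Subset.rfl, fun _ _ _ hx _ => hx, by omega⟩⟩
  simp only [mem_filter, mem_powerset] at hY hYmin
  obtain ⟨YB, hcl, hYc⟩ := hY
  obtain ⟨z, hz⟩ := card_pos.mp (show 0 < Y.card by omega)
  have chY : ∀ y ∈ Y, ch y ⊆ Y := fun y hy x hx => hcl y hy x ((chm y x).mp hx).1 ((chm y x).mp hx).2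
  refine ⟨B, Y, z, YB, BT, hBc, hYc, ?_, ?_⟩
  · by_cases c : Y ⊆ ch z
    · have := card_le_card c
      have := hch z (YB hz)
      omega
    · obtain ⟨y1, hy1, hy1'⟩ := not_subset.mp c
      have hdis : Disjoint (ch z) (ch y1) := by
        rw [disjoint_left]
        intro x h1 h2
        obtain ⟨a1, a2⟩ := (chm _ x).mp h1
        obtain ⟨-, c2⟩ := (chm _ x).mp h2
        refine hy1' ((chm _ _).mpr ⟨YB hy1, ult z (BT (YB hz)) x (BT a1) y1 (BT (YB hy1)) _ a2 ?_⟩)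
        rw [hsym x (BT a1) y1 (BT (YB hy1))]; exact c2
      have hsum : (ch z).card + (ch y1).card ≤ Y.card := by
        rw [← card_union_of_disjoint hdis]
        exact card_le_card (union_subset (chY z hz) (chY y1 hy1))
      obtain ⟨y, hy, hy2⟩ : ∃ y ∈ Y, 2 * (ch y).card ≤ Y.card := by
        by_cases d : 2 * (ch z).card ≤ Y.card
        · exact ⟨z, hz, d⟩
        · exact ⟨y1, hy1, by omega⟩
      have yT := BT (YB hy)
      have hpos : 0 < (ch y).card := card_pos.mpr ⟨y, (chm _ _).mpr ⟨YB hy, hd y yT⟩⟩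
      have c1 : (Y \ ch y).card = Y.card - (ch y).card := card_sdiff_of_subset (chY y hy)
      have h1 : 2 * (Y \ ch y).card < B.card := by
        by_contra hc
        have := hYmin (Y \ ch y) ⟨sdiff_subset.trans YB, ?_, not_lt.mp hc⟩
        · omega
        · intro u hu x hx h
          obtain ⟨u1, u2⟩ := mem_sdiff.mp hu
          refine mem_sdiff.mpr ⟨hcl u u1 x hx h, fun hc => u2 ((chm _ _).mpr ⟨YB u1, ?_⟩)⟩
          refine ult y yT x (BT hx) u (BT (YB u1)) _ ((chm _ _).mp hc).2 ?_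
          rw [hsym x (BT hx) u (BT (YB u1))]; exact h
      have c2 : ((B \ Y) ∪ ch y).card = B.card - Y.card + (ch y).card := by
        rw [card_union_of_disjoint, card_sdiff_of_subset YB]
        exact disjoint_left.mpr fun x h1 h2 => (mem_sdiff.mp h1).2 (chY y hy h2)
      have c3 := card_le_card YB
      have c4 := card_le_card BT
      have h2 := hYmin ((B \ Y) ∪ ch y) ⟨union_subset sdiff_subset (filter_subset _ _), ?_, by omega⟩
      · omega
      · intro u hu x hx h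
        rcases mem_union.mp hu with hu | hu
        · obtain ⟨u1, u2⟩ := mem_sdiff.mp hu
          refine mem_union_left _ (mem_sdiff.mpr ⟨hx, fun hc => u2 (hcl x hc u u1 ?_)⟩)
          rw [hsym x (BT hx) u (BT u1)]; exact h
        · obtain ⟨u1, u2⟩ := (chm _ _).mp hu
          exact mem_union_right _ ((chm _ _).mpr ⟨hx, ult y yT u (BT u1) x (BT hx) _ u2 h⟩)
  · intro a ha b hb hbY c hc h
    have cT := BT (YB hc)
    have zT := BT (YB hz)
    have h1 : r ≤ w b c := by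
      rw [hsym b hb c cT]
      by_cases d : b ∈ B
      · exact not_lt.mp fun hlt => hbY (hcl c hc b d hlt)
      · exact (hout c (YB hc) b hb d).le
    have h2 : r < w a c := h1.trans_lt h
    refine ⟨fun hc' => absurd (hle a hc' c (YB hc)) (not_le.mpr h2), ?_⟩
    have h3 : w a c ≤ w a z := by
      by_contra hc'
      exact lt_irrefl _ (ult a ha z zT c cT _ (not_le.mp hc') ((hle z (YB hz) c (YB hc)).trans_lt h2))
    exact (ult b hb c cT z zT _ h ((hle c (YB hc) z (YB hz)).trans_lt h2)).trans_le h3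

end Pool.Agent.Work.MP_cbf770_co
end

-- merged part: Pool.Agent.Work.MP_cbf770_co.Count
section
/-!
The count of isosceles triples for point sets carrying an ultrametric in which every apex is the
outer vertex of its triangle.
-/

set_option autoImplicit false

namespace Pool.Agent.Work.MP_cbf770_co

open Finset

section
variable {α : Type*} (X Y : α → ℝ)

open Classical in
/-- Ordered isosceles triples `(a, b, c)` with apex `a`. -/
noncomputable def isoT (T : Finset α) : Finset (α × α × α) :=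
  (T ×ˢ T ×ˢ T).filter fun t => t.1 ≠ t.2.1 ∧ t.1 ≠ t.2.2 ∧ t.2.1 ≠ t.2.2 ∧
    D2 X Y t.1 t.2.1 = D2 X Y t.1 t.2.2

variable {X Y}

theorem mem_isoT {T : Finset α} {t : α × α × α} : t ∈ isoT X Y T ↔
    t.1 ∈ T ∧ t.2.1 ∈ T ∧ t.2.2 ∈ T ∧ t.1 ≠ t.2.1 ∧ t.1 ≠ t.2.2 ∧ t.2.1 ≠ t.2.2 ∧
    D2 X Y t.1 t.2.1 = D2 X Y t.1 t.2.2 := by
  simp [isoT, and_assoc]

theorem apex_bound {T : Finset α} (hnc : NC X Y T) (J : Finset (α × α × α)) (S : Finset (α × α))
    (hJ : ∀ t ∈ J, t.1 ∈ T ∧ t.2.1 ∈ T ∧ t.2.2 ∈ T ∧ t.2.1 ≠ t.2.2 ∧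
      D2 X Y t.1 t.2.1 = D2 X Y t.1 t.2.2 ∧ t.2 ∈ S) : J.card ≤ 2 * S.card := by
  classical
  refine card_le_mul_card_image_of_maps_to (f := Prod.snd) (fun t ht => (hJ t ht).2.2.2.2.2) 2 ?_
  intro s _
  by_contra hc
  obtain ⟨t1, t2, t3, h1, h2, h3, n12, n13, n23⟩ := two_lt_card_iff.mp (not_le.mp hc)
  obtain ⟨h1, e1⟩ := mem_filter.mp h1
  obtain ⟨h2, e2⟩ := mem_filter.mp h2
  obtain ⟨h3, e3⟩ := mem_filter.mp h3
  obtain ⟨a1, a2, a3, a4, a5, -⟩ := hJ _ h1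
  obtain ⟨b1, -, -, -, b5, -⟩ := hJ _ h2
  obtain ⟨c1, -, -, -, c5, -⟩ := hJ _ h3
  rw [e2, ← e1] at b5
  rw [e3, ← e1] at c5
  rcases hnc _ a2 _ a3 a4 _ a1 _ b1 _ c1 a5 b5 c5 with c | c | c
  · exact n12 (Prod.ext c (e1.trans e2.symm))
  · exact n13 (Prod.ext c (e1.trans e3.symm))
  · exact n23 (Prod.ext c (e2.trans e3.symm))

theorem half_pairs {Γ : Type*} [LinearOrder Γ] (O : Finset α) (f : α → Γ) :
    2 * ((O ×ˢ O).filter fun t => f t.2 < f t.1).card ≤ O.card * O.card := by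
  classical
  have h12 : ((O ×ˢ O).filter fun t => f t.2 < f t.1).card ≤
      ((O ×ˢ O).filter fun t => f t.1 < f t.2).card := by
    refine card_le_card_of_injOn Prod.swap ?_ (Prod.swap_injective.injOn)
    intro t ht
    simp only [coe_filter, mem_product, Set.mem_ofPred_eq, Prod.fst_swap, Prod.snd_swap] at ht ⊢
    exact ⟨ht.1.symm, ht.2⟩
  have hdis : ((O ×ˢ O).filter fun t => f t.2 < f t.1).card +
      ((O ×ˢ O).filter fun t => f t.1 < f t.2).card ≤ (O ×ˢ O).card := by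
    rw [← card_union_of_disjoint]
    · exact card_le_card (union_subset (filter_subset _ _) (filter_subset _ _))
    · rw [disjoint_filter]
      intro t _ a b
      exact lt_asymm a b
  rw [card_product] at hdis
  omega

theorem cross_bound [DecidableEq α] {Γ : Type*} [LinearOrder Γ] {T B Z : Finset α} (f : α → Γ)
    (hinj : ∀ p ∈ T, ∀ q ∈ T, X p = X q → Y p = Y q → p = q) (hnc : NC X Y T)
    (hZB : Z ⊆ B) (hBT : B ⊆ T) {D : ℕ} (hD : ∀ γ : α × ℝ, γ.1 ∈ T → deg X Y T γ ≤ D)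
    (J : Finset (α × α × α))
    (hJ : ∀ t ∈ J, t ∈ isoT X Y T ∧ t.2.1 ∉ Z ∧ t.2.2 ∈ Z ∧ t.1 ∉ B ∧ f t.2.1 < f t.1)
    {A β : ℝ} (hA : 0 < A) (hβ : 1 ≤ β) :
    (J.card : ℝ) ≤ (1 + A + β) * (((T \ B).card : ℝ) * (T \ Z).card - ((T \ B).card : ℝ) ^ 2 / 2) +
      (β - 1) * (2 * ((T \ Z).card : ℝ) ^ 2) + 9 * (T.card : ℝ) ^ 2 / (β * A) +
      6 * D * T.card := by
  classical
  set C := ((T \ B) ×ˢ T).image fun t => (t.1, D2 X Y t.1 t.2) with hC
  have hC1 : ∀ γ ∈ C, γ.1 ∈ T \ B := by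
    intro γ hγ
    obtain ⟨t, ht, rfl⟩ := mem_image.mp hγ
    exact (mem_product.mp ht).1
  let Of : α × ℝ → Finset α := fun γ => (T \ Z).filter fun b => f b < f γ.1 ∧ D2 X Y γ.1 b = γ.2
  let If : α × ℝ → Finset α := fun γ => Z.filter fun c => D2 X Y γ.1 c = γ.2
  have mO : ∀ γ b, b ∈ Of γ ↔ (b ∈ T ∧ b ∉ Z) ∧ f b < f γ.1 ∧ D2 X Y γ.1 b = γ.2 := by
    intro γ b; simp [Of]
  have mI : ∀ γ b, b ∈ If γ ↔ b ∈ Z ∧ D2 X Y γ.1 b = γ.2 := by
    intro γ b; simp [If]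
  have key := layer_sum hinj hnc (C := C) (fun γ hγ => (mem_sdiff.mp (hC1 γ hγ)).1)
    (fun γ hγ => hD γ (mem_sdiff.mp (hC1 γ hγ)).1) (fun γ => (Of γ).card) (fun γ => (If γ).card)
    (by
      intro γ _
      rw [← card_union_of_disjoint]
      · refine card_le_card fun x hx => ?_
        rcases mem_union.mp hx with hx | hx
        · exact mem_filter.mpr ⟨((mO _ _).mp hx).1.1, ((mO _ _).mp hx).2.2⟩
        · exact mem_filter.mpr ⟨hBT (hZB ((mI _ _).mp hx).1), ((mI _ _).mp hx).2⟩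
      · exact disjoint_left.mpr fun x h1 h2 => ((mO _ _).mp h1).1.2 ((mI _ _).mp h2).1)
    hA (show 0 < β by linarith)
  have h1 : J.card ≤ ∑ γ ∈ C, (Of γ).card * (If γ).card := by
    simp_rw [← card_product]
    rw [← card_sigma]
    refine card_le_card_of_injOn (fun t => ⟨(t.1, D2 X Y t.1 t.2.1), t.2⟩) ?_ ?_
    · intro t ht
      obtain ⟨j1, j2, j3, j4, j5⟩ := hJ t ht
      obtain ⟨i1, i2, i3, -, -, -, i7⟩ := mem_isoT.mp j1
      simp only [coe_sigma, Set.mem_sigma_iff, mem_coe, mem_product, mO, mI]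
      exact ⟨mem_image.mpr ⟨(t.1, t.2.1), mem_product.mpr ⟨mem_sdiff.mpr ⟨i1, j4⟩, i2⟩, rfl⟩,
        ⟨⟨i2, j2⟩, j5, trivial⟩, j3, i7.symm⟩
    · intro t _ t' _ h
      simp only [Sigma.mk.injEq, Prod.mk.injEq, heq_eq_eq] at h
      exact Prod.ext h.1.1 h.2
  have h2 : 2 * ∑ γ ∈ C, (Of γ).card ≤
      2 * ((T \ B).card * (B \ Z).card) + (T \ B).card * (T \ B).card := by
    have := half_pairs (T \ B) f
    have h3 : ∑ γ ∈ C, (Of γ).card ≤ (((T \ B) ×ˢ (B \ Z)) ∪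
        (((T \ B) ×ˢ (T \ B)).filter fun t => f t.2 < f t.1)).card := by
      rw [← card_sigma]
      refine card_le_card_of_injOn (fun s => (s.1.1, s.2)) ?_ ?_
      · intro s hs
        simp only [coe_sigma, Set.mem_sigma_iff, mem_coe, mO] at hs
        obtain ⟨s1, ⟨s2, s3⟩, s4, -⟩ := hs
        simp only [coe_union, Set.mem_union, mem_coe, mem_product, mem_filter]
        by_cases c : s.2 ∈ B
        · exact Or.inl ⟨hC1 _ s1, mem_sdiff.mpr ⟨c, s3⟩⟩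
        · exact Or.inr ⟨⟨hC1 _ s1, mem_sdiff.mpr ⟨s2, c⟩⟩, s4⟩
      · rintro ⟨⟨a, r⟩, b⟩ hs ⟨⟨a', r'⟩, b'⟩ hs' h
        simp only [coe_sigma, Set.mem_sigma_iff, mem_coe, mO, Prod.mk.injEq] at hs hs' h
        obtain ⟨rfl, rfl⟩ := h
        rw [← hs.2.2.2, ← hs'.2.2.2]
    have h4 := card_union_le ((T \ B) ×ˢ (B \ Z))
      (((T \ B) ×ˢ (T \ B)).filter fun t => f t.2 < f t.1)
    rw [card_product] at h4
    omega
  have h3 : ∑ γ ∈ C, (Of γ).offDiag.card ≤ 2 * ((T \ Z) ×ˢ (T \ Z)).card := by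
    rw [← card_sigma, ← card_image_of_injOn (f := fun s : (_ : α × ℝ) × (α × α) => (s.1.1, s.2))]
    · refine apex_bound hnc _ _ ?_
      intro t ht
      obtain ⟨s, hs, rfl⟩ := mem_image.mp ht
      simp only [mem_sigma, mem_offDiag, mO] at hs
      obtain ⟨s1, ⟨s2, -, s3⟩, ⟨s4, -, s5⟩, s6⟩ := hs
      exact ⟨(mem_sdiff.mp (hC1 _ s1)).1, s2.1, s4.1, s6, s3.trans s5.symm,
        mem_product.mpr ⟨mem_sdiff.mpr s2, mem_sdiff.mpr s4⟩⟩
    · rintro ⟨⟨a, r⟩, b⟩ hs ⟨⟨a', r'⟩, b'⟩ hs' h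
      simp only [coe_sigma, Set.mem_sigma_iff, mem_coe, mem_offDiag, mO, Prod.mk.injEq] at hs hs' h
      obtain ⟨rfl, rfl⟩ := h
      rw [← hs.2.1.2.2, ← hs'.2.1.2.2]
  have h4 : (T \ Z).card = (T \ B).card + (B \ Z).card := by
    rw [card_sdiff_of_subset hZB, card_sdiff_of_subset hBT, card_sdiff_of_subset (hZB.trans hBT)]
    have := card_le_card hZB
    have := card_le_card hBT
    omega
  have h1' : (J.card : ℝ) ≤ ∑ γ ∈ C, ((Of γ).card : ℝ) * (If γ).card := by exact_mod_cast h1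
  have h2' : 2 * ∑ γ ∈ C, ((Of γ).card : ℝ) ≤
      2 * ((T \ B).card * (B \ Z).card) + (T \ B).card * (T \ B).card := by exact_mod_cast h2
  have h3' : ∑ γ ∈ C, ((Of γ).card : ℝ) * ((Of γ).card - 1) ≤ 2 * ((T \ Z).card : ℝ) ^ 2 := by
    rw [card_product] at h3
    have : ∑ γ ∈ C, ((Of γ).card : ℝ) * ((Of γ).card - 1) =
        ((∑ γ ∈ C, (Of γ).offDiag.card : ℕ) : ℝ) := by
      push_cast
      refine sum_congr rfl fun γ _ => ?_
      rw [offDiag_card, Nat.cast_sub (Nat.le_mul_self _)]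
      push_cast; ring
    rw [this, sq]
    exact_mod_cast h3
  have h4' : ((T \ Z).card : ℝ) = (T \ B).card + (B \ Z).card := by exact_mod_cast h4
  have t1 := mul_le_mul_of_nonneg_left h3' (show 0 ≤ β - 1 by linarith only [hβ])
  have t2 : ∑ γ ∈ C, ((Of γ).card : ℝ) ≤
      ((T \ B).card : ℝ) * (T \ Z).card - ((T \ B).card : ℝ) ^ 2 / 2 := by
    rw [h4']; nlinarith only [h2']
  have t3 := mul_le_mul_of_nonneg_left t2 (show 0 ≤ 1 + A + β by linarith only [hA, hβ])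
  linarith only [key, h1', t1, t3]

theorem arith {N u y J E : ℝ} (hN : 0 < N) (hy : 100 * y ≤ N) (hu : N ≤ 100 * u)
    (hu2 : 2 * u ≤ N + y) (hE : 10000 * E ≤ N ^ 2)
    (hJ : ∀ A β : ℝ, 0 < A → 1 ≤ β → J ≤ (1 + A + β) * (y * u - y ^ 2 / 2) +
      (β - 1) * (2 * u ^ 2) + 9 * N ^ 2 / (β * A) + E) :
    J ≤ 2 * u * (N - u) - N ^ 2 / 200 := by
  have hM : y * u - y ^ 2 / 2 ≤ N / 100 * u - (N / 100) ^ 2 / 2 := by
    nlinarith only [hy, hu, mul_nonneg (show 0 ≤ N / 100 - y by linarith) (show 0 ≤ u - (N / 100 + y) / 2 by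
      linarith)]
  by_cases c1 : u ≤ N * (2 / 100)
  · have := hJ 86 16 (by norm_num) (by norm_num)
    nlinarith only [hE, hM, this, hu, c1, hN, mul_nonneg (show 0 ≤ u - N / 100 by linarith only [hu]) (show 0 ≤ N * (2 / 100) - u by linarith only [c1]),
      mul_nonneg hN.le (show 0 ≤ u - N / 100 by linarith only [hu]),
      mul_nonneg hN.le (show 0 ≤ N * (2 / 100) - u by linarith only [c1])]
  by_cases c2 : u ≤ N * (6 / 100)
  · have := hJ 80 7 (by norm_num) (by norm_num)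
    nlinarith only [hE, hM, this, c1, c2, mul_nonneg (show 0 ≤ u - N * (2 / 100) by linarith only [c1])
      (show 0 ≤ N * (6 / 100) - u by linarith only [c2]),
      mul_nonneg hN.le (show 0 ≤ u - N * (2 / 100) by linarith only [c1]),
      mul_nonneg hN.le (show 0 ≤ N * (6 / 100) - u by linarith only [c2])]
  by_cases c3 : u ≤ N * (19 / 100)
  · have := hJ 46 3 (by norm_num) (by norm_num)
    nlinarith only [hE, hM, this, c2, c3, mul_nonneg (show 0 ≤ u - N * (6 / 100) by linarith only [c2])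
      (show 0 ≤ N * (19 / 100) - u by linarith only [c3]),
      mul_nonneg hN.le (show 0 ≤ u - N * (6 / 100) by linarith only [c2]),
      mul_nonneg hN.le (show 0 ≤ N * (19 / 100) - u by linarith only [c3])]
  · have := hJ 40 1 (by norm_num) (by norm_num)
    nlinarith only [hE, hM, this, c3, hy, hu2, hN, mul_nonneg (show 0 ≤ u - N * (19 / 100) by linarith only [c3])
      (show 0 ≤ N * (505 / 1000) - u by linarith only [hy, hu2]),
      mul_nonneg hN.le (show 0 ≤ u - N * (19 / 100) by linarith only [c3]),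
      mul_nonneg hN.le (show 0 ≤ N * (505 / 1000) - u by linarith only [hy, hu2])]

theorem count_poor [DecidableEq α] {Γ : Type*} [LinearOrder Γ] {T : Finset α} (w : α → α → Γ)
    (hinj : ∀ p ∈ T, ∀ q ∈ T, X p = X q → Y p = Y q → p = q) (hnc : NC X Y T)
    (hsym : ∀ a ∈ T, ∀ b ∈ T, w a b = w b a)
    (hult : ∀ a ∈ T, ∀ b ∈ T, ∀ c ∈ T, w a c ≤ max (w a b) (w b c))
    (hdiag : ∀ a ∈ T, ∀ b ∈ T, ∀ c ∈ T, b ≠ c → w a a < w b c)
    (hap : ∀ t ∈ isoT X Y T, w t.2.1 t.2.2 < w t.1 t.2.2) (hN : 2 ≤ T.card)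
    {D : ℕ} (hD : ∀ γ : α × ℝ, γ.1 ∈ T → deg X Y T γ ≤ D) (hDN : 60000 * D ≤ T.card) :
    ((isoT X Y T).card : ℝ) ≤ 199 / 100 * (T.card : ℝ) ^ 2 - 2 * T.card := by
  classical
  obtain ⟨B, Z, z, hZB, hBT, h1, h2, h3, h4⟩ := heavy_ball T w hsym hult hdiag hN
  set J1 := (isoT X Y T).filter fun t => t.2.1 ∉ Z ∧ t.2.2 ∈ Z with hJ1
  set J2 := (isoT X Y T).filter fun t => t.2.1 ∈ Z ∧ t.2.2 ∉ Z with hJ2
  set J0 := (isoT X Y T).filter fun t => (t.2.1 ∈ Z ↔ t.2.2 ∈ Z) with hJ0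
  have e0 : (isoT X Y T).card ≤ J0.card + J1.card + J2.card := by
    refine le_trans (card_le_card ?_) ((card_union_le _ _).trans
      (Nat.add_le_add_right (card_union_le _ _) _))
    intro t ht
    simp only [hJ0, hJ1, hJ2, mem_union, mem_filter, ht, true_and]
    tauto
  have e1 : J2.card ≤ J1.card := by
    refine card_le_card_of_injOn (fun t => (t.1, t.2.2, t.2.1)) ?_ ?_
    · intro t ht
      simp only [hJ1, hJ2, coe_filter, Set.mem_ofPred_eq, mem_isoT] at ht ⊢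
      obtain ⟨⟨a1, a2, a3, a4, a5, a6, a7⟩, a8, a9⟩ := ht
      exact ⟨⟨a1, a3, a2, a5, a4, a6.symm, a7.symm⟩, a9, a8⟩
    · intro t _ t' _ h
      simp only [Prod.mk.injEq] at h
      exact Prod.ext h.1 (Prod.ext h.2.2 h.2.1)
  have e2 : J0.card ≤ 2 * (Z.offDiag ∪ (T \ Z).offDiag).card := by
    refine apex_bound hnc _ _ fun t ht => ?_
    obtain ⟨a, b⟩ := mem_filter.mp ht
    obtain ⟨a1, a2, a3, -, -, a6, a7⟩ := mem_isoT.mp a
    refine ⟨a1, a2, a3, a6, a7, ?_⟩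
    simp only [mem_union, mem_offDiag, mem_sdiff]
    tauto
  have e3 := card_union_le Z.offDiag (T \ Z).offDiag
  have c1 : (T \ Z).card + Z.card = T.card := card_sdiff_add_card_eq_card (hZB.trans hBT)
  have c2 : (T \ B).card + B.card = T.card := card_sdiff_add_card_eq_card hBT
  have key := arith (N := T.card) (u := (T \ Z).card) (y := (T \ B).card) (J := J1.card)
    (E := 6 * D * T.card) (by positivity) (by exact_mod_cast (by omega))
    (by exact_mod_cast (by omega)) (by exact_mod_cast (by omega))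
    (by
      have : (60000 : ℝ) * D ≤ T.card := by exact_mod_cast hDN
      have : (0 : ℝ) ≤ T.card := Nat.cast_nonneg _
      nlinarith)
    (fun A β hA hβ => cross_bound (fun a => w a z) hinj hnc hZB hBT hD J1 (by
      intro t ht
      obtain ⟨a, b1, b2⟩ := mem_filter.mp ht
      obtain ⟨a1, a2, -⟩ := mem_isoT.mp a
      exact ⟨a, b1, b2, h4 _ a1 _ a2 b1 _ b2 (hap t a)⟩) hA hβ)
  have o1 : (Z.offDiag.card : ℝ) = Z.card * Z.card - Z.card := by
    rw [offDiag_card, Nat.cast_sub (Nat.le_mul_self _)]; push_cast; ring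
  have o2 : ((T \ Z).offDiag.card : ℝ) = (T \ Z).card * (T \ Z).card - (T \ Z).card := by
    rw [offDiag_card, Nat.cast_sub (Nat.le_mul_self _)]; push_cast; ring
  have f1 : ((isoT X Y T).card : ℝ) ≤ 2 * (Z.offDiag.card + (T \ Z).offDiag.card) + 2 * J1.card := by
    exact_mod_cast (by omega)
  have f2 : (Z.card : ℝ) = T.card - (T \ Z).card := by
    rw [← c1]; push_cast; ring
  rw [o1, o2, f2] at f1
  nlinarith only [key, f1]

theorem count_main [DecidableEq α] {Γ : Type*} [LinearOrder Γ] {P : Finset α} (w : α → α → Γ)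
    (hinj : ∀ p ∈ P, ∀ q ∈ P, X p = X q → Y p = Y q → p = q) (hnc : NC X Y P)
    (hsym : ∀ a ∈ P, ∀ b ∈ P, w a b = w b a)
    (hult : ∀ a ∈ P, ∀ b ∈ P, ∀ c ∈ P, w a c ≤ max (w a b) (w b c))
    (hdiag : ∀ a ∈ P, ∀ b ∈ P, ∀ c ∈ P, b ≠ c → w a a < w b c)
    (hap : ∀ t ∈ isoT X Y P, w t.2.1 t.2.2 < w t.1 t.2.2) :
    ∃ Q ⊆ P, (P \ Q).card ≤ 10 ^ 12 ∧
      ((isoT X Y Q).card : ℝ) ≤ 199 / 100 * ((P.card : ℝ) * (P.card - 1)) := by
  by_cases hn : 10 ^ 12 ≤ P.card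
  · obtain ⟨Q, hQ, h1, h2⟩ := remove_rich hinj hnc hn
    have c1 : (P \ Q).card + Q.card = P.card := card_sdiff_add_card_eq_card hQ
    refine ⟨Q, hQ, by omega, ?_⟩
    have := count_poor (T := Q) w (fun p hp q hq => hinj p (hQ hp) q (hQ hq)) (hnc.mono hQ)
      (fun a ha b hb => hsym a (hQ ha) b (hQ hb))
      (fun a ha b hb c hc => hult a (hQ ha) b (hQ hb) c (hQ hc))
      (fun a ha b hb c hc => hdiag a (hQ ha) b (hQ hb) c (hQ hc))
      (fun t ht => hap t (by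
        rw [mem_isoT] at ht ⊢
        exact ⟨hQ ht.1, hQ ht.2.1, hQ ht.2.2.1, ht.2.2.2⟩)) (by omega)
      (D := P.card / 100000) (fun γ hγ => by have := h2 γ hγ; omega) (by omega)
    have a1 : (Q.card : ℝ) ≤ P.card := by exact_mod_cast card_le_card hQ
    have a2 : (1 : ℝ) ≤ Q.card := by exact_mod_cast (by omega)
    nlinarith only [this, a2, a1]
  · refine ⟨∅, empty_subset _, by simp only [sdiff_empty]; omega, ?_⟩
    have : (0 : ℝ) ≤ (P.card : ℝ) * (P.card - 1) := by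
      rcases Nat.eq_zero_or_pos P.card with h | h
      · simp [h]
      · have : (1 : ℝ) ≤ P.card := by exact_mod_cast h
        positivity
    simp only [isoT, empty_product, filter_empty, card_empty, Nat.cast_zero]
    linarith only [this]

end

end Pool.Agent.Work.MP_cbf770_co
end

-- merged part: Pool.Agent.Work.MP_cbf770_co.Plane
section
/-!
Transfer to the Euclidean plane, and the two sources of ultrametrics.
-/

set_option autoImplicit false

namespace Pool.Agent.Work.MP_cbf770_co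

open Finset

section val
variable {K Γ : Type*} [Field K] [LinearOrderedCommGroupWithZero Γ] (v : Valuation K Γ)

theorem val_sq_le (h2 : v 2 < 1) (hns : ∀ x, v x ^ 2 ≠ v 2) (x y : K) :
    v 2 * v x ^ 2 ≤ v (x ^ 2 + y ^ 2) := by
  have a : v 2 * v x ^ 2 ≤ v x ^ 2 := mul_le_of_le_one_left' h2.le
  by_cases c : v x = v y
  · by_cases hx : x = 0
    · simp [hx]
    · have e : x ^ 2 + y ^ 2 = (x - y) ^ 2 + 2 * x * y := by ring
      have e2 : v (2 * x * y) = v 2 * v x ^ 2 := by rw [map_mul, map_mul, ← c, mul_assoc, sq]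
      have hne : v ((x - y) ^ 2) ≠ v (2 * x * y) := by
        intro h
        apply hns ((x - y) / x)
        have hv : v x ≠ 0 := by simpa using hx
        rw [map_div₀, div_pow, ← map_pow, h, e2, mul_div_assoc, div_self (pow_ne_zero 2 hv), mul_one]
      rw [e, v.map_add_of_distinct_val hne, e2]
      exact le_max_right _ _
  · have hne : v (x ^ 2) ≠ v (y ^ 2) := by
      rw [map_pow, map_pow]
      exact fun h => c ((pow_left_inj₀ zero_le zero_le two_ne_zero).mp h)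
    rw [v.map_add_of_distinct_val hne, map_pow]
    exact a.trans (le_max_left _ _)

theorem val_dot (h2 : v 2 < 1) (hns : ∀ x, v x ^ 2 ≠ v 2) (x y x' y' : K) :
    v (2 * (x * x' + y * y')) ^ 2 ≤ v 2 * (v (x ^ 2 + y ^ 2) * v (x' ^ 2 + y' ^ 2)) := by
  have a := val_sq_le v h2 hns (x * x' + y * y') (x * y' - y * x')
  have e : (x * x' + y * y') ^ 2 + (x * y' - y * x') ^ 2 = (x ^ 2 + y ^ 2) * (x' ^ 2 + y' ^ 2) := by
    ring
  rw [e, map_mul] at a
  rw [map_mul, mul_pow, sq (v 2), mul_assoc]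
  exact mul_le_mul_right a _

theorem val_ultra (h2 : v 2 < 1) (hns : ∀ x, v x ^ 2 ≠ v 2) (x y x' y' : K) :
    v ((x + x') ^ 2 + (y + y') ^ 2) ≤ max (v (x ^ 2 + y ^ 2)) (v (x' ^ 2 + y' ^ 2)) := by
  have e : (x + x') ^ 2 + (y + y') ^ 2 =
      (x ^ 2 + y ^ 2) + (x' ^ 2 + y' ^ 2) + 2 * (x * x' + y * y') := by ring
  rw [e]
  refine v.map_add_le (v.map_add _ _) ?_
  refine le_of_pow_le_pow_left₀ two_ne_zero zero_le ((val_dot v h2 hns x y x' y').trans ?_)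
  refine (mul_le_of_le_one_left' h2.le).trans ?_
  rw [sq (max _ _)]
  exact mul_le_mul' (le_max_left _ _) (le_max_right _ _)

theorem val_apex (h2 : v 2 < 1) (hns : ∀ x, v x ^ 2 ≠ v 2) {x y x' y' : K}
    (h : x ^ 2 + y ^ 2 = x' ^ 2 + y' ^ 2) (h0 : x' ^ 2 + y' ^ 2 ≠ 0) :
    v ((x' - x) ^ 2 + (y' - y) ^ 2) < v (x' ^ 2 + y' ^ 2) := by
  have e : (x' - x) ^ 2 + (y' - y) ^ 2 = 2 * (x' ^ 2 + y' ^ 2) - 2 * (x * x' + y * y') := by
    linear_combination h
  have p : 0 < v (x' ^ 2 + y' ^ 2) := by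
    rw [zero_lt_iff]; simpa using h0
  rw [e]
  refine v.map_sub_lt ?_ ?_
  · rw [map_mul]; exact mul_lt_of_lt_one_left p h2
  · refine lt_of_pow_lt_pow_left₀ 2 zero_le ((val_dot v h2 hns x y x' y').trans_lt ?_)
    rw [h, sq (v _)]
    exact mul_lt_of_lt_one_left (mul_pos p p) h2

end val

theorem rat_ns (x : ℚ) : Rat.padicValuation 2 x ^ 2 ≠ Rat.padicValuation 2 2 := by
  have h2 : Rat.padicValuation 2 2 = WithZero.exp (-1) := by
    simpa using Rat.padicValuation_self 2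
  rw [h2]
  intro h
  have hx : Rat.padicValuation 2 x ≠ 0 := by
    intro c
    rw [c] at h
    simp at h
    exact WithZero.exp_ne_zero h.symm
  rw [← WithZero.exp_log hx, ← WithZero.exp_nsmul, WithZero.exp_inj] at h
  simp only [nsmul_eq_mul] at h
  omega

theorem rat_two : Rat.padicValuation 2 2 < 1 := by
  have h2 : Rat.padicValuation 2 2 = WithZero.exp (-1) := by
    simpa using Rat.padicValuation_self 2
  rw [h2, ← WithZero.exp_zero, WithZero.exp_lt_exp]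
  norm_num

theorem dist_eq_iff (a b c : EuclideanSpace ℝ (Fin 2)) :
    dist a b = dist a c ↔ D2 (fun p => p 0) (fun p => p 1) a b = D2 (fun p => p 0) (fun p => p 1) a c := by
  rw [EuclideanSpace.dist_eq, EuclideanSpace.dist_eq, Real.sqrt_inj (by positivity) (by positivity)]
  simp only [Fin.sum_univ_two, Real.dist_eq, sq_abs, D2]
  constructor <;> intro h <;> linarith only [h]

theorem plane_ext {p q : EuclideanSpace ℝ (Fin 2)} (h0 : p 0 = q 0) (h1 : p 1 = q 1) : p = q := by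
  ext i
  fin_cases i
  · exact h0
  · exact h1

theorem nc_of_collinear {P : Finset (EuclideanSpace ℝ (Fin 2))}
    (h : ∀ a ∈ P, ∀ b ∈ P, ∀ c ∈ P, a ≠ b → a ≠ c → b ≠ c → ¬ Collinear ℝ {a, b, c}) :
    NC (fun p => p 0) (fun p => p 1) P := by
  intro b _ c _ hbc a₁ h1 a₂ h2 a₃ h3 e1 e2 e3
  by_contra hc
  push Not at hc
  refine h a₁ h1 a₂ h2 a₃ h3 hc.1 hc.2.1 hc.2.2 ?_
  simp only [D2] at e1 e2 e3
  have hd : (c 0 - b 0) ^ 2 + (c 1 - b 1) ^ 2 ≠ 0 := by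
    intro h
    apply hbc
    have x1 : c 0 - b 0 = 0 := by nlinarith only [h, sq_nonneg (c 0 - b 0), sq_nonneg (c 1 - b 1)]
    have x2 : c 1 - b 1 = 0 := by nlinarith only [h, sq_nonneg (c 0 - b 0), sq_nonneg (c 1 - b 1)]
    exact plane_ext (by linarith) (by linarith)
  rw [collinear_iff_of_mem (p₀ := a₁) (by simp)]
  refine ⟨!₂[-(c 1 - b 1), c 0 - b 0], ?_⟩
  have aux : ∀ a : EuclideanSpace ℝ (Fin 2), (b 0 - a 0) ^ 2 + (b 1 - a 1) ^ 2 =
      (c 0 - a 0) ^ 2 + (c 1 - a 1) ^ 2 →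
      ∃ r : ℝ, a = r • (!₂[-(c 1 - b 1), c 0 - b 0] : EuclideanSpace ℝ (Fin 2)) +ᵥ a₁ := by
    intro a e
    refine ⟨((a 1 - a₁ 1) * (c 0 - b 0) - (a 0 - a₁ 0) * (c 1 - b 1)) /
      ((c 0 - b 0) ^ 2 + (c 1 - b 1) ^ 2), plane_ext ?_ ?_⟩
    · simp only [vadd_eq_add, PiLp.add_apply, PiLp.smul_apply, Matrix.cons_val_zero, smul_eq_mul]
      field_simp
      linear_combination (c 0 - b 0) / 2 * (e - e1)
    · simp only [vadd_eq_add, PiLp.add_apply, PiLp.smul_apply, Matrix.cons_val_one,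
        Matrix.cons_val_zero, smul_eq_mul]
      field_simp
      linear_combination (c 1 - b 1) / 2 * (e - e1)
  intro p hp
  rcases hp with rfl | rfl | rfl
  · exact aux _ e1
  · exact aux _ e2
  · exact aux _ e3

theorem finish {P Q : Finset (EuclideanSpace ℝ (Fin 2))}
    (h : ((isoT (fun p => p 0) (fun p => p 1) Q).card : ℝ) ≤
      199 / 100 * ((P.card : ℝ) * (P.card - 1))) :
    (({T : Finset (EuclideanSpace ℝ (Fin 2)) | T ⊆ Q ∧ T.card = 3 ∧
        ∃ a ∈ T, ∃ b ∈ T, ∃ c ∈ T, a ≠ b ∧ a ≠ c ∧ b ≠ c ∧ dist a b = dist a c}.ncard : ℕ) : ℝ)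
      ≤ (1.99 : ℝ) * ((P.card.choose 2 : ℕ) : ℝ) := by
  classical
  set J := isoT (fun p => p 0) (fun p => p 1) Q with hJ
  let f : EuclideanSpace ℝ (Fin 2) × EuclideanSpace ℝ (Fin 2) × EuclideanSpace ℝ (Fin 2) →
    Finset (EuclideanSpace ℝ (Fin 2)) := fun t => {t.1, t.2.1, t.2.2}
  have h1 : {T : Finset (EuclideanSpace ℝ (Fin 2)) | T ⊆ Q ∧ T.card = 3 ∧
        ∃ a ∈ T, ∃ b ∈ T, ∃ c ∈ T, a ≠ b ∧ a ≠ c ∧ b ≠ c ∧ dist a b = dist a c}.ncard ≤
      (J.image f).card := by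
    rw [← Set.ncard_coe_finset]
    refine Set.ncard_le_ncard ?_ (finite_toSet _)
    rintro T ⟨t1, t2, a, ha, b, hb, c, hc, n1, n2, n3, e⟩
    refine mem_coe.mpr (mem_image.mpr ⟨(a, b, c),
      mem_isoT.mpr ⟨t1 ha, t1 hb, t1 hc, n1, n2, n3, (dist_eq_iff a b c).mp e⟩, ?_⟩)
    refine eq_of_subset_of_card_le ?_ ?_
    · intro x hx
      simp only [f, mem_insert, mem_singleton] at hx
      rcases hx with rfl | rfl | rfl <;> assumption
    · rw [t2]
      exact (card_eq_three.mpr ⟨a, b, c, n1, n2, n3, rfl⟩).ge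
  have h2 : 2 * (J.image f).card ≤ J.card := by
    refine mul_card_image_le_card J 2 fun s hs => ?_
    obtain ⟨⟨a, b, c⟩, ht, rfl⟩ := mem_image.mp hs
    obtain ⟨a1, a2, a3, a4, a5, a6, a7⟩ := mem_isoT.mp ht
    refine one_lt_card.mpr ⟨(a, b, c), mem_filter.mpr ⟨ht, rfl⟩, (a, c, b),
      mem_filter.mpr ⟨mem_isoT.mpr ⟨a1, a3, a2, a5, a4, a6.symm, a7.symm⟩, ?_⟩, ?_⟩
    · simp only [f, pair_comm]
    · simp only [ne_eq, Prod.mk.injEq, true_and, not_and]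
      exact fun h _ => a6 h
  have h3 : (2 : ℝ) * (J.image f).card ≤ J.card := by exact_mod_cast h2
  rw [Nat.cast_choose_two]
  refine (Nat.cast_le.mpr h1).trans ?_
  norm_num
  linarith only [h, h3]

theorem main_rat {P : Finset (EuclideanSpace ℝ (Fin 2))}
    (hq : ∀ p ∈ P, ∀ i, ∃ q : ℚ, p i = q) (hnc : NC (fun p => p 0) (fun p => p 1) P) :
    ∃ Q ⊆ P, (P \ Q).card ≤ 10 ^ 12 ∧ ((isoT (fun p => p 0) (fun p => p 1) Q).card : ℝ) ≤
      199 / 100 * ((P.card : ℝ) * (P.card - 1)) := by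
  classical
  choose! q hq using hq
  have ne0 : ∀ b ∈ P, ∀ c ∈ P, b ≠ c → (q c 0 - q b 0) ^ 2 + (q c 1 - q b 1) ^ 2 ≠ 0 := by
    intro b hb c hc hbc h
    apply hbc
    have x1 : q c 0 - q b 0 = 0 := by nlinarith only [h, sq_nonneg (q c 0 - q b 0), sq_nonneg (q c 1 - q b 1)]
    have x2 : q c 1 - q b 1 = 0 := by nlinarith only [h, sq_nonneg (q c 0 - q b 0), sq_nonneg (q c 1 - q b 1)]
    refine plane_ext ?_ ?_
    · rw [hq b hb, hq c hc, sub_eq_zero.mp x1]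
    · rw [hq b hb, hq c hc, sub_eq_zero.mp x2]
  refine count_main (fun a b => Rat.padicValuation 2 ((q b 0 - q a 0) ^ 2 + (q b 1 - q a 1) ^ 2))
    (fun p _ q _ => plane_ext) hnc ?_ ?_ ?_ ?_
  · intro a _ b _
    congr 1; ring
  · intro a _ b _ c _
    have := val_ultra _ rat_two rat_ns (q b 0 - q a 0) (q b 1 - q a 1) (q c 0 - q b 0)
      (q c 1 - q b 1)
    convert this using 2; ring
  · intro a _ b hb c hc hbc
    simp only [sub_self, ne_eq, OfNat.ofNat_ne_zero, not_false_eq_true, zero_pow, add_zero, map_zero]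
    rw [zero_lt_iff]
    simpa using ne0 b hb c hc hbc
  · rintro ⟨a, b, c⟩ ht
    obtain ⟨a1, a2, a3, -, a5, -, a7⟩ := mem_isoT.mp ht
    simp only [D2] at a1 a2 a3 a5 a7
    rw [hq a a1, hq a a1, hq b a2, hq b a2, hq c a3, hq c a3] at a7
    have := val_apex _ rat_two rat_ns (x := q b 0 - q a 0) (y := q b 1 - q a 1)
      (x' := q c 0 - q a 0) (y' := q c 1 - q a 1) (by exact_mod_cast a7) (ne0 a a1 c a3 a5)
    convert this using 2; ring

theorem main_val {P : Finset (EuclideanSpace ℝ (Fin 2))} {L : Subfield ℂ} {Γ : Type*}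
    [LinearOrderedCommGroupWithZero Γ] (v : Valuation L Γ)
    (hv : ∀ u : L, ‖(u : ℂ)‖ = 1 → v (u - 1) < 1)
    (hq : ∀ p ∈ P, (⟨p 0, p 1⟩ : ℂ) ∈ L) (hnc : NC (fun p => p 0) (fun p => p 1) P) :
    ∃ Q ⊆ P, (P \ Q).card ≤ 10 ^ 12 ∧ ((isoT (fun p => p 0) (fun p => p 1) Q).card : ℝ) ≤
      199 / 100 * ((P.card : ℝ) * (P.card - 1)) := by
  classical
  have hz : ∀ p ∈ P, ∃ z : L, (z : ℂ) = ⟨p 0, p 1⟩ := fun p hp => ⟨⟨_, hq p hp⟩, rfl⟩
  choose! z hz using hz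
  have ne0 : ∀ b ∈ P, ∀ c ∈ P, b ≠ c → z c - z b ≠ 0 := by
    intro b hb c hc hbc h
    apply hbc
    have := hz b hb
    rw [← sub_eq_zero.mp h, hz c hc, Complex.mk.injEq] at this
    exact plane_ext this.1.symm this.2.symm
  refine count_main (fun a b => v (z b - z a)) (fun p _ q _ => plane_ext) hnc ?_ ?_ ?_ ?_
  · intro a _ b _
    exact v.map_sub_swap _ _
  · intro a _ b _ c _
    have := v.map_add (z b - z a) (z c - z b)
    convert this using 2; ring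
  · intro a _ b hb c hc hbc
    simp only [sub_self, map_zero]
    rw [zero_lt_iff]
    simpa using ne0 b hb c hc hbc
  · rintro ⟨a, b, c⟩ ht
    obtain ⟨a1, a2, a3, -, a5, -, a7⟩ := mem_isoT.mp ht
    simp only [D2] at a1 a2 a3 a5 a7
    have n0 := ne0 a a1 c a3 a5
    have n1 : ((z c : ℂ) - z a) ≠ 0 := by exact_mod_cast n0
    have hu := hv ((z b - z a) / (z c - z a)) (by
      push_cast
      rw [norm_div, div_eq_one_iff_eq (norm_ne_zero_iff.mpr n1), hz a a1, hz b a2, hz c a3,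
        ← sq_eq_sq₀ (norm_nonneg _) (norm_nonneg _), Complex.sq_norm, Complex.sq_norm,
        Complex.normSq_apply, Complex.normSq_apply]
      simp only [Complex.sub_re, Complex.sub_im]
      linarith)
    have e : z b - z c = ((z b - z a) / (z c - z a) - 1) * (z c - z a) := by
      field_simp; ring
    have p : 0 < v (z c - z a) := by
      rw [zero_lt_iff]; simpa using n0
    simp only
    rw [v.map_sub_swap, e, map_mul]
    exact mul_lt_of_lt_one_left p hu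

end Pool.Agent.Work.MP_cbf770_co
end
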