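import Mathlib
import Pool.Agent.Work.MP_cbf770_co.Plane

-- merged part: Pool.Agent.Work.MP_cbf770_co.TriGeom
section
/-!
Two facts about three points on a circle, in coordinates centred at the centre of the circle.
-/

set_option autoImplicit false

namespace Pool.Agent.Work.MP_cbf770_co

/-- If `bd` is the longest side of the inscribed triangle `bcd` and the linear form `z` is
minimised at `c`, then its value at `c` is not positive. -/
theorem tri_long {b1 b2 c1 c2 d1 d2 z1 z2 : ℝ}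
    (hb : b1 ^ 2 + b2 ^ 2 = c1 ^ 2 + c2 ^ 2) (hd : d1 ^ 2 + d2 ^ 2 = c1 ^ 2 + c2 ^ 2)
    (nbc : 0 < (c1 - b1) ^ 2 + (c2 - b2) ^ 2) (ncd : 0 < (d1 - c1) ^ 2 + (d2 - c2) ^ 2)
    (l1 : (c1 - b1) ^ 2 + (c2 - b2) ^ 2 ≤ (d1 - b1) ^ 2 + (d2 - b2) ^ 2)
    (l2 : (d1 - c1) ^ 2 + (d2 - c2) ^ 2 ≤ (d1 - b1) ^ 2 + (d2 - b2) ^ 2)
    (zb : 0 ≤ z1 * (b1 - c1) + z2 * (b2 - c2)) (zd : 0 ≤ z1 * (d1 - c1) + z2 * (d2 - c2)) :
    z1 * c1 + z2 * c2 ≤ 0 := by
  obtain ⟨u1, hu1⟩ : ∃ u1, u1 = b1 - c1 := ⟨_, rfl⟩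
  obtain ⟨u2, hu2⟩ : ∃ u2, u2 = b2 - c2 := ⟨_, rfl⟩
  obtain ⟨v1, hv1⟩ : ∃ v1, v1 = d1 - c1 := ⟨_, rfl⟩
  obtain ⟨v2, hv2⟩ : ∃ v2, v2 = d2 - c2 := ⟨_, rfl⟩
  obtain rfl : b1 = c1 + u1 := by linarith only [hu1]
  obtain rfl : b2 = c2 + u2 := by linarith
  obtain rfl : d1 = c1 + v1 := by linarith
  obtain rfl : d2 = c2 + v2 := by linarith
  have eu : u1 ^ 2 + u2 ^ 2 = -2 * (u1 * c1 + u2 * c2) := by linarith
  have ev : v1 ^ 2 + v2 ^ 2 = -2 * (v1 * c1 + v2 * c2) := by linarith only [hd]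
  have pu : 0 < u1 ^ 2 + u2 ^ 2 := by linarith
  have pv : 0 < v1 ^ 2 + v2 ^ 2 := by linarith
  have su : 0 < u1 ^ 2 + u2 ^ 2 - (u1 * v1 + u2 * v2) := by linarith only [nbc, l2]
  have sv : 0 < v1 ^ 2 + v2 ^ 2 - (u1 * v1 + u2 * v2) := by linarith
  have zu : 0 ≤ z1 * u1 + z2 * u2 := by linarith
  have zv : 0 ≤ z1 * v1 + z2 * v2 := by linarith
  have key : -2 * (u1 * v2 - u2 * v1) ^ 2 * (z1 * c1 + z2 * c2) =
      (v1 ^ 2 + v2 ^ 2) * (u1 ^ 2 + u2 ^ 2 - (u1 * v1 + u2 * v2)) * (z1 * u1 + z2 * u2) +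
      (u1 ^ 2 + u2 ^ 2) * (v1 ^ 2 + v2 ^ 2 - (u1 * v1 + u2 * v2)) * (z1 * v1 + z2 * v2) := by
    linear_combination
      (-(u1 * v2 - u2 * v1) * (z1 * v2 - z2 * v1)) * eu +
      (-(u1 * v2 - u2 * v1) * (z2 * u1 - z1 * u2)) * ev
  have hdet : u1 * v2 - u2 * v1 ≠ 0 := by
    intro h0
    have : (u1 ^ 2 + u2 ^ 2) * (v1 ^ 2 + v2 ^ 2 - (u1 * v1 + u2 * v2)) = 0 := by
      linear_combination (u1 ^ 2 + u2 ^ 2) * ev - (u1 * v1 + u2 * v2) * eu +
        (2 * (u2 * c1 - u1 * c2)) * h0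
    exact (mul_pos pu sv).ne' this
  have hpos : 0 < (u1 * v2 - u2 * v1) ^ 2 := by positivity
  have h1 : 0 ≤ -2 * (u1 * v2 - u2 * v1) ^ 2 * (z1 * c1 + z2 * c2) := by
    rw [key]; positivity
  by_contra hc
  push Not at hc
  nlinarith only [h1, hpos, hc, mul_pos hpos hc]

/-- The middle one of three points of a circle, in plain coordinates. -/
theorem tri_mid0 {b1 b2 c1 c2 d1 d2 z1 z2 : ℝ}
    (hb : b1 ^ 2 + b2 ^ 2 = c1 ^ 2 + c2 ^ 2) (hd : d1 ^ 2 + d2 ^ 2 = c1 ^ 2 + c2 ^ 2)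
    (o1 : b1 < c1) (o2 : c1 < d1) (hc : c2 < 0)
    (zb : 0 ≤ z1 * (b1 - c1) + z2 * (b2 - c2)) (zd : 0 ≤ z1 * (d1 - c1) + z2 * (d2 - c2)) :
    0 ≤ z2 := by
  obtain ⟨s, hs⟩ : ∃ s, s = d1 - c1 := ⟨_, rfl⟩
  obtain ⟨t, ht⟩ : ∃ t, t = c1 - b1 := ⟨_, rfl⟩
  obtain rfl : d1 = c1 + s := by linarith
  obtain rfl : b1 = c1 - t := by linarith
  have ps : 0 < s := by linarith
  have pt : 0 < t := by linarith
  have e1 : ((s + t) * c2) ^ 2 - (s * b2 + t * d2) ^ 2 = s * t * ((s + t) ^ 2 + (b2 - d2) ^ 2) := by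
    linear_combination (-(s + t) * s) * hb + (-(s + t) * t) * hd
  have e2 : 0 < s * t * ((s + t) ^ 2 + (b2 - d2) ^ 2) := by positivity
  have e3 : (s + t) * c2 < 0 := mul_neg_of_pos_of_neg (by linarith) hc
  have e4 : (s + t) * c2 < s * b2 + t * d2 := by
    by_contra h
    push Not at h
    nlinarith only [e1, e2, e3, h]
  have e5 : 0 ≤ z2 * (s * b2 + t * d2 - (s + t) * c2) := by
    have a1 := mul_nonneg ps.le zb
    have a2 := mul_nonneg pt.le zd
    nlinarith only [a1, a2]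
  exact nonneg_of_mul_nonneg_left e5 (by linarith) |> fun h => h

/-- The middle one of three points of a circle with respect to the direction `w`. -/
theorem tri_mid {b1 b2 c1 c2 d1 d2 z1 z2 w1 w2 : ℝ}
    (hb : b1 ^ 2 + b2 ^ 2 = c1 ^ 2 + c2 ^ 2) (hd : d1 ^ 2 + d2 ^ 2 = c1 ^ 2 + c2 ^ 2)
    (o1 : w1 * b2 - w2 * b1 < w1 * c2 - w2 * c1) (o2 : w1 * c2 - w2 * c1 < w1 * d2 - w2 * d1)
    (hc : c1 * w1 + c2 * w2 < 0)
    (zb : 0 ≤ z1 * (b1 - c1) + z2 * (b2 - c2)) (zd : 0 ≤ z1 * (d1 - c1) + z2 * (d2 - c2)) :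
    0 ≤ z1 * w1 + z2 * w2 := by
  have hw : 0 ≤ w1 ^ 2 + w2 ^ 2 := by positivity
  refine tri_mid0 (b2 := b1 * w1 + b2 * w2) (d2 := d1 * w1 + d2 * w2) (z1 := w1 * z2 - w2 * z1)
    ?_ ?_ o1 o2 hc ?_ ?_
  · linear_combination (w1 ^ 2 + w2 ^ 2) * hb
  · linear_combination (w1 ^ 2 + w2 ^ 2) * hd
  · have := mul_nonneg hw zb
    nlinarith only [this]
  · have := mul_nonneg hw zd
    nlinarith only [this]

/-- Two points of a circle on the same side of `w` with the same tangential coordinate agree. -/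
theorem tri_inj {b1 b2 c1 c2 w1 w2 : ℝ} (hb : b1 ^ 2 + b2 ^ 2 = c1 ^ 2 + c2 ^ 2)
    (o1 : w1 * b2 - w2 * b1 = w1 * c2 - w2 * c1)
    (sb : b1 * w1 + b2 * w2 < 0) (sc : c1 * w1 + c2 * w2 < 0) : b1 = c1 ∧ b2 = c2 := by
  have e : (b1 * w1 + b2 * w2 - (c1 * w1 + c2 * w2)) * (b1 * w1 + b2 * w2 + (c1 * w1 + c2 * w2))
      = 0 := by
    linear_combination (w1 ^ 2 + w2 ^ 2) * hb -
      ((w1 * b2 - w2 * b1) + (w1 * c2 - w2 * c1)) * o1
  have e2 : b1 * w1 + b2 * w2 = c1 * w1 + c2 * w2 := by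
    rcases mul_eq_zero.1 e with h | h <;> linarith only [h, sb, sc]
  have hw : w1 ^ 2 + w2 ^ 2 ≠ 0 := by
    intro h
    have a1 : w1 = 0 := by nlinarith only [h]
    have a2 : w2 = 0 := by nlinarith only [h]
    rw [a1, a2] at sb
    simp at sb
  constructor
  · apply mul_left_cancel₀ hw
    linear_combination w1 * e2 - w2 * o1
  · apply mul_left_cancel₀ hw
    linear_combination w2 * e2 + w1 * o1

end Pool.Agent.Work.MP_cbf770_co
end

-- merged part: Pool.Agent.Work.MP_cbf770_co.TriCore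
section
/-!
Not almost all ordered pairs `(a, c)` of a set with no three collinear points can lie on a circle
about `a` that holds exactly three points of the set.
-/

set_option autoImplicit false

namespace Pool.Agent.Work.MP_cbf770_co

open Finset

section
variable {α : Type*} (X Y : α → ℝ)

open Classical in
/-- The points of `T` farther from `a` than `c` is. -/
noncomputable def outS (T : Finset α) (a c : α) : Finset α :=
  T.filter fun x => D2 X Y a c < D2 X Y a x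

open Classical in
/-- The points of `T` as far from `a` as `c` is. -/
noncomputable def cls (T : Finset α) (a c : α) : Finset α :=
  T.filter fun x => D2 X Y a x = D2 X Y a c

/-- `(a, c)` is a leg of a tripod. -/
def Tri (T : Finset α) (a c : α) : Prop := c ∈ T ∧ c ≠ a ∧ (cls X Y T a c).card = 3

/-- `c` is farther from `z` than the rest of its class about `a`. -/
def Top (T : Finset α) (a c z : α) : Prop := ∀ x ∈ cls X Y T a c, D2 X Y z x ≤ D2 X Y z c

variable {X Y}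

theorem mem_outS {T : Finset α} {a c x : α} :
    x ∈ outS X Y T a c ↔ x ∈ T ∧ D2 X Y a c < D2 X Y a x := by simp [outS]

theorem mem_cls {T : Finset α} {a c x : α} :
    x ∈ cls X Y T a c ↔ x ∈ T ∧ D2 X Y a x = D2 X Y a c := by simp [cls]

theorem cls_congr {T : Finset α} {a c c' : α} (h : D2 X Y a c' = D2 X Y a c) :
    cls X Y T a c' = cls X Y T a c := by
  ext x; rw [mem_cls, mem_cls, h]

theorem outS_congr {T : Finset α} {a c c' : α} (h : D2 X Y a c' = D2 X Y a c) :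
    outS X Y T a c' = outS X Y T a c := by
  ext x; rw [mem_outS, mem_outS, h]

theorem D2_self (a : α) : D2 X Y a a = 0 := by simp [D2]

theorem D2_comm (a b : α) : D2 X Y a b = D2 X Y b a := by unfold D2; ring

theorem D2_nonneg (a b : α) : 0 ≤ D2 X Y a b := by unfold D2; positivity

theorem D2_pos {T : Finset α} (hinj : ∀ p ∈ T, ∀ q ∈ T, X p = X q → Y p = Y q → p = q)
    {a b : α} (ha : a ∈ T) (hb : b ∈ T) (h : a ≠ b) : 0 < D2 X Y a b := by
  by_contra hc
  unfold D2 at hc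
  push Not at hc
  refine h (hinj a ha b hb ?_ ?_) <;> nlinarith only [hc, sq_nonneg (X b - X a), sq_nonneg (Y b - Y a)]

theorem Tri.of_mem {T : Finset α} (hinj : ∀ p ∈ T, ∀ q ∈ T, X p = X q → Y p = Y q → p = q)
    {a c c' : α} (ha : a ∈ T) (h : Tri X Y T a c) (hc : c' ∈ cls X Y T a c) : Tri X Y T a c' := by
  obtain ⟨h1, h2⟩ := mem_cls.1 hc
  refine ⟨h1, ?_, by rw [cls_congr h2]; exact h.2.2⟩
  rintro rfl
  have := D2_pos hinj ha h.1 h.2.1.symm
  rw [D2_self] at h2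
  linarith

/-- Every tripod has a vertex that is the top of the tripod only from far away. -/
theorem exists_long {T : Finset α} (hinj : ∀ p ∈ T, ∀ q ∈ T, X p = X q → Y p = Y q → p = q)
    {a c : α} (ha : a ∈ T) (h : Tri X Y T a c) :
    ∃ c' ∈ cls X Y T a c, ∀ z ∈ T, z ≠ a → Top X Y T a c' z → D2 X Y a c' < D2 X Y z c' := by
  classical
  have aux : ∀ b ∈ cls X Y T a c, ∀ e ∈ cls X Y T a c, ∀ d ∈ cls X Y T a c, b ≠ e → e ≠ d →
      D2 X Y b e ≤ D2 X Y b d → D2 X Y e d ≤ D2 X Y b d →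
      ∀ z ∈ T, z ≠ a → Top X Y T a e z → D2 X Y a e < D2 X Y z e := by
    intro b hb e he d hd n1 n2 l1 l2 z hz hza ht
    obtain ⟨b1, b2⟩ := mem_cls.1 hb
    obtain ⟨e1, e2⟩ := mem_cls.1 he
    obtain ⟨d1, d2⟩ := mem_cls.1 hd
    have t1 := ht b (by rw [cls_congr e2]; exact hb)
    have t2 := ht d (by rw [cls_congr e2]; exact hd)
    have p1 := D2_pos hinj b1 e1 n1
    have p2 := D2_pos hinj e1 d1 n2
    have p3 := D2_pos hinj ha hz hza.symm
    unfold D2 at *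
    have := tri_long (b1 := X b - X a) (b2 := Y b - Y a) (c1 := X e - X a) (c2 := Y e - Y a)
      (d1 := X d - X a) (d2 := Y d - Y a) (z1 := X z - X a) (z2 := Y z - Y a)
      (by linarith only [b2, e2]) (by linarith only [e2, d2]) (by linarith) (by linarith) (by linarith) (by linarith)
      (by linarith only [b2, e2, t1]) (by linarith)
    linarith
  obtain ⟨x, y, u, n1, n2, n3, hE⟩ := card_eq_three.1 h.2.2
  have hx : x ∈ cls X Y T a c := by rw [hE]; simp
  have hy : y ∈ cls X Y T a c := by rw [hE]; simp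
  have hu : u ∈ cls X Y T a c := by rw [hE]; simp
  have c1 := D2_comm (X := X) (Y := Y) x y
  have c2 := D2_comm (X := X) (Y := Y) x u
  have c3 := D2_comm (X := X) (Y := Y) y u
  rcases le_total (D2 X Y x y) (D2 X Y x u) with a1 | a1
  · rcases le_total (D2 X Y y u) (D2 X Y x u) with a2 | a2
    · exact ⟨y, hy, aux x hx y hy u hu n1 n3 a1 a2⟩
    · exact ⟨x, hx, aux y hy x hx u hu n1.symm n2 (by linarith) a2⟩
  · rcases le_total (D2 X Y y u) (D2 X Y x y) with a2 | a2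
    · exact ⟨u, hu, aux x hx u hu y hy n2 n3.symm a1 (by linarith)⟩
    · exact ⟨x, hx, aux y hy x hx u hu n1.symm n2 (by linarith) (by linarith)⟩

open Classical in
/-- The points of `T` in the closed half plane at `a` facing away from `a'`. -/
noncomputable def halfS (X Y : α → ℝ) (T : Finset α) (a a' : α) : Finset α :=
  T.filter fun x => 0 ≤ (X x - X a) * (X a - X a') + (Y x - Y a) * (Y a - Y a')

theorem mem_halfS {T : Finset α} {a a' x : α} : x ∈ halfS X Y T a a' ↔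
    x ∈ T ∧ 0 ≤ (X x - X a) * (X a - X a') + (Y x - Y a) * (Y a - Y a') := by simp [halfS]

theorem card_halfS {T : Finset α} (hinj : ∀ p ∈ T, ∀ q ∈ T, X p = X q → Y p = Y q → p = q)
    {a : α} (ha : a ∈ T) (a' : α) : (halfS X Y T a a').card ≤ (outS X Y T a' a).card + 1 := by
  classical
  refine le_trans (card_le_card ?_) (card_insert_le a _)
  intro x hx
  obtain ⟨h1, h2⟩ := mem_halfS.1 hx
  by_cases hxa : x = a
  · rw [hxa]; exact mem_insert_self _ _
  · refine mem_insert_of_mem (mem_outS.2 ⟨h1, ?_⟩)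
    have := D2_pos hinj ha h1 (Ne.symm hxa)
    unfold D2 at *
    nlinarith only [h2, this]

/-- A tripod missing a half plane at its centre has a vertex that is the top of the tripod only
from points of the half plane. -/
theorem exists_mid {T : Finset α} (hinj : ∀ p ∈ T, ∀ q ∈ T, X p = X q → Y p = Y q → p = q)
    {a c : α} (a' : α) (h : Tri X Y T a c) :
    ∃ c' ∈ cls X Y T a c, c' ∈ halfS X Y T a a' ∨
      ∀ z ∈ T, Top X Y T a c' z → z ∈ halfS X Y T a a' := by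
  classical
  by_cases hH : ∃ c' ∈ cls X Y T a c, c' ∈ halfS X Y T a a'
  · obtain ⟨c', h1, h2⟩ := hH
    exact ⟨c', h1, Or.inl h2⟩
  push Not at hH
  have neg : ∀ x ∈ cls X Y T a c,
      (X x - X a) * (X a - X a') + (Y x - Y a) * (Y a - Y a') < 0 := by
    intro x hx
    by_contra hc
    exact hH x hx (mem_halfS.2 ⟨(mem_cls.1 hx).1, not_lt.1 hc⟩)
  set f : α → ℝ := fun x => (X a - X a') * (Y x - Y a) - (Y a - Y a') * (X x - X a) with hf
  have aux : ∀ b ∈ cls X Y T a c, ∀ e ∈ cls X Y T a c, ∀ d ∈ cls X Y T a c, f b < f e →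
      f e < f d → ∀ z ∈ T, Top X Y T a e z → z ∈ halfS X Y T a a' := by
    intro b hb e he d hd l1 l2 z hz ht
    obtain ⟨b1, b2⟩ := mem_cls.1 hb
    obtain ⟨e1, e2⟩ := mem_cls.1 he
    obtain ⟨d1, d2⟩ := mem_cls.1 hd
    have t1 := ht b (by rw [cls_congr e2]; exact hb)
    have t2 := ht d (by rw [cls_congr e2]; exact hd)
    refine mem_halfS.2 ⟨hz, ?_⟩
    unfold D2 at *
    exact tri_mid (b1 := X b - X a) (b2 := Y b - Y a) (c1 := X e - X a) (c2 := Y e - Y a)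
      (d1 := X d - X a) (d2 := Y d - Y a) (by linarith only [b2, e2]) (by linarith only [e2, d2]) l1 l2 (neg e he)
      (by linarith only [b2, e2, t1]) (by linarith only [e2, d2, t2])
  have inj : ∀ b ∈ cls X Y T a c, ∀ e ∈ cls X Y T a c, b ≠ e → f b ≠ f e := by
    intro b hb e he hne hfe
    obtain ⟨b1, b2⟩ := mem_cls.1 hb
    obtain ⟨e1, e2⟩ := mem_cls.1 he
    unfold D2 at b2 e2
    have := tri_inj (b1 := X b - X a) (b2 := Y b - Y a) (c1 := X e - X a) (c2 := Y e - Y a)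
      (by linarith only [b2, e2]) hfe (neg b hb) (neg e he)
    exact hne (hinj b b1 e e1 (by linarith [this.1]) (by linarith [this.2]))
  obtain ⟨x, y, u, n1, n2, n3, hE⟩ := card_eq_three.1 h.2.2
  have hx : x ∈ cls X Y T a c := by rw [hE]; simp
  have hy : y ∈ cls X Y T a c := by rw [hE]; simp
  have hu : u ∈ cls X Y T a c := by rw [hE]; simp
  rcases lt_or_gt_of_ne (inj x hx y hy n1) with a1 | a1 <;>
    rcases lt_or_gt_of_ne (inj x hx u hu n2) with a2 | a2 <;>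
    rcases lt_or_gt_of_ne (inj y hy u hu n3) with a3 | a3
  · exact ⟨y, hy, Or.inr (aux x hx y hy u hu a1 a3)⟩
  · exact ⟨u, hu, Or.inr (aux x hx u hu y hy a2 a3)⟩
  · exact ⟨y, hy, Or.inr (aux x hx y hy u hu a1 a3)⟩
  · exact ⟨x, hx, Or.inr (aux u hu x hx y hy a2 a1)⟩
  · exact ⟨x, hx, Or.inr (aux y hy x hx u hu a1 a2)⟩
  · exact ⟨x, hx, Or.inr (aux y hy x hx u hu a1 a2)⟩
  · exact ⟨u, hu, Or.inr (aux y hy u hu x hx a3 a2)⟩
  · exact ⟨y, hy, Or.inr (aux u hu y hy x hx a3 a1)⟩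

/-- At least `K` points have fewer than `K` points beyond them. -/
theorem low_level (T : Finset α) (a : α) {K : ℕ} (hK : K ≤ T.card) {G : Finset α}
    (hG : ∀ c ∈ T, (outS X Y T a c).card < K → c ∈ G) : K ≤ G.card := by
  classical
  by_cases hS : (T \ G).Nonempty
  · obtain ⟨c, hc, hmax⟩ := exists_max_image (T \ G) (D2 X Y a) hS
    obtain ⟨c1, c2⟩ := mem_sdiff.1 hc
    have h1 : K ≤ (outS X Y T a c).card := by
      by_contra hh
      exact c2 (hG c c1 (not_le.1 hh))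
    refine h1.trans (card_le_card fun x hx => ?_)
    obtain ⟨x1, x2⟩ := mem_outS.1 hx
    by_contra hxG
    exact absurd (hmax x (mem_sdiff.2 ⟨x1, hxG⟩)) (not_le.2 x2)
  · rw [not_nonempty_iff_eq_empty, sdiff_eq_empty_iff_subset] at hS
    exact hK.trans (card_le_card hS)

/-- Centres whose class through `c` sticks out of the disc about `z` through `c`. -/
theorem wit_bound {T : Finset α} (hnc : NC X Y T) {c z : α} (hc : c ∈ T) {F : Finset α}
    (hF : ∀ a ∈ F, a ∈ T ∧ ¬ Top X Y T a c z) : F.card ≤ 2 * (outS X Y T z c).card := by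
  classical
  have hsub : F ⊆ (outS X Y T z c).biUnion
      fun x => T.filter fun a => D2 X Y a x = D2 X Y a c := by
    intro a ha
    obtain ⟨h1, h2⟩ := hF a ha
    unfold Top at h2
    push Not at h2
    obtain ⟨x, hx, hlt⟩ := h2
    exact mem_biUnion.2 ⟨x, mem_outS.2 ⟨(mem_cls.1 hx).1, hlt⟩,
      mem_filter.2 ⟨h1, (mem_cls.1 hx).2⟩⟩
  refine (card_le_card hsub).trans ?_
  rw [mul_comm]
  refine card_biUnion_le_card_mul _ _ _ fun x hx => ?_
  obtain ⟨x1, x2⟩ := mem_outS.1 hx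
  have hxc : x ≠ c := by
    rintro rfl
    exact lt_irrefl _ x2
  by_contra hh
  obtain ⟨t1, t2, t3, h1, h2, h3, n12, n13, n23⟩ := two_lt_card_iff.mp (not_le.mp hh)
  rw [mem_filter] at h1 h2 h3
  rcases hnc x x1 c hc hxc t1 h1.1 t2 h2.1 t3 h3.1 h1.2 h2.2 h3.2 with e | e | e
  · exact n12 e
  · exact n13 e
  · exact n23 e

/-- Tripod legs are covered by the classes of chosen vertices. -/
theorem three_cover {T : Finset α} {a : α} {S G : Finset α}
    (h : ∀ c ∈ S, Tri X Y T a c ∧ ∃ c' ∈ G, c' ∈ cls X Y T a c) : S.card ≤ 3 * G.card := by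
  classical
  have hsub : S ⊆ (G.filter fun c' => (cls X Y T a c').card = 3).biUnion (cls X Y T a) := by
    intro c hc
    obtain ⟨h1, c', h2, h3⟩ := h c hc
    have e := cls_congr (T := T) (mem_cls.1 h3).2
    exact mem_biUnion.2 ⟨c', mem_filter.2 ⟨h2, by rw [e]; exact h1.2.2⟩,
      by rw [e]; exact mem_cls.2 ⟨h1.1, rfl⟩⟩
  refine (card_le_card hsub).trans ?_
  refine (card_biUnion_le_card_mul _ _ 3 fun x hx => (mem_filter.1 hx).2.le).trans ?_
  rw [mul_comm]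
  exact Nat.mul_le_mul_left _ (card_filter_le _ _)

theorem geom_scales (m : ℕ → ℕ) (K t : ℕ)
    (h : ∀ i j, 2 * K ≤ m i → m j ≤ 4 * (2 ^ i * K)) :
    ∑ j ∈ range t, (m j : ℝ) / 2 ^ j ≤ 12 * K := by
  classical
  have g2 : ∀ s, ∑ j ∈ range s, (1 / 2 : ℝ) ^ j ≤ 2 := sum_geometric_two_le
  have hK : (0 : ℝ) ≤ K := Nat.cast_nonneg K
  have small : ∀ s, (∀ j < s, m j < 2 * K) → ∑ j ∈ range s, (m j : ℝ) / 2 ^ j ≤ 4 * K := by
    intro s hs
    have : ∑ j ∈ range s, (m j : ℝ) / 2 ^ j ≤ ∑ j ∈ range s, 2 * K * (1 / 2 : ℝ) ^ j := by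
      refine sum_le_sum fun j hj => ?_
      have : (m j : ℝ) ≤ 2 * K := by exact_mod_cast (hs j (mem_range.1 hj)).le
      rw [one_div, inv_pow, ← div_eq_mul_inv]
      gcongr
    rw [← mul_sum] at this
    nlinarith only [this, g2 s]
  by_cases hex : ∃ i, i < t ∧ 2 * K ≤ m i
  · obtain ⟨h1, h2⟩ := Nat.find_spec hex
    set f := Nat.find hex with hf
    have h3 : ∀ j < f, m j < 2 * K := fun j hj => by
      have := Nat.find_min hex hj
      push Not at this
      exact this (by omega)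
    rw [← sum_range_add_sum_Ico _ h1.le, sum_Ico_eq_sum_range]
    have : ∑ j ∈ range (t - f), (m (f + j) : ℝ) / 2 ^ (f + j) ≤
        ∑ j ∈ range (t - f), 4 * K * (1 / 2 : ℝ) ^ j := by
      refine sum_le_sum fun j _ => ?_
      have : (m (f + j) : ℝ) ≤ 4 * (2 ^ f * K) := by exact_mod_cast h f (f + j) h2
      rw [div_le_iff₀ (by positivity), pow_add]
      refine this.trans (le_of_eq ?_)
      rw [one_div, inv_pow]
      field_simp
    rw [← mul_sum] at this
    nlinarith only [this, g2 (t - f), small f h3]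
  · push Not at hex
    linarith [small t hex]

end

end Pool.Agent.Work.MP_cbf770_co
end

-- merged part: Pool.Agent.Work.MP_cbf770_co.TriStep
section
/-!
The counting argument: many shallow points, then a contradiction over many scales.
-/

set_option autoImplicit false

namespace Pool.Agent.Work.MP_cbf770_co

open Finset

section
variable {α : Type*} (X Y : α → ℝ)

open Classical in
/-- The points `c` for which `(a, c)` is not a leg of a tripod (`a` itself included). -/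
noncomputable def badAt (T : Finset α) (a : α) : Finset α := T.filter fun c => ¬ Tri X Y T a c

variable {X Y}

theorem mem_badAt {T : Finset α} {a c : α} :
    c ∈ badAt X Y T a ↔ c ∈ T ∧ ¬ Tri X Y T a c := by simp [badAt]

theorem swap_card (S T : Finset α) (r : α → α → Prop) [∀ a c, Decidable (r a c)] :
    ∑ a ∈ S, (T.filter fun c => r a c).card = ∑ c ∈ T, (S.filter fun a => r a c).card := by
  simp only [card_filter]
  exact sum_comm

/-- The demand at one centre and one scale. -/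
theorem demand {T : Finset α} {a : α} {K : ℕ} (hK : K ≤ T.card) {G : Finset α}
    (hG : ∀ c, Tri X Y T a c → (outS X Y T a c).card < K → ∃ c' ∈ G, c' ∈ cls X Y T a c) :
    K ≤ (badAt X Y T a).card + 3 * G.card := by
  classical
  have h1 := low_level (X := X) (Y := Y) T a hK (G := badAt X Y T a ∪
      T.filter fun c => Tri X Y T a c ∧ (outS X Y T a c).card < K) (fun c hc hl => by
    by_cases ht : Tri X Y T a c
    · exact mem_union_right _ (mem_filter.2 ⟨hc, ht, hl⟩)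
    · exact mem_union_left _ (mem_badAt.2 ⟨hc, ht⟩))
  have h2 := three_cover (X := X) (Y := Y) (T := T) (a := a) (G := G)
    (S := T.filter fun c => Tri X Y T a c ∧ (outS X Y T a c).card < K) (fun c hc => by
      obtain ⟨-, c2, c3⟩ := mem_filter.1 hc
      exact ⟨c2, hG c c2 c3⟩)
  have h3 := card_union_le (badAt X Y T a)
    (T.filter fun c => Tri X Y T a c ∧ (outS X Y T a c).card < K)
  omega

theorem step_shallow {T : Finset α} (hinj : ∀ p ∈ T, ∀ q ∈ T, X p = X q → Y p = Y q → p = q)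
    (hnc : NC X Y T) {K : ℕ} (hK : K ≤ T.card) {A : Finset α}
    (hA : ∀ c ∈ T, ∀ a, (outS X Y T a c).card < K → c ∈ A) :
    T.card * K ≤ ∑ a ∈ T, (badAt X Y T a).card + 6 * K * A.card := by
  classical
  let r : α → α → Prop := fun a c => (outS X Y T a c).card < K ∧
    ∀ z ∈ T, z ≠ a → Top X Y T a c z → D2 X Y a c < D2 X Y z c
  have h1 : ∀ a ∈ T, K ≤ (badAt X Y T a).card + 3 * (T.filter fun c => r a c).card := by
    intro a ha
    refine demand hK fun c hc hl => ?_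
    obtain ⟨c', h1, h2⟩ := exists_long hinj ha hc
    refine ⟨c', mem_filter.2 ⟨(mem_cls.1 h1).1, ?_, h2⟩, h1⟩
    rw [outS_congr (mem_cls.1 h1).2]; exact hl
  have h2 := sum_le_sum h1
  rw [sum_add_distrib, ← mul_sum, swap_card, sum_const, smul_eq_mul] at h2
  have h3 : ∀ c ∈ T, (T.filter fun a => r a c).card ≤ if c ∈ A then 2 * K else 0 := by
    intro c hc
    rcases (T.filter fun a => r a c).eq_empty_or_nonempty with he | he
    · rw [he]; simp
    · obtain ⟨z, hz, hmin⟩ := exists_min_image _ (fun a => D2 X Y a c) he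
      obtain ⟨z1, z2, -⟩ := mem_filter.1 hz
      rw [if_pos (hA c hc z z2)]
      have h4 := wit_bound hnc hc (z := z) (F := (T.filter fun a => r a c).erase z) (fun a ha => by
        obtain ⟨a1, a2⟩ := mem_erase.1 ha
        obtain ⟨a3, -, a4⟩ := mem_filter.1 a2
        exact ⟨a3, fun ht => absurd (a4 z z1 a1.symm ht) (not_lt.2 (hmin a a2))⟩)
      have h5 := card_erase_add_one hz
      omega
  have h4 := sum_le_sum h3
  rw [← sum_filter, sum_const, smul_eq_mul] at h4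
  have h5 : (T.filter fun c => c ∈ A).card ≤ A.card :=
    card_le_card fun c hc => (mem_filter.1 hc).2
  have h6 := Nat.mul_le_mul_right (2 * K) h5
  nlinarith only [h2, h4, h6]

theorem supply {T : Finset α} (hnc : NC X Y T) {c : α} (hc : c ∈ T) {K0 K : ℕ} (hK0 : 1 ≤ K0)
    (H : α → Finset α) {F F' : Finset α} (hF : ∀ a ∈ F, a ∈ T ∧ (H a).card ≤ K0 ∧
      ∀ z ∈ T, Top X Y T a c z → z ∈ H a)
    (hF' : ∀ z ∈ F', z ∈ T ∧ (outS X Y T z c).card < K) (hm : 2 * K0 ≤ F'.card) :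
    F.card ≤ 4 * K := by
  classical
  have h1 : ∀ z ∈ F', F.card ≤ (F.filter fun a => z ∈ H a).card + 2 * K := by
    intro z hz
    have a1 := card_filter_add_card_filter_not (s := F) (fun a => z ∈ H a)
    have a2 := wit_bound hnc hc (z := z) (F := F.filter fun a => ¬ z ∈ H a) (fun a ha => by
      obtain ⟨b1, b2⟩ := mem_filter.1 ha
      exact ⟨(hF a b1).1, fun ht => b2 ((hF a b1).2.2 z (hF' z hz).1 ht)⟩)
    have a3 := (hF' z hz).2
    omega
  have h2 := sum_le_sum h1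
  rw [sum_add_distrib, swap_card F' F (fun z a => z ∈ H a), sum_const, sum_const, smul_eq_mul,
    smul_eq_mul] at h2
  have h3 : ∑ a ∈ F, (F'.filter fun z => z ∈ H a).card ≤ ∑ _a ∈ F, K0 :=
    sum_le_sum fun a ha =>
      (card_le_card fun z hz => (mem_filter.1 hz).2).trans (hF a ha).2.1
  rw [sum_const, smul_eq_mul] at h3
  have h4 : F'.card * F.card ≤ F'.card * (4 * K) := by nlinarith only [h2, h3, hm]
  exact Nat.le_of_mul_le_mul_left h4 (by omega)

theorem step_scales {T : Finset α} (hnc : NC X Y T) {K0 t : ℕ} (hK0 : 1 ≤ K0)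
    (ht : 2 ^ t * K0 ≤ T.card) {A : Finset α} (hA : A ⊆ T) (H : α → Finset α)
    (hH : ∀ a ∈ A, (H a).card ≤ K0)
    (hB : ∀ a ∈ A, ∀ c, Tri X Y T a c → ∃ c' ∈ cls X Y T a c, c' ∈ H a ∨
      ∀ z ∈ T, Top X Y T a c' z → z ∈ H a) :
    (t : ℝ) * (A.card * K0) ≤ 2 * (∑ a ∈ T, (badAt X Y T a).card : ℕ) + 42 * (K0 * T.card) := by
  classical
  let r : ℕ → α → α → Prop := fun j a c => (outS X Y T a c).card < 2 ^ j * K0 ∧
    ∀ z ∈ T, Top X Y T a c z → z ∈ H a
  obtain ⟨B, hBd⟩ : ∃ B : ℕ, B = ∑ a ∈ T, (badAt X Y T a).card := ⟨_, rfl⟩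
  rw [← hBd]
  have hAT : A.card ≤ T.card := card_le_card hA
  have h1 : ∀ j < t, A.card * (2 ^ j * K0) ≤ B + 3 * (T.card * K0) +
      3 * ∑ c ∈ T, (A.filter fun a => r j a c).card := by
    intro j hj
    have hj' : 2 ^ j * K0 ≤ T.card :=
      (Nat.mul_le_mul_right _ (Nat.pow_le_pow_right (by norm_num) hj.le)).trans ht
    have a1 : ∀ a ∈ A, 2 ^ j * K0 ≤ (badAt X Y T a).card +
        (3 * K0 + 3 * (T.filter fun c => r j a c).card) := by
      intro a ha
      have b1 := demand (X := X) (Y := Y) (a := a) hj' (G := H a ∪ T.filter fun c => r j a c)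
        (fun c hc hl => by
          obtain ⟨c', h1, h2⟩ := hB a ha c hc
          refine ⟨c', ?_, h1⟩
          rcases h2 with h2 | h2
          · exact mem_union_left _ h2
          · refine mem_union_right _ (mem_filter.2 ⟨(mem_cls.1 h1).1, ?_, h2⟩)
            rw [outS_congr (mem_cls.1 h1).2]; exact hl)
      have b2 := card_union_le (H a) (T.filter fun c => r j a c)
      have b3 := hH a ha
      omega
    have a2 := sum_le_sum a1
    rw [sum_const, sum_add_distrib, sum_add_distrib, sum_const, ← mul_sum, swap_card A T (r j),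
      smul_eq_mul, smul_eq_mul] at a2
    have a3 : ∑ a ∈ A, (badAt X Y T a).card ≤ B := by
      rw [hBd]; exact sum_le_sum_of_subset hA
    have a4 := Nat.mul_le_mul_right K0 hAT
    have a5 : A.card * (3 * K0) = 3 * (A.card * K0) := by ring
    omega
  have h2 : ∀ c ∈ T, ∑ j ∈ range t, ((A.filter fun a => r j a c).card : ℝ) / 2 ^ j ≤ 12 * K0 := by
    intro c hc
    refine geom_scales (fun j => (A.filter fun a => r j a c).card) K0 t fun i j hij => ?_
    refine supply hnc hc hK0 H (fun a ha => ?_) (fun z hz => ?_) hij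
    · obtain ⟨a1, -, a2⟩ := mem_filter.1 ha
      exact ⟨hA a1, hH a a1, a2⟩
    · obtain ⟨a1, a2, -⟩ := mem_filter.1 hz
      exact ⟨hA a1, a2⟩
  have h3 := sum_le_sum h2
  rw [sum_comm, sum_const, nsmul_eq_mul] at h3
  have h4 : ∀ j ∈ range t, (A.card : ℝ) * K0 ≤ (B + 3 * (T.card * K0)) * (1 / 2 : ℝ) ^ j +
      3 * ∑ c ∈ T, ((A.filter fun a => r j a c).card : ℝ) / 2 ^ j := by
    intro j hj
    have a1 : (A.card : ℝ) * (2 ^ j * K0) ≤ B + 3 * (T.card * K0) +
        3 * ∑ c ∈ T, ((A.filter fun a => r j a c).card : ℝ) := by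
      exact_mod_cast h1 j (mem_range.1 hj)
    rw [← sum_div, one_div, inv_pow, ← div_eq_mul_inv, ← mul_div_assoc, ← add_div,
      le_div_iff₀ (by positivity)]
    linarith only [a1]
  have h5 := sum_le_sum h4
  rw [sum_const, card_range, nsmul_eq_mul, sum_add_distrib, ← mul_sum, ← mul_sum] at h5
  have h6 := sum_geometric_two_le t
  have h7 : (0 : ℝ) ≤ B + 3 * (T.card * K0) := by positivity
  have h8 := mul_le_mul_of_nonneg_left h6 h7
  generalize ∑ j ∈ range t, ∑ c ∈ T, ((A.filter fun a => r j a c).card : ℝ) / 2 ^ j = U at h3 h5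
  generalize ((B : ℝ) + 3 * (T.card * K0)) * ∑ j ∈ range t, (1 / 2 : ℝ) ^ j = W at h5 h8
  linarith only [h3, h5, h8]

theorem core_large {T : Finset α} (hinj : ∀ p ∈ T, ∀ q ∈ T, X p = X q → Y p = Y q → p = q)
    (hnc : NC X Y T) {K0 t : ℕ} (hK0 : 1 ≤ K0) (ht : 2 ^ t * K0 ≤ T.card) (h517 : 517 ≤ t) :
    T.card * K0 < 2 * ∑ a ∈ T, (badAt X Y T a).card := by
  classical
  have hK : K0 ≤ T.card := (Nat.le_mul_of_pos_left _ (by positivity)).trans ht
  set A := T.filter fun c => ∃ a, (outS X Y T a c).card < K0 with hA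
  have h1 := step_shallow hinj hnc hK (A := A) fun c hc a hl => mem_filter.2 ⟨hc, a, hl⟩
  have hex : ∀ c, ∃ a, c ∈ A → (outS X Y T a c).card < K0 := by
    intro c
    by_cases hc : c ∈ A
    · obtain ⟨a, ha⟩ := (mem_filter.1 hc).2
      exact ⟨a, fun _ => ha⟩
    · exact ⟨c, fun h => absurd h hc⟩
  choose w hw using hex
  have h2 := step_scales hnc hK0 ht (A := A) (filter_subset _ _) (fun a => halfS X Y T a (w a))
    (fun a ha => by
      have := card_halfS hinj (mem_filter.1 ha).1 (w a)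
      have := hw a ha
      omega)
    (fun a _ c hc => exists_mid hinj (w a) hc)
  by_contra hc
  push Not at hc
  generalize ∑ a ∈ T, (badAt X Y T a).card = B at h1 h2 hc
  have a1 : (T.card : ℝ) * K0 ≤ B + 6 * K0 * A.card := by exact_mod_cast h1
  have a2 : 2 * (B : ℝ) ≤ T.card * K0 := by exact_mod_cast hc
  have a3 : (517 : ℝ) ≤ t := by exact_mod_cast h517
  have a4 : (1 : ℝ) ≤ K0 := by exact_mod_cast hK0
  have a5 : (K0 : ℝ) ≤ T.card := by exact_mod_cast hK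
  have a6 : (0 : ℝ) ≤ A.card * K0 := by positivity
  have a7 := mul_le_mul_of_nonneg_right a3 a6
  nlinarith only [h2, a1, a2, a4, a7, a5]

theorem core_small {T : Finset α} (hinj : ∀ p ∈ T, ∀ q ∈ T, X p = X q → Y p = Y q → p = q)
    (hn : 2 ≤ T.card) : T.card + 1 ≤ ∑ a ∈ T, (badAt X Y T a).card := by
  classical
  have hself : ∀ a ∈ T, a ∈ badAt X Y T a := fun a ha => mem_badAt.2 ⟨ha, fun h => h.2.1 rfl⟩
  have hex : ∃ a ∈ T, ∃ c ∈ T, c ≠ a ∧ ¬ Tri X Y T a c := by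
    by_contra hall
    push Not at hall
    obtain ⟨p, hp, q, hq, hpq⟩ := one_lt_card.1 hn
    obtain ⟨⟨a, b⟩, hab, hmax⟩ := exists_max_image (T ×ˢ T) (fun t => D2 X Y t.1 t.2)
      ⟨(p, q), mem_product.2 ⟨hp, hq⟩⟩
    obtain ⟨ha, hb⟩ := mem_product.1 hab
    simp only at ha hb hmax
    have hne : b ≠ a := by
      rintro rfl
      have a1 := hmax (p, q) (mem_product.2 ⟨hp, hq⟩)
      have a2 := D2_pos hinj hp hq hpq
      rw [D2_self] at a1
      simp only at a1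
      linarith
    obtain ⟨c, hc, hlong⟩ := exists_long hinj ha (hall a ha b hb hne)
    have tc := (hall a ha b hb hne).of_mem hinj ha hc
    have ta := hall c tc.1 a ha tc.2.1.symm
    obtain ⟨z, hz, hza⟩ := exists_mem_ne (s := cls X Y T c a) (by rw [ta.2.2]; norm_num) a
    obtain ⟨z1, z2⟩ := mem_cls.1 hz
    have e1 := (mem_cls.1 hc).2
    have e2 := D2_comm (X := X) (Y := Y) z c
    have e3 := D2_comm (X := X) (Y := Y) a c
    have := hlong z z1 hza fun x hx => by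
      have := hmax (z, x) (mem_product.2 ⟨z1, (mem_cls.1 hx).1⟩)
      simp only at this
      linarith
    linarith
  obtain ⟨a, ha, c, hc, hne, hnt⟩ := hex
  have h1 : ∑ _x ∈ T, 1 < ∑ a ∈ T, (badAt X Y T a).card :=
    sum_lt_sum (fun x hx => card_pos.2 ⟨x, hself x hx⟩)
      ⟨a, ha, one_lt_card.2 ⟨c, mem_badAt.2 ⟨hc, hnt⟩, a, hself a ha, hne⟩⟩
  simpa using h1

end

/-- A positive proportion of the ordered pairs are not legs of tripods. -/
theorem core : ∃ δ : ℝ, 0 < δ ∧ δ ≤ 1 ∧ ∀ {α : Type} (X Y : α → ℝ) (T : Finset α),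
    (∀ p ∈ T, ∀ q ∈ T, X p = X q → Y p = Y q → p = q) → NC X Y T → 2 ≤ T.card →
    δ * (T.card : ℝ) ^ 2 + T.card ≤ (∑ a ∈ T, (badAt X Y T a).card : ℕ) := by
  obtain ⟨t, ht⟩ : ∃ t : ℕ, 517 ≤ t := ⟨517, le_rfl⟩
  obtain ⟨N, hNt⟩ : ∃ N : ℕ, N = 2 ^ t := ⟨_, rfl⟩
  have hN : 1 ≤ N := by rw [hNt]; exact Nat.one_le_two_pow
  have hN' : (1 : ℝ) ≤ N := by exact_mod_cast hN
  refine ⟨1 / (64 * (N : ℝ) ^ 2), by positivity, ?_, fun X Y T hinj hnc hn => ?_⟩
  · rw [div_le_one (by positivity)]; nlinarith only [hN']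
  have hn' : (2 : ℝ) ≤ T.card := by exact_mod_cast hn
  by_cases hl : 8 * N ≤ T.card
  · have h1 : 1 ≤ T.card / N := (Nat.le_div_iff_mul_le (by omega)).2 (by omega)
    have h2 := core_large hinj hnc h1 (t := t) (by rw [← hNt]; exact Nat.mul_div_le _ _) ht
    have h3 : T.card < N * (T.card / N + 1) := Nat.lt_mul_div_succ _ (by omega)
    generalize T.card / N = k at h1 h2 h3
    generalize ∑ a ∈ T, (badAt X Y T a).card = B at h2 ⊢
    have a1 : (T.card : ℝ) * k ≤ 2 * B := by exact_mod_cast h2.le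
    have a2 : (T.card : ℝ) ≤ N * (k + 1) := by exact_mod_cast h3.le
    have a3 : 8 * (N : ℝ) ≤ T.card := by exact_mod_cast hl
    have a4 : (7 : ℝ) ≤ k := by
      by_contra hh
      push Not at hh
      nlinarith only [a2, a3, hh, hN']
    have a5 : 1 / (64 * (N : ℝ) ^ 2) * T.card ≤ (k + 1) / 64 := by
      rw [one_div, inv_mul_le_iff₀ (by positivity)]
      nlinarith only [a2, hN', hN, h1, mul_le_mul_of_nonneg_right hN' (show (0 : ℝ) ≤ N * (k + 1) by positivity)]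
    have a6 := mul_le_mul_of_nonneg_right a5 (show (0 : ℝ) ≤ T.card by positivity)
    nlinarith only [hN', a1, a3, a6, a2]
  · have h1 := core_small hinj hn
    have a1 : (T.card : ℝ) + 1 ≤ (∑ a ∈ T, (badAt X Y T a).card : ℕ) := by exact_mod_cast h1
    have a2 : (T.card : ℝ) ≤ 8 * N := by exact_mod_cast (not_le.1 hl).le
    have a3 : 1 / (64 * (N : ℝ) ^ 2) * (T.card : ℝ) ^ 2 ≤ 1 := by
      rw [one_div, inv_mul_le_iff₀ (by positivity)]
      nlinarith only [a2]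
    linarith only [a1, a3]

end Pool.Agent.Work.MP_cbf770_co
end

-- merged part: Pool.Agent.Work.MP_cbf770_co.TriCount
section
/-!
From the tripod bound to isosceles triangles and to distinct distances, in coordinates.
-/

set_option autoImplicit false

namespace Pool.Agent.Work.MP_cbf770_co

open Finset

section
variable {α : Type*} {X Y : α → ℝ}

theorem cls_card (T : Finset α) (a c : α) :
    (cls X Y T a c).card = deg X Y T (a, D2 X Y a c) := rfl

theorem cls_pos {T : Finset α} (a : α) {c : α} (hc : c ∈ T) : 1 ≤ (cls X Y T a c).card :=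
  card_pos.2 ⟨c, mem_cls.2 ⟨hc, rfl⟩⟩

theorem isoT_card [DecidableEq α] {T : Finset α}
    (hinj : ∀ p ∈ T, ∀ q ∈ T, X p = X q → Y p = Y q → p = q) :
    ((isoT X Y T).card : ℝ) =
      ∑ a ∈ T, ∑ b ∈ T.erase a, (((cls X Y T a b).card : ℝ) - 1) := by
  have h1 : (isoT X Y T).card = ∑ a ∈ T, ∑ b ∈ T.erase a, ((cls X Y T a b).erase b).card := by
    simp only [← card_sigma]
    refine card_bij (fun t _ => ⟨t.1, t.2.1, t.2.2⟩) ?_ ?_ ?_
    · intro t ht
      obtain ⟨a1, a2, a3, a4, -, a6, a7⟩ := mem_isoT.1 ht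
      simp only [mem_sigma, mem_erase, mem_cls]
      exact ⟨a1, ⟨a4.symm, a2⟩, a6.symm, a3, a7.symm⟩
    · rintro ⟨a, b, c⟩ _ ⟨a', b', c'⟩ _ h
      simp only [Sigma.mk.injEq, heq_eq_eq] at h
      simp [h.1, h.2.1, h.2.2]
    · rintro ⟨a, b, c⟩ h
      simp only [mem_sigma, mem_erase, mem_cls] at h
      obtain ⟨a1, ⟨a2, a3⟩, a4, a5, a6⟩ := h
      refine ⟨(a, b, c), mem_isoT.2 ⟨a1, a3, a5, a2.symm, ?_, a4.symm, a6.symm⟩, rfl⟩
      intro (e : a = c)
      have := D2_pos hinj a1 a3 a2.symm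
      rw [← e, D2_self] at a6
      linarith
  rw [h1]
  push_cast
  refine sum_congr rfl fun a _ => sum_congr rfl fun b hb => ?_
  have := card_erase_add_one (mem_cls.2 ⟨(mem_erase.1 hb).2, rfl⟩ : b ∈ cls X Y T a b)
  rw [← this]; push_cast; ring

theorem bad_le [DecidableEq α] {T : Finset α} (a : α) :
    ((badAt X Y T a).card : ℝ) - 1 ≤
      ∑ b ∈ T.erase a, (if (cls X Y T a b).card = 3 then (0 : ℝ) else 1) := by
  have h1 : badAt X Y T a ⊆ insert a ((T.erase a).filter fun b => ¬ (cls X Y T a b).card = 3) := by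
    intro c hc
    obtain ⟨c1, c2⟩ := mem_badAt.1 hc
    by_cases hca : c = a
    · rw [hca]; exact mem_insert_self _ _
    · exact mem_insert_of_mem (mem_filter.2 ⟨mem_erase.2 ⟨hca, c1⟩, fun h => c2 ⟨c1, hca, h⟩⟩)
  have h2 := (card_le_card h1).trans (card_insert_le _ _)
  have h3 : ∑ b ∈ T.erase a, (if (cls X Y T a b).card = 3 then (0 : ℝ) else 1) =
      (((T.erase a).filter fun b => ¬ (cls X Y T a b).card = 3).card : ℝ) := by
    rw [card_filter]; push_cast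
    exact sum_congr rfl fun b _ => by split_ifs <;> rfl
  rw [h3]
  have : ((badAt X Y T a).card : ℝ) ≤
      ((T.erase a).filter fun b => ¬ (cls X Y T a b).card = 3).card + 1 := by exact_mod_cast h2
  linarith

open Classical in
/-- The circles centred at points of `T` with at least four points of `T`. -/
noncomputable def rich4 (X Y : α → ℝ) (T : Finset α) : Finset (α × ℝ) :=
  ((T ×ˢ T).image fun t => (t.1, D2 X Y t.1 t.2)).filter fun γ => 4 ≤ deg X Y T γ

theorem mem_rich4 {T : Finset α} {γ : α × ℝ} (h : γ ∈ rich4 X Y T) :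
    γ.1 ∈ T ∧ 0 ≤ γ.2 ∧ 4 ≤ deg X Y T γ := by
  classical
  unfold rich4 at h
  obtain ⟨h1, h2⟩ := mem_filter.1 h
  obtain ⟨t, ht, rfl⟩ := mem_image.1 h1
  exact ⟨(mem_product.1 ht).1, D2_nonneg _ _, h2⟩

theorem iso_le {T : Finset α} (hinj : ∀ p ∈ T, ∀ q ∈ T, X p = X q → Y p = Y q → p = q) :
    ((isoT X Y T).card : ℝ) ≤ 2 * (T.card * (T.card - 1)) -
      ((∑ a ∈ T, (badAt X Y T a).card : ℕ) - T.card) +
      ∑ γ ∈ rich4 X Y T, (deg X Y T γ : ℝ) ^ 2 := by
  classical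
  set g : α × ℝ → ℝ := fun γ => if 4 ≤ deg X Y T γ then (deg X Y T γ : ℝ) else 0 with hg
  have g0 : ∀ γ, 0 ≤ g γ := fun γ => by
    simp only [hg]; split_ifs <;> positivity
  have h1 : ∀ a ∈ T, ∑ b ∈ T.erase a, (((cls X Y T a b).card : ℝ) - 1) ≤
      2 * (T.card - 1) - ((badAt X Y T a).card - 1) + ∑ b ∈ T, g (a, D2 X Y a b) := by
    intro a ha
    have a1 : ∑ b ∈ T.erase a, (((cls X Y T a b).card : ℝ) - 1) ≤
        ∑ b ∈ T.erase a, (2 - (if (cls X Y T a b).card = 3 then (0 : ℝ) else 1) +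
          g (a, D2 X Y a b)) := by
      refine sum_le_sum fun b _ => ?_
      simp only [hg, ← cls_card]
      generalize (cls X Y T a b).card = d
      split_ifs with c1 c2 c2
      · omega
      · rw [c1]; norm_num
      · linarith
      · have : (d : ℝ) ≤ 2 := by exact_mod_cast (by omega : d ≤ 2)
        linarith
    rw [sum_add_distrib, sum_sub_distrib (f := fun _ => (2 : ℝ)), sum_const, nsmul_eq_mul] at a1
    have a2 := bad_le (X := X) (Y := Y) (T := T) a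
    have a3 : ∑ b ∈ T.erase a, g (a, D2 X Y a b) ≤ ∑ b ∈ T, g (a, D2 X Y a b) :=
      sum_le_sum_of_subset_of_nonneg (erase_subset _ _) fun _ _ _ => g0 _
    have a4 : ((T.erase a).card : ℝ) = T.card - 1 := by
      rw [← card_erase_add_one ha]; push_cast; ring
    rw [a4] at a1
    linarith
  have h2 := sum_le_sum h1
  rw [← isoT_card hinj, sum_add_distrib, sum_sub_distrib, sum_sub_distrib, sum_const, sum_const,
    nsmul_eq_mul, nsmul_eq_mul, ← sum_product' (f := fun a b => g (a, D2 X Y a b)),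
    sum_comp g (fun t : α × α => (t.1, D2 X Y t.1 t.2))] at h2
  have h3 : ∑ γ ∈ (T ×ˢ T).image (fun t : α × α => (t.1, D2 X Y t.1 t.2)),
      ((T ×ˢ T).filter fun t : α × α => (t.1, D2 X Y t.1 t.2) = γ).card • g γ ≤
      ∑ γ ∈ rich4 X Y T, (deg X Y T γ : ℝ) ^ 2 := by
    unfold rich4
    rw [sum_filter]
    refine sum_le_sum fun γ _ => ?_
    have a1 : ((T ×ˢ T).filter fun t : α × α => (t.1, D2 X Y t.1 t.2) = γ).card ≤ deg X Y T γ := by
      unfold deg
      refine card_le_card_of_injOn Prod.snd ?_ ?_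
      · intro t ht
        simp only [coe_filter, mem_product, Set.mem_ofPred_eq] at ht ⊢
        obtain ⟨⟨-, b2⟩, rfl⟩ := ht
        exact ⟨b2, rfl⟩
      · intro t ht t' ht' e
        simp only [coe_filter, mem_product, Set.mem_ofPred_eq] at ht ht'
        have := ht.2.trans ht'.2.symm
        exact Prod.ext (Prod.mk.inj this).1 e
    have a2 : (((T ×ˢ T).filter fun t : α × α => (t.1, D2 X Y t.1 t.2) = γ).card : ℝ) ≤
        deg X Y T γ := by exact_mod_cast a1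
    rw [nsmul_eq_mul]
    simp only [hg]
    split_ifs
    · rw [sq]; gcongr
    · simp
  push_cast
  linarith

theorem rich_sq {T : Finset α} (hinj : ∀ p ∈ T, ∀ q ∈ T, X p = X q → Y p = Y q → p = q)
    (hnc : NC X Y T) {D : ℕ} (hD : ∀ γ : α × ℝ, γ.1 ∈ T → deg X Y T γ ≤ D) {A : ℝ} (hA : 0 < A) :
    ∑ γ ∈ rich4 X Y T, (deg X Y T γ : ℝ) ^ 2 ≤
      9 * (2 + A) ^ 2 * (rich4 X Y T).card + 162 * (T.card : ℝ) ^ 2 / A + 108 * D * T.card := by
  have h1 := layer_sum hinj hnc (C := rich4 X Y T) (fun γ h => (mem_rich4 h).1) (D := D)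
    (fun γ h => hD γ (mem_rich4 h).1) (fun γ => deg X Y T γ / 2) (fun γ => deg X Y T γ / 2)
    (fun γ _ => by omega) hA one_pos
  have h2 : ∀ γ ∈ rich4 X Y T, (deg X Y T γ : ℝ) ^ 2 ≤
      18 * (((deg X Y T γ / 2 : ℕ) : ℝ) * ((deg X Y T γ / 2 : ℕ) : ℝ)) -
        18 * (1 + A + 1) * ((deg X Y T γ / 2 : ℕ) : ℝ) + 9 * (2 + A) ^ 2 := by
    intro γ h
    have a1 := (mem_rich4 h).2.2
    have a2 : (deg X Y T γ : ℝ) ≤ 3 * ((deg X Y T γ / 2 : ℕ) : ℝ) := by
      exact_mod_cast (by omega : deg X Y T γ ≤ 3 * (deg X Y T γ / 2))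
    have a3 : (0 : ℝ) ≤ deg X Y T γ := Nat.cast_nonneg _
    generalize ((deg X Y T γ / 2 : ℕ) : ℝ) = o at a2 ⊢
    generalize (deg X Y T γ : ℝ) = d at a2 a3 ⊢
    nlinarith only [a2, a3, sq_nonneg (o - (2 + A)), mul_le_mul a2 a2 a3 (by linarith only [a2, a3])]
  have h3 := sum_le_sum h2
  rw [sum_add_distrib, sum_sub_distrib, ← mul_sum, ← mul_sum, sum_const, nsmul_eq_mul] at h3
  have e : 162 * (T.card : ℝ) ^ 2 / A = 18 * (9 * (T.card : ℝ) ^ 2 / (1 * A)) := by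
    rw [one_mul]; ring
  rw [e]
  linarith only [h1, h3]

theorem remove_rich_gen [DecidableEq α] {P : Finset α}
    (hinj : ∀ p ∈ P, ∀ q ∈ P, X p = X q → Y p = Y q → p = q)
    (hnc : NC X Y P) {E : ℕ} (hE : 1 ≤ E) (hn : 72 * E ^ 2 ≤ P.card) :
    ∃ Q ⊆ P, (P \ Q).card ≤ 28 * E ∧ ∀ γ : α × ℝ, γ.1 ∈ Q → E * deg X Y Q γ ≤ P.card := by
  classical
  set C := ((P ×ˢ P).image fun t => (t.1, D2 X Y t.1 t.2)).filter
    fun γ => P.card < E * deg X Y P γ with hC
  have hC1 : ∀ γ ∈ C, γ.1 ∈ P := by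
    intro γ hγ
    obtain ⟨t, ht, rfl⟩ := mem_image.mp (mem_filter.mp hγ).1
    exact (mem_product.mp ht).1
  have hE' : (1 : ℝ) ≤ E := by exact_mod_cast hE
  have hn' : 72 * (E : ℝ) ^ 2 ≤ P.card := by exact_mod_cast hn
  have hpos : (0 : ℝ) < P.card := by nlinarith only [hE', hn']
  obtain ⟨u, hu⟩ : ∃ u : ℝ, u = P.card / (4 * E) := ⟨_, rfl⟩
  have hu1 : (P.card : ℝ) = 4 * E * u := by rw [hu]; field_simp
  have hu2 : 2 ≤ u := by
    by_contra hh
    push Not at hh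
    nlinarith only [hE', hh, hn', hu1]
  have key := centred_rich hinj hnc hC1 (τ := 2 * u) (by linarith)
  have e1 : 18 * (P.card : ℝ) ^ 2 / (2 * u) ^ 2 = 72 * (E : ℝ) ^ 2 := by
    rw [hu1]; field_simp; norm_num
  have e2 : C.card • u ≤ ∑ γ ∈ C, max ((deg X Y P γ : ℝ) - 2 - 2 * u) 0 := by
    refine card_nsmul_le_sum _ _ _ fun γ hγ => le_max_of_le_left ?_
    have a1 : (P.card : ℝ) < E * deg X Y P γ := by exact_mod_cast (mem_filter.mp hγ).2
    have a2 : 4 * u < deg X Y P γ := by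
      by_contra hh
      push Not at hh
      nlinarith only [hu1, a1, hh]
    linarith only [hu2, a2]
  rw [nsmul_eq_mul] at e2
  have e3 : (C.card : ℝ) ≤ 28 * E := by
    by_contra hc
    push Not at hc
    nlinarith only [hn', key, e1, e2, hu1, hpos, hc]
  refine ⟨P \ C.image Prod.fst, sdiff_subset, ?_, ?_⟩
  · have : (P \ (P \ C.image Prod.fst)) ⊆ C.image Prod.fst := by
      intro x hx
      simp only [mem_sdiff, not_and, not_not] at hx
      exact hx.2 hx.1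
    have e4 : C.card ≤ 28 * E := by exact_mod_cast e3
    exact (card_le_card this).trans (card_image_le.trans e4)
  · intro γ hγ
    obtain ⟨g1, g2⟩ := mem_sdiff.mp hγ
    have h1 : deg X Y (P \ C.image Prod.fst) γ ≤ deg X Y P γ :=
      card_le_card (filter_subset_filter _ sdiff_subset)
    have h1' := Nat.mul_le_mul_left E h1
    by_contra hc
    have h2 : 0 < deg X Y P γ := by
      by_contra h0
      have : deg X Y P γ = 0 := by omega
      rw [this] at h1'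
      omega
    obtain ⟨q, hq⟩ := card_pos.mp h2
    obtain ⟨q1, q2⟩ := mem_filter.mp hq
    refine g2 (mem_image.mpr ⟨γ, mem_filter.mpr ⟨mem_image.mpr
      ⟨(γ.1, q), mem_product.mpr ⟨g1, q1⟩, Prod.ext rfl q2⟩, by omega⟩, rfl⟩)

theorem dist_sum [DecidableEq α] {T : Finset α}
    (hinj : ∀ p ∈ T, ∀ q ∈ T, X p = X q → Y p = Y q → p = q) (hnc : NC X Y T) :
    (T.card : ℝ) * (T.card - 1) + ((∑ a ∈ T, (badAt X Y T a).card : ℕ) - T.card) / 8 ≤
      3 * ∑ a ∈ T, (((T.erase a).image (D2 X Y a)).card : ℝ) := by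
  classical
  have h1 : ∀ a ∈ T, 7 / 4 * ((T.card : ℝ) - 1) -
      3 / 8 * ∑ b ∈ T.erase a, (((cls X Y T a b).card : ℝ) - 1) +
      1 / 8 * ((badAt X Y T a).card - 1) ≤ 3 * (((T.erase a).image (D2 X Y a)).card : ℝ) := by
    intro a ha
    have a0 : ∑ b ∈ T.erase a, (1 : ℝ) / (cls X Y T a b).card =
        (((T.erase a).image (D2 X Y a)).card : ℝ) := by
      simp only [cls_card]
      rw [sum_comp (fun ρ => (1 : ℝ) / deg X Y T (a, ρ)) (D2 X Y a), card_eq_sum_ones]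
      push_cast
      refine sum_congr rfl fun ρ hρ => ?_
      obtain ⟨b, hb, rfl⟩ := mem_image.1 hρ
      have b1 : ((T.erase a).filter fun x => D2 X Y a x = D2 X Y a b) = cls X Y T a b := by
        ext x
        rw [mem_filter, mem_erase, mem_cls]
        refine ⟨fun h => ⟨h.1.2, h.2⟩, fun h => ⟨⟨?_, h.1⟩, h.2⟩⟩
        rintro rfl
        have := D2_pos hinj ha (mem_erase.1 hb).2 (mem_erase.1 hb).1.symm
        rw [D2_self] at h
        linarith [h.2]
      have b2 : (1 : ℝ) ≤ (cls X Y T a b).card := by exact_mod_cast cls_pos a (mem_erase.1 hb).2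
      rw [b1, ← cls_card, nsmul_eq_mul]
      field_simp
    have a1 : ∑ b ∈ T.erase a, (1 + 3 / 8 * (2 - (((cls X Y T a b).card : ℝ) - 1)) +
        1 / 8 * (if (cls X Y T a b).card = 3 then (0 : ℝ) else 1)) ≤
        ∑ b ∈ T.erase a, 3 * ((1 : ℝ) / (cls X Y T a b).card) := by
      refine sum_le_sum fun b hb => ?_
      have b2 := cls_pos (X := X) (Y := Y) a (mem_erase.1 hb).2
      generalize (cls X Y T a b).card = d at b2
      have b3 : (1 : ℝ) ≤ d := by exact_mod_cast b2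
      rw [mul_one_div, le_div_iff₀ (by linarith)]
      split_ifs with c1
      · rw [c1]; norm_num
      · rcases (by omega : d ≤ 2 ∨ 4 ≤ d) with c2 | c2
        · have : (d : ℝ) ≤ 2 := by exact_mod_cast c2
          nlinarith only [this]
        · have : (4 : ℝ) ≤ d := by exact_mod_cast c2
          nlinarith only [b3, this]
    rw [← mul_sum, a0, sum_add_distrib, sum_add_distrib, ← mul_sum, ← mul_sum, sum_sub_distrib,
      sum_const, sum_const, nsmul_eq_mul, nsmul_eq_mul] at a1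
    have a2 := bad_le (X := X) (Y := Y) (T := T) a
    have a4 : ((T.erase a).card : ℝ) = T.card - 1 := by
      rw [← card_erase_add_one ha]; push_cast; ring
    rw [a4] at a1
    linarith only [a1, a2]
  have h2 := sum_le_sum h1
  rw [sum_add_distrib, sum_sub_distrib (f := fun _ => 7 / 4 * ((T.card : ℝ) - 1)), sum_const,
    ← mul_sum, ← mul_sum, ← mul_sum, ← isoT_card hinj,
    sum_sub_distrib (f := fun a => ((badAt X Y T a).card : ℝ)), sum_const, nsmul_eq_mul,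
    nsmul_eq_mul] at h2
  have h3 := apex_bound hnc (isoT X Y T) T.offDiag fun t ht => by
    obtain ⟨a1, a2, a3, -, -, a6, a7⟩ := mem_isoT.1 ht
    exact ⟨a1, a2, a3, a6, a7, mem_offDiag.2 ⟨a2, a3, a6⟩⟩
  have o1 : (T.offDiag.card : ℝ) = T.card * T.card - T.card := by
    rw [offDiag_card, Nat.cast_sub (Nat.le_mul_self _)]; push_cast; ring
  have h4 : ((isoT X Y T).card : ℝ) ≤ 2 * T.offDiag.card := by exact_mod_cast h3
  push_cast
  nlinarith only [h2, o1, h4]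

end

end Pool.Agent.Work.MP_cbf770_co
end

-- merged part: Pool.Agent.Work.MP_cbf770_co.TriMain
section
/-!
The two consequences of the tripod bound in the Euclidean plane.
-/

set_option autoImplicit false

namespace Pool.Agent.Work.MP_cbf770_co

open Finset

theorem iso_main : ∃ c : ℝ, 0 < c ∧ ∃ C : ℕ, ∀ {α : Type} [DecidableEq α] (X Y : α → ℝ)
    (P : Finset α), (∀ p ∈ P, ∀ q ∈ P, X p = X q → Y p = Y q → p = q) → NC X Y P →
    ∃ Q ⊆ P, (P \ Q).card ≤ C ∧ ((isoT X Y Q).card : ℝ) ≤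
      (2 - c) * ((P.card : ℝ) * (P.card - 1)) + C * (rich4 X Y Q).card := by
  obtain ⟨δ, hδ, hδ1, hcore⟩ := core
  obtain ⟨E, hE⟩ := exists_nat_ge (864 / δ)
  have hE1 : 864 ≤ δ * E := by rwa [div_le_iff₀' hδ] at hE
  have hE2 : (864 : ℝ) ≤ E := by nlinarith only [hE1, hδ1, (Nat.cast_nonneg E : (0 : ℝ) ≤ E)]
  have hE3 : 864 ≤ E := by exact_mod_cast hE2
  obtain ⟨K, hK⟩ := exists_nat_ge (9 * (2 + 648 / δ) ^ 2)
  refine ⟨δ / 2, by linarith only [hδ], K + 72 * E ^ 2, fun X Y P hinj hnc => ?_⟩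
  have hnn : (0 : ℝ) ≤ (P.card : ℝ) * (P.card - 1) := by
    rcases Nat.eq_zero_or_pos P.card with h | h
    · simp [h]
    · have : (1 : ℝ) ≤ P.card := by exact_mod_cast h
      positivity
  by_cases hn : 72 * E ^ 2 ≤ P.card
  · obtain ⟨Q, hQ, h1, h2⟩ := remove_rich_gen hinj hnc (E := E) (by omega) hn
    have c1 : (P \ Q).card + Q.card = P.card := card_sdiff_add_card_eq_card hQ
    have c2 : 72 * E ≤ 72 * E ^ 2 := by nlinarith only [hE3]
    have hinjQ : ∀ p ∈ Q, ∀ q ∈ Q, X p = X q → Y p = Y q → p = q :=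
      fun p hp q hq => hinj p (hQ hp) q (hQ hq)
    refine ⟨Q, hQ, by omega, ?_⟩
    have a1 := iso_le hinjQ
    have a2 := hcore X Y Q hinjQ (hnc.mono hQ) (by omega)
    have a3 := rich_sq hinjQ (hnc.mono hQ) (D := P.card / E) (A := 648 / δ)
      (fun γ hγ => (Nat.le_div_iff_mul_le (by omega)).2 (by rw [mul_comm]; exact h2 γ hγ))
      (by positivity)
    have a4 : 162 * (Q.card : ℝ) ^ 2 / (648 / δ) = δ / 4 * (Q.card : ℝ) ^ 2 := by
      field_simp; ring
    have a5 : (E : ℝ) * (P.card / E : ℕ) ≤ 2 * Q.card := by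
      have := Nat.mul_div_le P.card E
      exact_mod_cast (by omega : E * (P.card / E) ≤ 2 * Q.card)
    have a6 : (1 : ℝ) ≤ Q.card := by exact_mod_cast (by omega : 1 ≤ Q.card)
    have a7 : (Q.card : ℝ) ≤ P.card := by exact_mod_cast card_le_card hQ
    have a8 : (0 : ℝ) ≤ (rich4 X Y Q).card := Nat.cast_nonneg _
    have a9 : (0 : ℝ) ≤ (P.card / E : ℕ) := Nat.cast_nonneg _
    generalize ((P.card / E : ℕ) : ℝ) = D at a3 a5 a9
    generalize ((∑ a ∈ Q, (badAt X Y Q a).card : ℕ) : ℝ) = B at a1 a2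
    generalize ∑ γ ∈ rich4 X Y Q, (deg X Y Q γ : ℝ) ^ 2 = W at a1 a3
    generalize ((rich4 X Y Q).card : ℝ) = M at a3 a8 ⊢
    rw [a4] at a3
    have b1 : 108 * D ≤ δ / 4 * Q.card := by
      nlinarith only [hE1, a9, a5, hδ, mul_le_mul_of_nonneg_right hE1 a9, mul_le_mul_of_nonneg_left a5 hδ.le]
    have b2 := mul_le_mul_of_nonneg_right b1 (show (0 : ℝ) ≤ Q.card by linarith only [a6])
    have b3 : 9 * (2 + 648 / δ) ^ 2 * M ≤ ((K + 72 * E ^ 2 : ℕ) : ℝ) * M := by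
      refine mul_le_mul_of_nonneg_right (hK.trans ?_) a8
      exact_mod_cast Nat.le_add_right _ _
    have b4 : (Q.card : ℝ) * (Q.card - 1) ≤ P.card * (P.card - 1) := by nlinarith only [a7, a6]
    have b5 := mul_le_mul_of_nonneg_left b4 (show (0 : ℝ) ≤ 2 - δ / 2 by linarith only [hδ1])
    nlinarith only [a9, a2, a1, a3, b1, b2, b3, b5, mul_nonneg hδ.le (show (0 : ℝ) ≤ Q.card by linarith only [a6])]
  · refine ⟨∅, empty_subset _, by simp only [sdiff_empty]; omega, ?_⟩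
    simp only [isoT, empty_product, filter_empty, card_empty, Nat.cast_zero]
    have : (0 : ℝ) ≤ 2 - δ / 2 := by linarith only [hδ1]
    positivity

theorem two_ncard_le (Q : Finset (EuclideanSpace ℝ (Fin 2))) :
    2 * (({T : Finset (EuclideanSpace ℝ (Fin 2)) | T ⊆ Q ∧ T.card = 3 ∧
        ∃ a ∈ T, ∃ b ∈ T, ∃ c ∈ T, a ≠ b ∧ a ≠ c ∧ b ≠ c ∧ dist a b = dist a c}.ncard : ℕ) : ℝ)
      ≤ ((isoT (fun p => p 0) (fun p => p 1) Q).card : ℝ) := by
  classical
  set J := isoT (fun p => p 0) (fun p => p 1) Q with hJ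
  let f : EuclideanSpace ℝ (Fin 2) × EuclideanSpace ℝ (Fin 2) × EuclideanSpace ℝ (Fin 2) →
    Finset (EuclideanSpace ℝ (Fin 2)) := fun t => {t.1, t.2.1, t.2.2}
  have h1 : {T : Finset (EuclideanSpace ℝ (Fin 2)) | T ⊆ Q ∧ T.card = 3 ∧
        ∃ a ∈ T, ∃ b ∈ T, ∃ c ∈ T, a ≠ b ∧ a ≠ c ∧ b ≠ c ∧ dist a b = dist a c}.ncard ≤
      (J.image f).card := by
    rw [← Set.ncard_coe_finset]
    refine Set.ncard_le_ncard ?_ (finite_toSet _)
    rintro T ⟨t1, t2, a, ha, b, hb, c, hc, n1, n2, n3, e⟩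
    refine mem_coe.mpr (mem_image.mpr ⟨(a, b, c),
      mem_isoT.mpr ⟨t1 ha, t1 hb, t1 hc, n1, n2, n3, (dist_eq_iff a b c).mp e⟩, ?_⟩)
    refine eq_of_subset_of_card_le ?_ ?_
    · intro x hx
      simp only [f, mem_insert, mem_singleton] at hx
      rcases hx with rfl | rfl | rfl <;> assumption
    · rw [t2]
      exact (card_eq_three.mpr ⟨a, b, c, n1, n2, n3, rfl⟩).ge
  have h2 : 2 * (J.image f).card ≤ J.card := by
    refine mul_card_image_le_card J 2 fun s hs => ?_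
    obtain ⟨⟨a, b, c⟩, ht, rfl⟩ := mem_image.mp hs
    obtain ⟨a1, a2, a3, a4, a5, a6, a7⟩ := mem_isoT.mp ht
    refine one_lt_card.mpr ⟨(a, b, c), mem_filter.mpr ⟨ht, rfl⟩, (a, c, b),
      mem_filter.mpr ⟨mem_isoT.mpr ⟨a1, a3, a2, a5, a4, a6.symm, a7.symm⟩, ?_⟩, ?_⟩
    · simp only [f, pair_comm]
    · simp only [ne_eq, Prod.mk.injEq, true_and, not_and]
      exact fun h _ => a6 h
  exact_mod_cast (Nat.mul_le_mul_left 2 h1).trans h2

theorem dist_eq_sqrt (a b : EuclideanSpace ℝ (Fin 2)) :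
    dist a b = √(D2 (fun p => p 0) (fun p => p 1) a b) := by
  rw [EuclideanSpace.dist_eq]
  congr 1
  simp only [Fin.sum_univ_two, Real.dist_eq, sq_abs, D2]
  ring

theorem rich4_le {P Q : Finset (EuclideanSpace ℝ (Fin 2))} (hQ : Q ⊆ P) :
    (rich4 (fun p => p 0) (fun p => p 1) Q).card ≤
      {γ : EuclideanSpace ℝ (Fin 2) × ℝ |
        γ.1 ∈ P ∧ 4 ≤ {x | x ∈ P ∧ dist γ.1 x = γ.2}.ncard}.ncard := by
  classical
  have hfin : {γ : EuclideanSpace ℝ (Fin 2) × ℝ |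
      γ.1 ∈ P ∧ 4 ≤ {x | x ∈ P ∧ dist γ.1 x = γ.2}.ncard}.Finite := by
    refine ((P ×ˢ P).image fun t => (t.1, dist t.1 t.2)).finite_toSet.subset ?_
    rintro γ ⟨g1, g2⟩
    obtain ⟨x, hx1, hx2⟩ := Set.nonempty_of_ncard_ne_zero
      (s := {x | x ∈ P ∧ dist γ.1 x = γ.2}) (by omega)
    exact mem_coe.2 (mem_image.2 ⟨(γ.1, x), mem_product.2 ⟨g1, hx1⟩, Prod.ext rfl hx2⟩)
  rw [← Set.ncard_coe_finset]
  refine Set.ncard_le_ncard_of_injOn (fun γ => (γ.1, √γ.2)) ?_ ?_ hfin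
  · intro γ hγ
    obtain ⟨g1, -, g3⟩ := mem_rich4 (mem_coe.1 hγ)
    refine ⟨hQ g1, g3.trans ?_⟩
    unfold deg
    rw [← Set.ncard_coe_finset]
    refine Set.ncard_le_ncard ?_ (P.finite_toSet.subset fun x hx => hx.1)
    intro x hx
    obtain ⟨x1, x2⟩ := mem_filter.1 (mem_coe.1 hx)
    exact ⟨hQ x1, by rw [dist_eq_sqrt, x2]⟩
  · intro γ hγ γ' hγ' e
    obtain ⟨e1, e2⟩ := Prod.mk.inj e
    exact Prod.ext e1 ((Real.sqrt_inj (mem_rich4 (mem_coe.1 hγ)).2.1
      (mem_rich4 (mem_coe.1 hγ')).2.1).1 e2)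

theorem iso_plane : ∃ c : ℝ, 0 < c ∧ ∃ C : ℕ, ∀ P : Finset (EuclideanSpace ℝ (Fin 2)),
      (∀ a ∈ P, ∀ b ∈ P, ∀ c ∈ P, a ≠ b → a ≠ c → b ≠ c → ¬ Collinear ℝ {a, b, c}) →
      ∃ Q ⊆ P, (P \ Q).card ≤ C ∧
        (({T : Finset (EuclideanSpace ℝ (Fin 2)) | T ⊆ Q ∧ T.card = 3 ∧
            ∃ a ∈ T, ∃ b ∈ T, ∃ c ∈ T, a ≠ b ∧ a ≠ c ∧ b ≠ c ∧ dist a b = dist a c}.ncard : ℕ) : ℝ)
          ≤ (2 - c) * ((P.card.choose 2 : ℕ) : ℝ) +
            C * (({γ : EuclideanSpace ℝ (Fin 2) × ℝ |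
              γ.1 ∈ P ∧ 4 ≤ {x | x ∈ P ∧ dist γ.1 x = γ.2}.ncard}.ncard : ℕ) : ℝ) := by
  obtain ⟨c, hc, C, h⟩ := iso_main
  refine ⟨c, hc, C, fun P hcol => ?_⟩
  obtain ⟨Q, h1, h2, h3⟩ := h (fun p => p 0) (fun p => p 1) P
    (fun p _ q _ e1 e2 => plane_ext e1 e2) (nc_of_collinear hcol)
  refine ⟨Q, h1, h2, ?_⟩
  have a1 := two_ncard_le Q
  have a2 : ((rich4 (fun p => p 0) (fun p => p 1) Q).card : ℝ) ≤ _ := Nat.cast_le.2 (rich4_le h1)
  have a3 := mul_le_mul_of_nonneg_left a2 (Nat.cast_nonneg C : (0 : ℝ) ≤ C)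
  have a4 : (0 : ℝ) ≤ C * (rich4 (fun p => p 0) (fun p => p 1) Q).card := by positivity
  rw [Nat.cast_choose_two]
  linarith only [h3, a1, a3, a4]

theorem dist_plane : ∃ c : ℝ, 0 < c ∧ ∀ P : Finset (EuclideanSpace ℝ (Fin 2)),
      (∀ a ∈ P, ∀ b ∈ P, ∀ c ∈ P, a ≠ b → a ≠ c → b ≠ c → ¬ Collinear ℝ {a, b, c}) →
      (1 / 3 + c) * ((P.card : ℝ) * (P.card - 1)) ≤
        ∑ a ∈ P, (({r : ℝ | ∃ x ∈ P, x ≠ a ∧ dist a x = r}.ncard : ℕ) : ℝ) := by
  classical
  obtain ⟨δ, hδ, -, hcore⟩ := core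
  refine ⟨δ / 24, by linarith, fun P hcol => ?_⟩
  by_cases hn : 2 ≤ P.card
  swap
  · have : (P.card : ℝ) * (P.card - 1) = 0 := by
      rcases (by omega : P.card = 0 ∨ P.card = 1) with h | h <;> simp [h]
    rw [this, mul_zero]
    exact sum_nonneg fun _ _ => Nat.cast_nonneg _
  have hinj : ∀ p ∈ P, ∀ q ∈ P, (fun p : EuclideanSpace ℝ (Fin 2) => p 0) p = (fun p => p 0) q →
      (fun p : EuclideanSpace ℝ (Fin 2) => p 1) p = (fun p => p 1) q → p = q :=
    fun p _ q _ e1 e2 => plane_ext e1 e2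
  have a1 := hcore _ _ P hinj (nc_of_collinear hcol) hn
  have a2 := dist_sum hinj (nc_of_collinear hcol)
  have a3 : ∑ a ∈ P, (((P.erase a).image (D2 (fun p => p 0) (fun p => p 1) a)).card : ℝ) ≤
      ∑ a ∈ P, (({r : ℝ | ∃ x ∈ P, x ≠ a ∧ dist a x = r}.ncard : ℕ) : ℝ) := by
    refine sum_le_sum fun a _ => Nat.cast_le.2 ?_
    rw [← Set.ncard_coe_finset]
    refine Set.ncard_le_ncard_of_injOn (fun ρ => √ρ) ?_ ?_ ?_
    · intro ρ hρ
      obtain ⟨x, hx, rfl⟩ := mem_image.1 (mem_coe.1 hρ)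
      exact ⟨x, (mem_erase.1 hx).2, (mem_erase.1 hx).1, dist_eq_sqrt a x⟩
    · intro ρ hρ ρ' hρ' e
      obtain ⟨x, -, rfl⟩ := mem_image.1 (mem_coe.1 hρ)
      obtain ⟨x', -, rfl⟩ := mem_image.1 (mem_coe.1 hρ')
      exact (Real.sqrt_inj (D2_nonneg _ _) (D2_nonneg _ _)).1 e
    · refine (P.image (dist a)).finite_toSet.subset ?_
      rintro r ⟨x, x1, -, rfl⟩
      exact mem_coe.2 (mem_image_of_mem _ x1)
  have a4 : (2 : ℝ) ≤ P.card := by exact_mod_cast hn
  nlinarith only [a1, a2, a3, hδ, a4, mul_nonneg hδ.le (show (0 : ℝ) ≤ P.card by linarith only [a4])]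

end Pool.Agent.Work.MP_cbf770_co
end
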