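import Pool.Agent.Work.MP_cbf770_co.Planar

/-!
Redrawing: crossings between edges with a common left or right end can be removed without
increasing the total number of crossings.
-/

set_option autoImplicit false

namespace Pool.Agent.Work.MP_cbf770_co

open Finset

variable {ι : Type*}

open Classical in
/-- Total number of (ordered) crossings. -/
noncomputable def crN (E : Finset ι) (n : ℕ) (l r : ι → ℕ) (h : ι → ℕ → ℝ) : ℕ :=
  ∑ i ∈ range n, ∑ e ∈ E, ∑ f ∈ E, if Cr l r h e f i then 1 else 0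

theorem swap_ineq (a0 a1 b0 b1 c0 c1 : ℝ) (h : (a0 - b0) * (a1 - b1) < 0) :
    ((if (b0 - c0) * (a1 - c1) < 0 then 1 else 0) + (if (a0 - c0) * (b1 - c1) < 0 then 1 else 0) : ℕ)
      ≤ (if (a0 - c0) * (a1 - c1) < 0 then 1 else 0) +
        (if (b0 - c0) * (b1 - c1) < 0 then 1 else 0) := by
  simp only [mul_neg_iff, sub_pos, sub_neg] at h ⊢
  split_ifs <;> first | omega | (exfalso; grind)

theorem sum_strict [DecidableEq ι] {E : Finset ι} {e g : ι} (he : e ∈ E) (hg : g ∈ E) (heg : e ≠ g)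
    (c c' : ι → ι → ℕ) (hs : ∀ a b, c a b = c b a) (hs' : ∀ a b, c' a b = c' b a)
    (h0 : ∀ a, c' a a = 0) (h1 : c' e g = 0) (h2 : c e g = 1)
    (h3 : ∀ a ∈ E, a ≠ e → a ≠ g → c' e a + c' g a ≤ c e a + c g a)
    (h4 : ∀ a ∈ E, a ≠ e → a ≠ g → ∀ b ∈ E, b ≠ e → b ≠ g → c' a b = c a b) :
    ∑ a ∈ E, ∑ b ∈ E, c' a b < ∑ a ∈ E, ∑ b ∈ E, c a b := by
  obtain ⟨E0, rfl, n1, n2⟩ : ∃ E0 : Finset ι, E = insert e (insert g E0) ∧ e ∉ insert g E0 ∧
      g ∉ E0 := by
    refine ⟨(E.erase e).erase g, ?_, by simp [heg], by simp⟩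
    rw [insert_erase (mem_erase.mpr ⟨heg.symm, hg⟩), insert_erase he]
  have m : ∀ a ∈ E0, a ∈ insert e (insert g E0) ∧ a ≠ e ∧ a ≠ g := by
    intro a ha
    refine ⟨by simp [ha], ?_, ?_⟩
    · rintro rfl; exact n1 (by simp [ha])
    · rintro rfl; exact n2 ha
  simp only [sum_insert n1, sum_insert n2, sum_add_distrib]
  have t1 : ∑ a ∈ E0, c' e a + ∑ a ∈ E0, c' g a ≤ ∑ a ∈ E0, c e a + ∑ a ∈ E0, c g a := by
    rw [← sum_add_distrib, ← sum_add_distrib]
    exact sum_le_sum fun a ha => h3 a (m a ha).1 (m a ha).2.1 (m a ha).2.2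
  have t2 : ∑ a ∈ E0, ∑ b ∈ E0, c' a b = ∑ a ∈ E0, ∑ b ∈ E0, c a b :=
    sum_congr rfl fun a ha => sum_congr rfl fun b hb =>
      h4 a (m a ha).1 (m a ha).2.1 (m a ha).2.2 b (m b hb).1 (m b hb).2.1 (m b hb).2.2
  have s1 : ∑ a ∈ E0, c a e = ∑ a ∈ E0, c e a := sum_congr rfl fun a _ => hs _ _
  have s2 : ∑ a ∈ E0, c a g = ∑ a ∈ E0, c g a := sum_congr rfl fun a _ => hs _ _
  have s3 : ∑ a ∈ E0, c' a e = ∑ a ∈ E0, c' e a := sum_congr rfl fun a _ => hs' _ _
  have s4 : ∑ a ∈ E0, c' a g = ∑ a ∈ E0, c' g a := sum_congr rfl fun a _ => hs' _ _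
  have := h0 e
  have := h0 g
  have := hs' g e
  omega

section
variable {E : Finset ι} {n : ℕ} {l r : ι → ℕ} {y : ℕ → ℝ} {h : ι → ℕ → ℝ}

theorem swap_step (hv : Valid E l r y h) (hn : ∀ e ∈ E, r e ≤ n) {e g : ι} (he : e ∈ E)
    (hg : g ∈ E) {i : ℕ} (hc : Cr l r h e g i) (S : ℕ → Prop)
    (S1 : ∀ j, j ≠ i → (S j ↔ S (j + 1))) (S2 : S i ↔ ¬ S (i + 1))
    (S3 : ∀ k, S k → (l e ≤ k ↔ l g ≤ k) ∧ (l e < k ↔ l g < k) ∧ (k < r e ↔ k < r g) ∧
      (k ≤ r e ↔ k ≤ r g)) :
    ∃ h', Valid E l r y h' ∧ crN E n l r h' < crN E n l r h := by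
  classical
  have heg : e ≠ g := by
    rintro rfl
    exact not_Cr_self _ _ hc
  let σ := Equiv.swap e g
  have σE : ∀ f, f ∈ E ↔ σ f ∈ E := by
    intro f
    by_cases a : f = e
    · simp [σ, a, he, hg]
    · by_cases b : f = g
      · simp [σ, b, he, hg]
      · simp [σ, Equiv.swap_apply_of_ne_of_ne a b]
  have σS : ∀ f k, S k → (l (σ f) ≤ k ↔ l f ≤ k) ∧ (l (σ f) < k ↔ l f < k) ∧
      (k < r (σ f) ↔ k < r f) ∧ (k ≤ r (σ f) ↔ k ≤ r f) := by
    intro f k hk
    have := S3 k hk
    by_cases a : f = e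
    · simp only [σ, a, Equiv.swap_apply_left]
      exact ⟨this.1.symm, this.2.1.symm, this.2.2.1.symm, this.2.2.2.symm⟩
    · by_cases b : f = g
      · simp only [σ, b, Equiv.swap_apply_right]; exact this
      · simp [σ, Equiv.swap_apply_of_ne_of_ne a b]
  let h' : ι → ℕ → ℝ := fun f k => if S k then h (σ f) k else h f k
  refine ⟨h', ⟨hv.lt, ?_, ?_, ?_, ?_⟩, ?_⟩
  · intro f hf
    by_cases a : S (l f)
    · have t := σS f _ a
      have t2 : l (σ f) = l f := by omega
      simp only [h', a, if_true]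
      rw [← t2]; exact hv.hl _ ((σE f).mp hf)
    · simp only [h', a, if_false]; exact hv.hl f hf
  · intro f hf
    by_cases a : S (r f)
    · have t := σS f _ a
      have t2 : r (σ f) = r f := by omega
      simp only [h', a, if_true]
      rw [← t2]; exact hv.hr _ ((σE f).mp hf)
    · simp only [h', a, if_false]; exact hv.hr f hf
  · intro f hf k k1 k2
    by_cases a : S k
    · have t := σS f _ a
      simp only [h', a, if_true]
      exact hv.av _ ((σE f).mp hf) k (by omega) (by omega)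
    · simp only [h', a, if_false]; exact hv.av f hf k k1 k2
  · intro f hf f' hf' hne k k1 k2 k3 k4
    by_cases a : S k
    · have t := σS f _ a
      have t' := σS f' _ a
      simp only [h', a, if_true]
      exact hv.ne _ ((σE f).mp hf) _ ((σE f').mp hf') (σ.injective.ne hne) k
        (by omega) (by omega) (by omega) (by omega)
    · simp only [h', a, if_false]; exact hv.ne f hf f' hf' hne k k1 k2 k3 k4
  · have hi : i ∈ range n := by
      have := hn e he
      have := hc.2.1
      exact mem_range.mpr (by omega)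
    have strict : (∑ a ∈ E, ∑ b ∈ E, if Cr l r h' a b i then 1 else 0 : ℕ) <
        ∑ a ∈ E, ∑ b ∈ E, if Cr l r h a b i then 1 else 0 := by
      obtain ⟨c1, c2, c3, c4, c5⟩ := hc
      have fix : ∀ a, a ≠ e → a ≠ g → ∀ k, h' a k = h a k := by
        intro a a1 a2 k
        simp [h', σ, Equiv.swap_apply_of_ne_of_ne a1 a2]
      have two : (h' e i = h g i ∧ h' g i = h e i ∧ h' e (i + 1) = h e (i + 1) ∧
          h' g (i + 1) = h g (i + 1)) ∨ (h' e i = h e i ∧ h' g i = h g i ∧
          h' e (i + 1) = h g (i + 1) ∧ h' g (i + 1) = h e (i + 1)) := by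
        by_cases a : S i
        · left
          have b := S2.mp a
          simp [h', σ, a, b]
        · right
          have b : S (i + 1) := by_contra fun b => a (S2.mpr b)
          simp [h', σ, a, b]
      refine sum_strict he hg heg _ _ ?_ ?_ ?_ ?_ ?_ ?_ ?_
      · intro a b
        exact if_congr ⟨Cr.symm, Cr.symm⟩ rfl rfl
      · intro a b
        exact if_congr ⟨Cr.symm, Cr.symm⟩ rfl rfl
      · intro a
        exact if_neg (not_Cr_self _ _)
      · refine if_neg ?_
        rintro ⟨-, -, -, -, m⟩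
        rcases two with ⟨t1, t2, t3, t4⟩ | ⟨t1, t2, t3, t4⟩ <;> rw [t1, t2, t3, t4] at m <;>
          nlinarith
      · exact if_pos ⟨c1, c2, c3, c4, c5⟩
      · intro a _ a1 a2
        by_cases b : l a ≤ i ∧ i < r a
        · have := swap_ineq _ _ _ _ (h a i) (h a (i + 1)) c5
          simp only [Cr, c1, c2, c3, c4, b.1, b.2, true_and, fix a a1 a2]
          rcases two with ⟨t1, t2, t3, t4⟩ | ⟨t1, t2, t3, t4⟩ <;> rw [t1, t2, t3, t4]
          · convert this
          · rw [add_comm]; convert this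
        · have q : ∀ (hh : ι → ℕ → ℝ) (u : ι), ¬ Cr l r hh u a i := by
            rintro hh u ⟨-, -, x1, x2, -⟩
            exact b ⟨x1, x2⟩
          simp [q]
      · intro a _ a1 a2 b _ b1 b2
        exact if_congr (by simp only [Cr, fix a a1 a2, fix b b1 b2]) rfl rfl
    refine sum_lt_sum ?_ ⟨i, hi, strict⟩
    intro j _
    by_cases hj : j = i
    · rw [hj]; exact strict.le
    · apply le_of_eq
      by_cases a : S j
      · have b := (S1 j hj).mp a
        refine sum_equiv σ σE fun f _ => sum_equiv σ σE fun f' _ => ?_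
        have t := σS f j a
        have t' := σS f' j a
        exact if_congr (by simp only [Cr, h', a, b, if_true, t.1, t.2.2.1, t'.1, t'.2.2.1]) rfl rfl
      · have b : ¬ S (j + 1) := fun hb => a ((S1 j hj).mpr hb)
        refine sum_congr rfl fun f _ => sum_congr rfl fun f' _ => ?_
        exact if_congr (by simp only [Cr, h', a, b, if_false]) rfl rfl

theorem uncross (hv : Valid E l r y h) (hn : ∀ e ∈ E, r e ≤ n) :
    ∃ h', Valid E l r y h' ∧ crN E n l r h' ≤ crN E n l r h ∧
      ∀ e ∈ E, ∀ f ∈ E, ∀ i, Cr l r h' e f i → l e ≠ l f ∧ r e ≠ r f := by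
  induction hN : crN E n l r h using Nat.strong_induction_on generalizing h with
  | _ N ih =>
    by_cases c : ∀ e ∈ E, ∀ f ∈ E, ∀ i, Cr l r h e f i → l e ≠ l f ∧ r e ≠ r f
    · exact ⟨h, hv, hN.le, c⟩
    · push Not at c
      obtain ⟨e, he, g, hg, i, hc, hx⟩ := c
      have : ∃ h', Valid E l r y h' ∧ crN E n l r h' < crN E n l r h := by
        obtain ⟨c1, c2, c3, c4, -⟩ := id hc
        by_cases a : l e = l g
        · exact swap_step hv hn he hg hc (fun k => k ≤ i) (fun j hj => by omega) (by omega)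
            (fun k hk => by omega)
        · have b := hx a
          exact swap_step hv hn he hg hc (fun k => i + 1 ≤ k) (fun j hj => by omega) (by omega)
            (fun k hk => by omega)
      obtain ⟨h1, v1, l1⟩ := this
      obtain ⟨h2, v2, l2, p2⟩ := ih _ (hN ▸ l1) v1 rfl
      exact ⟨h2, v2, by omega, p2⟩

theorem crP_le_crN (hn : ∀ e ∈ E, r e ≤ n) : (crP E l r h).card ≤ crN E n l r h := by
  classical
  rw [crN, sum_comm]
  simp_rw [sum_comm (s := range n)]
  rw [crP, card_filter, sum_product]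
  refine sum_le_sum fun e he => sum_le_sum fun f _ => ?_
  split_ifs with a
  · obtain ⟨i, hi⟩ := a
    have h1 : i ∈ range n := by
      have := hn e he
      have : i < r e := hi.2.1
      exact mem_range.mpr (by omega)
    have := single_le_sum (f := fun i => if Cr l r h e f i then 1 else 0)
      (fun _ _ => Nat.zero_le _) h1
    have hi' : Cr l r h e f i := hi
    simpa [hi'] using this
  · exact Nat.zero_le _

end

end Pool.Agent.Work.MP_cbf770_co
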